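import Pool.Agent.Y63.NV.Stm

/-!
# The count of Dade, Glauberman and Nagao, and extensions of index `p`: statements of the parts
-/

open scoped Classical

noncomputable section

namespace Pool.Agent.Y63.NV

open Pool.Agent.Y63.AWC (IsIrreducibleCharacter pSubgroupSetoid numDefectZero numWeights
  numRegularClasses)

/-- the number of `Y`-invariant irreducible characters of `X` of `p`-defect zero -/
def numInvDz (p : ℕ) {Y : Type} [Group Y] (X : Subgroup Y) : ℕ :=
  Nat.card {χ : X → ℂ // IsIrreducibleCharacter χ ∧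
    (∃ n : ℕ, χ 1 = (n : ℂ) ∧ n.factorization p = (Nat.card X).factorization p) ∧
    ∀ (y : Y) (a b : X), (b : Y) = y * a * y⁻¹ → χ b = χ a}

/-- the number of characters of defect zero of `N_Y(R)/R` -/
def locz (p : ℕ) {Y : Type} [Group Y] (R : Subgroup Y) : ℕ :=
  numDefectZero p (Subgroup.normalizer (R : Set Y) ⧸
    R.subgroupOf (Subgroup.normalizer (R : Set Y)))

/-- the elements `x` of `X` with `|C_X(x)|` prime to `p` and with `Y`-invariant `X`-class -/
def E0 (p : ℕ) {Y : Type} [Group Y] (X : Subgroup Y) : Set Y :=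
  {x | x ∈ X ∧ ¬ p ∣ Nat.card ↥(X ⊓ Subgroup.centralizer {x}) ∧
    ∀ y : Y, ∃ n ∈ X, y * x * y⁻¹ = n * x * n⁻¹}

/-- the product of the Brauer quotient of the projective centre -/
def prod0 (p : ℕ) {F Y : Type} [Field F] [Group Y] (X : Subgroup Y) (f g : Y → F) : Y → F :=
  fun x => if x ∈ E0 p X then conv f g x else 0

/-- the dimension of the span of the products -/
def dzd (p : ℕ) (F : Type) {Y : Type} [Field F] [Group Y] (X : Subgroup Y) : ℕ :=
  Module.finrank F ↥(Submodule.span F {h : Y → F | ∃ f ∈ VS (F := F) (E0 p X) ⊤,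
    ∃ g ∈ VS (F := F) (E0 p X) ⊤, h = prod0 p X f g})

/-- RED: reduction maps exist -/
def S_RED : Prop := ∀ (p : ℕ) [Fact p.Prime],
  Nonempty (integralClosure ℤ ℂ →+* AlgebraicClosure (ZMod p))

/-- DGN1 -/
def S_DGN1 : Prop := ∀ (p : ℕ) [Fact p.Prime] (F : Type) [Field F] [CharP F p]
  (_ : integralClosure ℤ ℂ →+* F) (Y : Type) [Group Y] [Finite Y] (X : Subgroup Y) [X.Normal],
    IsPGroup p (Y ⧸ X) → numInvDz p X = dzd p F X

/-- DGN2 -/
def S_DGN2 : Prop := ∀ (p : ℕ) [Fact p.Prime] (F : Type) [Field F] [CharP F p]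
  (Y : Type) [Group Y] [Finite Y] (X : Subgroup Y) [X.Normal], IsPGroup p (Y ⧸ X) →
    Nat.card Y * dzd p F X = ∑ᶠ R : Subgroup Y,
      if IsPGroup p R ∧ X ⊔ R = ⊤ ∧ X ⊓ R = ⊥ then
        Nat.card (Subgroup.normalizer (R : Set Y)) *
          dzd p F (⊤ : Subgroup ↥(X ⊓ Subgroup.centralizer (R : Set Y))) else 0

/-- DGN: the count of Dade, Glauberman and Nagao -/
def S_DGN : Prop := ∀ (p : ℕ) [Fact p.Prime] (Y : Type) [Group Y] [Finite Y] (X : Subgroup Y)
  [X.Normal], IsPGroup p (Y ⧸ X) →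
    Nat.card Y * numInvDz p X = ∑ᶠ R : Subgroup Y,
      if IsPGroup p R ∧ X ⊔ R = ⊤ ∧ X ⊓ R = ⊥ then
        Nat.card (Subgroup.normalizer (R : Set Y)) * locz p R else 0

/-- CLIF: defect zero characters over a normal subgroup of index `p` -/
def S_CLIF : Prop := ∀ (p : ℕ) [Fact p.Prime] (Y : Type) [Group Y] [Finite Y] (X : Subgroup Y)
  [X.Normal], Nat.card (Y ⧸ X) = p →
    p * numDefectZero p Y + numInvDz p X = numDefectZero p X

/-- the weighted number of weights of `Γ` whose `p`-subgroup covers `Γ/G` -/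
def covW (p : ℕ) {Γ : Type} [Group Γ] (G : Subgroup Γ) : ℕ :=
  ∑ᶠ Q : Subgroup Γ, if IsPGroup p Q ∧ G ⊔ Q = ⊤ then
    Nat.card (Subgroup.normalizer (Q : Set Γ)) * locz p Q else 0

/-- the number of `Γ`-invariant classes of `p`-regular elements of `G` -/
def invReg (p : ℕ) {Γ : Type} [Group Γ] (G : Subgroup Γ) : ℕ :=
  Nat.card {C : ConjClasses Γ // ∃ x ∈ S0 p G ⊤, ConjClasses.mk x = C}

/-- PEW: weights and normal subgroups of index `p` -/
def S_PEW : Prop := ∀ (p : ℕ) [Fact p.Prime] (Γ : Type) [Group Γ] [Finite Γ] (G : Subgroup Γ)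
  [G.Normal], Nat.card (Γ ⧸ G) = p →
    p * (Nat.card Γ * numWeights p Γ) = Nat.card Γ * numWeights p G + (p - 1) * covW p G

/-- PEL: `p`-regular classes and normal subgroups of index `p` -/
def S_PEL : Prop := ∀ (p : ℕ) [Fact p.Prime] (Γ : Type) [Group Γ] [Finite Γ] (G : Subgroup Γ)
  [G.Normal], Nat.card (Γ ⧸ G) = p →
    p * numRegularClasses p Γ = numRegularClasses p G + (p - 1) * invReg p G

/-- LREG: invariant irreducible traces and invariant `p`-regular classes -/
def S_LREG : Prop := ∀ (p : ℕ) [Fact p.Prime] (F : Type) [Field F] [IsAlgClosed F] [CharP F p]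
  (Γ : Type) [Group Γ] [Finite Γ] (G : Subgroup Γ) [G.Normal], IsPGroup p (Γ ⧸ G) →
    Lnum (F := F) G ⊤ (Pi.single 1 1) 1 = invReg p G

/-- WCOV: the weighted sum of weights for the unit element -/
def S_WCOV : Prop := ∀ (p : ℕ) [Fact p.Prime] (F : Type) [Field F] [CharP F p]
  (red : integralClosure ℤ ℂ →+* F) (Γ : Type) [Group Γ] [Finite Γ] (G : Subgroup Γ),
    Wsum p red G ⊤ (Pi.single 1 1) 1 = (covW p G : ℤ)

end Pool.Agent.Y63.NV
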