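import Pool.Agent.Y63.NV.Defs

/-!
# Navarro's conjecture for `p`-group extensions: statements of the parts
-/

open scoped Classical

noncomputable section

namespace Pool.Agent.Y63.NV

open Pool.Agent.Y63.AWC (IsIrreducibleCharacter pSubgroupSetoid)

/-- `N` is normal in `H` with `H/N` a `p`-group and `z` is an `H`-class function supported on
`N`. -/
structure Ext (p : ℕ) {Γ F : Type} [Group Γ] [Field F] (N H : Subgroup Γ) (z : Γ → F) : Prop where
  le : N ≤ H
  norm : ∀ h ∈ H, ∀ n ∈ N, h * n * h⁻¹ ∈ N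
  pq : ∀ h ∈ H, ∃ k : ℕ, h ^ p ^ k ∈ N
  inv : ∀ h ∈ H, ∀ x : Γ, z (h * x * h⁻¹) = z x
  supp : ∀ x : Γ, x ∉ N → z x = 0

/-- IRR: the irreducible trace functions are finite in number and linearly independent -/
def S_IRR : Prop := ∀ (F : Type) [Field F] [IsAlgClosed F] (N : Type) [Group N] [Finite N],
  {φ : N → F | IsIrrTrace φ}.Finite ∧
    LinearIndependent F (fun φ : {φ : N → F // IsIrrTrace φ} => φ.1)

/-- PPT: traces in characteristic `p` only depend on the `p'`-part -/
def S_PPT : Prop := ∀ (p : ℕ) [Fact p.Prime] (F : Type) [Field F] [IsAlgClosed F] [CharP F p]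
  (N : Type) [Group N] [Finite N] (φ : N → F), IsIrrTrace φ → ∀ x : N, φ (pp p x) = φ x

/-- SPAN: (Brauer) the irreducible trace functions span the class functions on the `p`-regular
elements -/
def S_SPAN : Prop := ∀ (p : ℕ) [Fact p.Prime] (F : Type) [Field F] [IsAlgClosed F] [CharP F p]
  (N : Type) [Group N] [Finite N] (f : N → F), IsClassFun f → (∀ x : N, f (pp p x) = f x) →
    f ∈ Submodule.span F {φ : N → F | IsIrrTrace φ}

/-- NIL: class functions on the `p`-regular elements vanish at nilpotent elements of `F[N]` -/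
def S_NIL : Prop := ∀ (p : ℕ) [Fact p.Prime] (F : Type) [Field F] [IsAlgClosed F] [CharP F p]
  (N : Type) [Group N] [Finite N] (f : N → F), IsClassFun f → (∀ x : N, f (pp p x) = f x) →
    ∀ a : N → F, IsNilpotent (∑ᶠ g : N, MonoidAlgebra.single g (a g)) → ∑ᶠ g : N, a g * f g = 0

/-- WED: class functions which vanish at nilpotent elements are combinations of irreducible
traces -/
def S_WED : Prop := ∀ (F : Type) [Field F] [IsAlgClosed F] (N : Type) [Group N] [Finite N]
  (f : N → F), IsClassFun f →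
    (∀ a : N → F, IsNilpotent (∑ᶠ g : N, MonoidAlgebra.single g (a g)) →
      ∑ᶠ g : N, a g * f g = 0) →
    f ∈ Submodule.span F {φ : N → F | IsIrrTrace φ}

/-- SCHUR: a class function acts on an irreducible module as a scalar -/
def S_SCHUR : Prop := ∀ (F : Type) [Field F] [IsAlgClosed F] (N : Type) [Group N] [Finite N]
  (φ : N → F), IsIrrTrace φ → (∃ x, φ x ≠ 0) ∧ ∃ B : (N → F) → F, IsBlock B ∧
    ∀ f : N → F, IsClassFun f → ∀ x : N, ∑ᶠ g : N, f g * φ (g * x) = B f * φ x

/-- BRQ: the two bases of the Brauer quotient -/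
def S_BRQ : Prop := ∀ (p : ℕ) [Fact p.Prime] (F : Type) [Field F] [IsAlgClosed F] [CharP F p]
  (Γ : Type) [Group Γ] [Finite Γ] (N H : Subgroup Γ) (z : Γ → F), Ext p N H z → ∀ c : F,
    Lnum N H z c = gm p z (S0 p N H) H c

/-- LA: additivity of the multiplicity of an eigenvalue -/
def S_LA : Prop := ∀ (F : Type) [Field F] [IsAlgClosed F] (E : Type) [AddCommGroup E] [Module F E]
  [FiniteDimensional F E] (T T₂ π : Module.End F E) (V V₁ V₂ : Submodule F E),
    (∀ v ∈ V, T v ∈ V) → (∀ v ∈ V₂, T₂ v ∈ V₂) → V₁ ≤ V → (∀ v ∈ V, π v ∈ V₂) →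
    (∀ w ∈ V₂, ∃ v ∈ V, π v = w) → (∀ v ∈ V, π v = 0 ↔ v ∈ V₁) →
    (∀ v ∈ V, π (T v) = T₂ (π v)) → ∀ c : F,
    Module.finrank F ↥(V ⊓ T.maxGenEigenspace c) =
      Module.finrank F ↥(V₁ ⊓ T.maxGenEigenspace c) +
        Module.finrank F ↥(V₂ ⊓ T₂.maxGenEigenspace c)

/-- FILT: the filtration by the Sylow `p`-subgroups of the centralisers -/
def S_FILT : Prop := ∀ (p : ℕ) [Fact p.Prime] (F : Type) [Field F] [IsAlgClosed F] [CharP F p]
  (Γ : Type) [Group Γ] [Finite Γ] (N H : Subgroup Γ) (z : Γ → F), Ext p N H z → ∀ c : F,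
    Nat.card H * gm p z (S0 p N H) H c =
      ∑ᶠ R : Subgroup Γ, if IsPGroup p R ∧ R ≤ H ∧ H ≤ N ⊔ R then
        Nat.card ↥(H ⊓ Subgroup.normalizer (R : Set Γ)) *
          gm p (cut z (Subgroup.centralizer (R : Set Γ)))
            (SR p N (H ⊓ Subgroup.normalizer (R : Set Γ)) R)
            (H ⊓ Subgroup.normalizer (R : Set Γ)) c else 0

/-- the elements of `N` which are `H`-conjugate to elements of `SR p N (N_H(R)) R` -/
def SC (p : ℕ) {Γ : Type} [Group Γ] (N H R : Subgroup Γ) : Set Γ :=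
  {x | ∃ h ∈ H, h * x * h⁻¹ ∈ SR p N (H ⊓ Subgroup.normalizer (R : Set Γ)) R}

/-- FILTA: one step of the filtration -/
def S_FILTA : Prop := ∀ (p : ℕ) [Fact p.Prime] (F : Type) [Field F] [IsAlgClosed F] [CharP F p]
  (Γ : Type) [Group Γ] [Finite Γ] (N H : Subgroup Γ) (z : Γ → F), Ext p N H z → ∀ c : F,
    ∀ R : Subgroup Γ, IsPGroup p R → R ≤ H → H ≤ N ⊔ R →
      gm p z (SC p N H R) H c = gm p (cut z (Subgroup.centralizer (R : Set Γ)))
            (SR p N (H ⊓ Subgroup.normalizer (R : Set Γ)) R)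
            (H ⊓ Subgroup.normalizer (R : Set Γ)) c

/-- CVH: the reduction of the central character of an irreducible character is a block -/
def S_CVH : Prop := ∀ (F : Type) [Field F] (red : integralClosure ℤ ℂ →+* F) (J : Type) [Group J]
  [Finite J] (χ : J → ℂ), IsIrreducibleCharacter χ → IsBlock (centralValue red χ)

/-- INF: central characters of inflated characters -/
def S_INF : Prop := ∀ (F : Type) [Field F] (red : integralClosure ℤ ℂ →+* F) (J K : Type) [Group J]
  [Group K] [Finite J] [Finite K] (π : J →* K) (χ : K → ℂ) (f : J → F), Function.Surjective π →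
    IsIrreducibleCharacter χ → IsClassFun f →
    centralValue red (fun x => χ (π x)) f =
      centralValue red χ (fun y => ∑ᶠ x : J, if π x = y then f x else 0)

/-- CUTW: the central character of an inflated character only depends on the values on the
centraliser of `Q` -/
def S_CUTW : Prop := ∀ (p : ℕ) [Fact p.Prime] (F : Type) [Field F] [CharP F p]
  (red : integralClosure ℤ ℂ →+* F) (J : Type) [Group J] [Finite J] (Q : Subgroup J) (f : J → F)
  (χ : J → ℂ), Q.Normal → IsPGroup p Q → IsClassFun f → IsWt p Q χ →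
    centralValue red χ (cut f (Subgroup.centralizer (Q : Set J))) = centralValue red χ f

/-- WTN: there are no defect zero characters if there is a nontrivial normal `p`-subgroup -/
def S_WTN : Prop := ∀ (p : ℕ) [Fact p.Prime] (J : Type) [Group J] [Finite J] (Q Q' : Subgroup J)
  (χ : J → ℂ), Q.Normal → Q'.Normal → IsPGroup p Q' → Q < Q' → ¬ IsWt p Q χ

/-- NWC: invariance under isomorphisms -/
def S_NWC : Prop := ∀ (p : ℕ) (F : Type) [Field F] (red : integralClosure ℤ ℂ →+* F)
  (J J' : Type) [Group J] [Group J'] [Finite J] [Finite J'] (e : J ≃* J') (Q : Subgroup J)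
  (f : J' → F) (c : F), Nw p red Q (fun x => f (e x)) c = Nw p red (Q.map e.toMonoidHom) f c

/-- LQ: characters and quotients by normal `p`-subgroups -/
def S_LQ : Prop := ∀ (p : ℕ) [Fact p.Prime] (F : Type) [Field F] [IsAlgClosed F] [CharP F p]
  (Γ : Type) [Group Γ] [Finite Γ] (G M : Subgroup Γ) [G.Normal] [M.Normal] (z : Γ → F),
    IsPGroup p M → InZ G z → ∀ c : F,
    InZ (G.map (QuotientGroup.mk' M)) (push M z) ∧
    Lsum G ⊤ z c = Nat.card M * Lsum (G.map (QuotientGroup.mk' M)) ⊤ (push M z) c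

/-- NQ: weights and quotients by normal `p`-subgroups -/
def S_NQ : Prop := ∀ (p : ℕ) [Fact p.Prime] (F : Type) [Field F] [CharP F p]
  (red : integralClosure ℤ ℂ →+* F)
  (Γ : Type) [Group Γ] [Finite Γ] (G M : Subgroup Γ) [G.Normal] [M.Normal] (z : Γ → F),
    IsPGroup p M → InZ G z → ∀ c : F,
    Wsum p red G ⊤ z c =
      Nat.card M * Wsum p red (G.map (QuotientGroup.mk' M)) ⊤ (push M z) c

/-- TRL: characters and subgroups -/
def S_TRL : Prop := ∀ (F : Type) [Field F] (Γ : Type) [Group Γ] [Finite Γ] (G H : Subgroup Γ)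
  [G.Normal] (z : Γ → F) (c : F), G ⊔ H = ⊤ →
    Lsum G H z c = Lsum (G.subgroupOf H) ⊤ (fun x => z x) c

/-- TRN: weights and subgroups -/
def S_TRN : Prop := ∀ (p : ℕ) (F : Type) [Field F]
  (red : integralClosure ℤ ℂ →+* F) (Γ : Type) [Group Γ] [Finite Γ] (G H : Subgroup Γ)
  [G.Normal] (z : Γ → F) (c : F), G ⊔ H = ⊤ →
    Wsum p red G H z c = Wsum p red (G.subgroupOf H) ⊤ (fun x => z x) c

/-- WBLK: the block of a weight: Brauer's induced block is an algebra homomorphism -/
def S_WBLK : Prop := ∀ (p : ℕ) [Fact p.Prime] (F : Type) [Field F] [IsAlgClosed F] [CharP F p]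
  (red : integralClosure ℤ ℂ →+* F)
  (G : Type) [Group G] [Finite G] (Q : Subgroup G)
  (χ : Subgroup.normalizer (Q : Set G) → ℂ), IsPGroup p Q →
    IsWt p (Q.subgroupOf (Subgroup.normalizer (Q : Set G))) χ →
    IsBlock (fun f : G → F => centralValue red χ (fun x => f x))

/-- BASE: from the blockwise statement to the single element statement -/
def S_BASE : Prop := ∀ (p : ℕ) [Fact p.Prime] (F : Type) [Field F] [IsAlgClosed F] [CharP F p]
  (red : integralClosure ℤ ℂ →+* F) (G : Type) [Group G] [Finite G],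
    Navarro p red (⊤ : Subgroup G) → ∀ (z : G → F), IsClassFun z → ∀ c : F,
    Lsum (⊤ : Subgroup G) ⊤ z c = Wsum p red ⊤ ⊤ z c

/-- RINJ: an invariant block is determined by its values at the invariant elements -/
def S_RINJ : Prop := ∀ (p : ℕ) [Fact p.Prime] (F : Type) [Field F] [IsAlgClosed F] [CharP F p]
  (Γ : Type) [Group Γ] [Finite Γ] (G : Subgroup Γ) [G.Normal], IsPGroup p (Γ ⧸ G) →
    ∀ B B' : (G → F) → F, IsBlock B → IsBlock B' → IsInvBlock G B → IsInvBlock G B' →
    (∀ z : Γ → F, InZ G z → B (fun x => z x) = B' (fun x => z x)) →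
    ∀ f : G → F, IsClassFun f → B f = B' f

/-- FIN: from the single element statements to the blockwise statement -/
def S_FIN : Prop := ∀ (p : ℕ) [Fact p.Prime] (F : Type) [Field F] [IsAlgClosed F] [CharP F p]
  (red : integralClosure ℤ ℂ →+* F) (Γ : Type) [Group Γ] [Finite Γ] (G : Subgroup Γ) [G.Normal],
    IsPGroup p (Γ ⧸ G) →
    (∀ (z : Γ → F), InZ G z → ∀ c : F, Lsum G ⊤ z c = Wsum p red G ⊤ z c) → Navarro p red G

/-- TOG: cancellation over chains -/
def S_TOG : Prop := ∀ (p : ℕ) [Fact p.Prime] (F : Type) [Field F] (Γ : Type) [Group Γ] [Finite Γ]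
  (G : Subgroup Γ) (z : Γ → F) (w : Subgroup Γ → Subgroup Γ → (Γ → F) → ℤ), G ≠ ⊤ →
    ∑ᶠ σ : {σ : Set (Subgroup Γ) // KR.IsPChain p σ}, (-1) ^ σ.1.ncard *
      ∑ᶠ R : Subgroup Γ, (if IsPGroup p R ∧ R ≤ KR.chainStabilizer σ.1 ∧ G ⊔ R = ⊤ then
        w R (KR.chainStabilizer σ.1 ⊓ Subgroup.normalizer (R : Set Γ))
          (cut (cut z (chainCent σ.1)) (Subgroup.centralizer (R : Set Γ))) else 0) = 0

end Pool.Agent.Y63.NV
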