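import Pool.Agent.Y63.NV.Infl

/-!
# The central character of an inflated character lives on the centraliser
-/

open scoped Classical BigOperators

set_option linter.unusedSectionVars false

noncomputable section

namespace Pool.Agent.Y63.NV

/-- a `p`-subgroup acting by conjugation: only the centraliser contributes -/
theorem sum_cut {p : ℕ} [Fact p.Prime] {F : Type} [Field F] [CharP F p] {Γ : Type} [Group Γ]
    [Fintype Γ] (R : Subgroup Γ) (hR : IsPGroup p R) (f : Γ → F)
    (hf : ∀ r ∈ R, ∀ x, f (r * x * r⁻¹) = f x) :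
    ∑ x, f x = ∑ x, if x ∈ Subgroup.centralizer (R : Set Γ) then f x else 0 := by
  let _ : MulAction R Γ :=
    { smul := fun r x => r * x * (r : Γ)⁻¹
      one_smul := fun x => by
        change ((1 : R) : Γ) * x * ((1 : R) : Γ)⁻¹ = x
        simp
      mul_smul := fun r s x => by
        change ((r * s : R) : Γ) * x * ((r * s : R) : Γ)⁻¹ =
          (r : Γ) * ((s : Γ) * x * (s : Γ)⁻¹) * (r : Γ)⁻¹
        rw [Subgroup.coe_mul]
        group }
  rw [sum_fixed hR f (fun r x => hf r r.2 x), Finset.sum_filter]
  refine Finset.sum_congr rfl fun x _ => ?_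
  have : (∀ r : R, r • x = x) ↔ x ∈ Subgroup.centralizer (R : Set Γ) := by
    rw [Subgroup.mem_centralizer_iff]
    constructor
    · intro h r hr
      have h1 : r * x * r⁻¹ = x := h ⟨r, hr⟩
      calc r * x = r * x * r⁻¹ * r := by group
        _ = x * r := by rw [h1]
    · intro h r
      change (r : Γ) * x * (r : Γ)⁻¹ = x
      rw [h r r.2]
      group
  by_cases h : x ∈ Subgroup.centralizer (R : Set Γ)
  · rw [if_pos h, if_pos (this.mpr h)]
  · rw [if_neg h, if_neg (fun h' => h (this.mp h'))]

theorem cutw (h : S_INF) : S_CUTW := by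
  intro p _ F _ _ red J _ _ Q f χ hQ hpQ hf hw
  obtain ⟨χ', h1, h2⟩ := deflate Q hw.irr hw.inflated
  have hχ : χ = fun x => χ' (QuotientGroup.mk' Q x) := funext h2
  have hcf : IsClassFun (cut f (Subgroup.centralizer (Q : Set J))) := by
    intro g x
    unfold cut
    have hn : (Subgroup.centralizer (Q : Set J)).Normal := inferInstance
    have : g * x * g⁻¹ ∈ Subgroup.centralizer (Q : Set J) ↔
        x ∈ Subgroup.centralizer (Q : Set J) := by
      constructor
      · intro h
        have := hn.conj_mem _ h g⁻¹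
        have e : g⁻¹ * (g * x * g⁻¹) * g⁻¹⁻¹ = x := by group
        rwa [e] at this
      · intro h
        exact hn.conj_mem _ h g
    by_cases hx : x ∈ Subgroup.centralizer (Q : Set J)
    · rw [if_pos hx, if_pos (this.mpr hx), hf]
    · rw [if_neg hx, if_neg (fun h' => hx (this.mp h'))]
  rw [hχ, h F red J (J ⧸ Q) (QuotientGroup.mk' Q) χ' f (QuotientGroup.mk'_surjective Q) h1 hf,
    h F red J (J ⧸ Q) (QuotientGroup.mk' Q) χ' _ (QuotientGroup.mk'_surjective Q) h1 hcf]
  congr 1
  funext y
  have : Fintype J := Fintype.ofFinite J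
  have key := sum_cut (p := p) (F := F) Q hpQ (fun x => if QuotientGroup.mk' Q x = y then f x else 0)
    (by
      intro q hq x
      have hq1 : QuotientGroup.mk' Q q = 1 := (QuotientGroup.eq_one_iff q).mpr hq
      have e : QuotientGroup.mk' Q (q * x * q⁻¹) = QuotientGroup.mk' Q x := by
        rw [map_mul, map_mul, map_inv, hq1]
        group
      simp only [e, hf q x])
  rw [finsum_eq_sum_of_fintype, finsum_eq_sum_of_fintype]
  refine Eq.trans ?_ (key.symm.trans ?_)
  · refine Finset.sum_congr rfl fun x _ => ?_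
    unfold cut
    split_ifs <;> rfl
  · refine Finset.sum_congr rfl fun x _ => ?_
    split_ifs <;> rfl

end Pool.Agent.Y63.NV
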