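import Pool.Agent.Y63.NV.Stm
import Pool.Agent.Y63.KR.Limit

/-!
# Inflated characters; orbits of `p`-groups
-/

open scoped Classical BigOperators

set_option linter.unusedSectionVars false

noncomputable section

namespace Pool.Agent.Y63.NV

open Pool.Agent.Y63.AWC (IsIrreducibleCharacter numDefectZero)

section orbit

/-- sums of invariant functions over a set with an action of a `p`-group -/
theorem sum_fixed {p : ℕ} [Fact p.Prime] {F : Type} [Field F] [CharP F p] {P α : Type} [Group P]
    [Finite P] (hP : IsPGroup p P) [Fintype α] [MulAction P α] (f : α → F)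
    (hf : ∀ (g : P) (a : α), f (g • a) = f a) :
    ∑ a, f a = ∑ a ∈ Finset.univ.filter (fun a => ∀ g : P, g • a = a), f a := by
  have key : ∀ v : F, ((Finset.univ.filter (fun a => f a = v)).card : F) =
      ((Finset.univ.filter (fun a => (∀ g : P, g • a = a) ∧ f a = v)).card : F) := by
    intro v
    let A : Type := {a : α // f a = v}
    let _ : MulAction P A :=
      { smul := fun g a => ⟨g • a.1, (hf g a.1).trans a.2⟩
        one_smul := fun a => Subtype.ext (one_smul P a.1)
        mul_smul := fun g h a => Subtype.ext (mul_smul g h a.1) }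
    have h := hP.card_modEq_card_fixedPoints A
    have h1 : Nat.card A = (Finset.univ.filter (fun a => f a = v)).card := by
      rw [Nat.card_eq_fintype_card, Fintype.card_subtype]
    have h2 : Nat.card (MulAction.fixedPoints P A) =
        (Finset.univ.filter (fun a => (∀ g : P, g • a = a) ∧ f a = v)).card := by
      rw [← Fintype.card_subtype, ← Nat.card_eq_fintype_card]
      refine Nat.card_congr
        { toFun := fun a => ⟨a.1.1, fun g => congrArg Subtype.val (a.2 g), a.1.2⟩
          invFun := fun a => ⟨⟨a.1, a.2.2⟩, fun g => Subtype.ext (a.2.1 g)⟩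
          left_inv := fun a => rfl
          right_inv := fun a => rfl }
    rw [← h1, ← h2]
    exact (CharP.natCast_eq_natCast F p).mpr h
  have e1 : ∑ a, f a = ∑ v ∈ Finset.univ.image f, ((Finset.univ.filter (fun a => f a = v)).card : F) * v := by
    rw [← Finset.sum_fiberwise_of_maps_to (g := f) (t := Finset.univ.image f)
      (fun a _ => Finset.mem_image_of_mem f (Finset.mem_univ a))]
    refine Finset.sum_congr rfl fun v _ => ?_
    rw [Finset.sum_congr rfl (fun a ha => (Finset.mem_filter.mp ha).2), Finset.sum_const,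
      nsmul_eq_mul]
  have e2 : ∑ a ∈ Finset.univ.filter (fun a => ∀ g : P, g • a = a), f a =
      ∑ v ∈ Finset.univ.image f,
        ((Finset.univ.filter (fun a => (∀ g : P, g • a = a) ∧ f a = v)).card : F) * v := by
    rw [← Finset.sum_fiberwise_of_maps_to (g := f) (t := Finset.univ.image f)
      (fun a _ => Finset.mem_image_of_mem f (Finset.mem_univ a))]
    refine Finset.sum_congr rfl fun v _ => ?_
    rw [Finset.sum_congr rfl (fun a ha => (Finset.mem_filter.mp ha).2), Finset.sum_const,
      nsmul_eq_mul, Finset.filter_filter]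
  rw [e1, e2]
  exact Finset.sum_congr rfl fun v _ => by rw [key v]

end orbit

section infl

variable {F : Type} [Field F] {J K V : Type} [Group J] [Group K] [AddCommGroup V] [Module F V]

/-- subrepresentations of an inflated representation -/
def subrepIso (π : J →* K) (hπ : Function.Surjective π) (ρ : Representation F K V) :
    Subrepresentation (ρ.comp π : Representation F J V) ≃o Subrepresentation ρ where
  toFun s := ⟨s.toSubmodule, fun k v hv => by
    obtain ⟨j, rfl⟩ := hπ k
    exact s.apply_mem_toSubmodule j hv⟩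
  invFun s := ⟨s.toSubmodule, fun j v hv => s.apply_mem_toSubmodule (π j) hv⟩
  left_inv s := rfl
  right_inv s := rfl
  map_rel_iff' := Iff.rfl

theorem irreducible_comp (π : J →* K) (hπ : Function.Surjective π) (ρ : Representation F K V) :
    Representation.IsIrreducible (ρ.comp π : Representation F J V) ↔ ρ.IsIrreducible :=
  (subrepIso π hπ ρ).isSimpleOrder_iff

/-- a normal subgroup with a nonzero fixed vector acts trivially on an irreducible
representation -/
theorem triv_of_fixed (ρ : Representation F J V) (hρ : ρ.IsIrreducible) (Q : Subgroup J)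
    [hQ : Q.Normal] (h : ∃ v : V, v ≠ 0 ∧ ∀ q ∈ Q, ρ q v = v) : ∀ q ∈ Q, ρ q = 1 := by
  let s : Subrepresentation ρ :=
    { toSubmodule :=
        { carrier := {v | ∀ q ∈ Q, ρ q v = v}
          zero_mem' := fun q _ => map_zero _
          add_mem' := fun {a b} ha hb q hq => by rw [map_add, ha q hq, hb q hq]
          smul_mem' := fun c a ha q hq => by rw [map_smul, ha q hq] }
      apply_mem_toSubmodule := by
        intro g v hv q hq
        have h1 : g⁻¹ * q * g ∈ Q := by
          have := hQ.conj_mem q hq g⁻¹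
          rwa [inv_inv] at this
        have h2 := hv _ h1
        rw [← Module.End.mul_apply, ← map_mul]
        have h3 : q * g = g * (g⁻¹ * q * g) := by group
        rw [h3, map_mul, Module.End.mul_apply, h2] }
  have hs : s = ⊤ := by
    rcases hρ.eq_bot_or_eq_top s with h1 | h1
    · exfalso
      obtain ⟨v, hv, hv'⟩ := h
      have h2 : v ∈ s := hv'
      rw [h1] at h2
      have h3 : v ∈ (⊥ : Submodule F V) := h2
      exact hv ((Submodule.mem_bot F).mp h3)
    · exact h1
  intro q hq
  refine LinearMap.ext fun v => ?_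
  have h2 : v ∈ s := by rw [hs]; trivial
  rw [h2 q hq]
  rfl

/-- deflation -/
theorem deflate_rep (ρ : Representation F J V) (Q : Subgroup J) [Q.Normal]
    (h : ∀ q ∈ Q, ρ q = 1) : ∃ σ : Representation F (J ⧸ Q) V,
      (σ.comp (QuotientGroup.mk' Q) : Representation F J V) = ρ := by
  refine ⟨QuotientGroup.lift Q ρ (fun q hq => h q hq), ?_⟩
  ext x v
  rfl

end infl

/-- deflation of complex characters -/
theorem deflate {J : Type} [Group J] [Finite J] (Q : Subgroup J) [hQ : Q.Normal] {χ : J → ℂ}
    (h : IsIrreducibleCharacter χ) (hinf : ∀ q ∈ Q, ∀ x : J, χ (q * x) = χ x) :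
    ∃ χ' : J ⧸ Q → ℂ, IsIrreducibleCharacter χ' ∧ ∀ x : J, χ x = χ' (x : J ⧸ Q) := by
  obtain ⟨V, _, _, _, ρ, hρ, rfl⟩ := h
  have hV : Nontrivial V := AWC.irr_nontrivial ρ hρ
  have : Fintype Q := Fintype.ofFinite Q
  have htr : ∀ q ∈ Q, ρ q = 1 := by
    refine triv_of_fixed ρ hρ Q ?_
    set e : Module.End ℂ V := ∑ q : Q, ρ q with he
    have hne : e ≠ 0 := by
      intro h0
      have h1 : LinearMap.trace ℂ V e = (Fintype.card Q : ℂ) * ρ.character 1 := by
        rw [he, map_sum]
        have : ∀ q : Q, LinearMap.trace ℂ V (ρ q) = ρ.character 1 := by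
          intro q
          have := hinf q q.2 1
          rw [mul_one] at this
          exact this
        rw [Finset.sum_congr rfl fun q _ => this q, Finset.sum_const, Finset.card_univ,
          nsmul_eq_mul]
      rw [h0, map_zero, ρ.char_one] at h1
      have h2 : (Fintype.card Q : ℂ) * (Module.finrank ℂ V : ℂ) ≠ 0 := by
        refine mul_ne_zero ?_ ?_
        · exact_mod_cast Fintype.card_ne_zero
        · exact_mod_cast Module.finrank_pos.ne'
      exact h2 h1.symm
    obtain ⟨w, hw⟩ : ∃ w, e w ≠ 0 := by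
      by_contra hcon
      push Not at hcon
      exact hne (LinearMap.ext hcon)
    refine ⟨e w, hw, fun q hq => ?_⟩
    rw [he, LinearMap.sum_apply, map_sum]
    refine Fintype.sum_equiv (Equiv.mulLeft (⟨q, hq⟩ : Q)) _ _ fun r => ?_
    rw [Equiv.coe_mulLeft, Subgroup.coe_mul, map_mul, Module.End.mul_apply]
  obtain ⟨σ, hσ⟩ := deflate_rep ρ Q htr
  refine ⟨σ.character, ⟨V, _, _, ‹_›, σ, ?_, rfl⟩, fun x => ?_⟩
  · rw [← irreducible_comp (QuotientGroup.mk' Q) (QuotientGroup.mk'_surjective Q) σ, hσ]
    exact hρ
  · rw [← hσ]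
    rfl

theorem wtn : S_WTN := by
  intro p _ J _ _ Q Q' χ hQ hQ' hpQ' hlt hw
  obtain ⟨χ', h1, h2⟩ := deflate Q hw.irr hw.inflated
  obtain ⟨n, hn1, hn2⟩ := hw.defectZero
  have hcard := Subgroup.card_eq_card_quotient_mul_card_subgroup Q
  have h0 : 0 < Nat.card (J ⧸ Q) := Nat.card_pos
  have h0' : 0 < Nat.card Q := Nat.card_pos
  have h3 : n.factorization p = (Nat.card (J ⧸ Q)).factorization p := by
    rw [hcard, Nat.factorization_mul h0.ne' h0'.ne', Finsupp.add_apply] at hn2
    omega
  have h4 : numDefectZero p (J ⧸ Q) = 0 := by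
    have : Fintype (J ⧸ Q) := Fintype.ofFinite _
    refine KR.defectZero_normal (P := Q'.map (QuotientGroup.mk' Q)) (hpQ'.map _)
      (Subgroup.Normal.map hQ' _ (QuotientGroup.mk'_surjective Q)) ?_
    intro hbot
    have h5 : Q' ≤ (QuotientGroup.mk' Q).ker := (Subgroup.map_eq_bot_iff _).mp hbot
    rw [QuotientGroup.ker_mk'] at h5
    exact absurd h5 (not_le_of_gt hlt)
  unfold numDefectZero at h4
  have hfin : Finite {χ : J ⧸ Q → ℂ // IsIrreducibleCharacter χ ∧
      ∃ n : ℕ, χ 1 = (n : ℂ) ∧ n.factorization p = (Nat.card (J ⧸ Q)).factorization p} := by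
    have : Fintype (J ⧸ Q) := Fintype.ofFinite _
    exact Set.Finite.subset (Pool.Agent.Helper884.IC.irr_finite (G := J ⧸ Q)) fun χ hχ => hχ.1
  rw [Nat.card_eq_zero] at h4
  rcases h4 with h4 | h4
  · exact h4.elim ⟨χ', h1, n, by rw [← hn1, h2 1]; rfl, h3⟩
  · exact not_finite_iff_infinite.mpr h4 hfin

end Pool.Agent.Y63.NV
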