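import Pool.Agent.Y63.NV.Stm2

/-!
# Blockwise versions of the statements on extensions of index `p`
-/

open scoped Classical

noncomputable section

namespace Pool.Agent.Y63.NV

open Pool.Agent.Y63.AWC (IsIrreducibleCharacter pSubgroupSetoid numDefectZero numWeights
  numRegularClasses)

/-- the number of `Y`-invariant irreducible characters of `X` of `p`-defect zero whose central
character takes the value `c` at `z` -/
def numInvDzL (p : ℕ) {F : Type} [Field F] (red : integralClosure ℤ ℂ →+* F) {Y : Type} [Group Y]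
    (X : Subgroup Y) (z : Y → F) (c : F) : ℕ :=
  Nat.card {χ : X → ℂ // (IsIrreducibleCharacter χ ∧
    (∃ n : ℕ, χ 1 = (n : ℂ) ∧ n.factorization p = (Nat.card X).factorization p) ∧
    ∀ (y : Y) (a b : X), (b : Y) = y * a * y⁻¹ → χ b = χ a) ∧
    centralValue red χ (fun x => z x) = c}

/-- the operator `θ ↦ z * θ` on functions on `E0`, as a function -/
def Cfun (p : ℕ) {F Y : Type} [Field F] [Group Y] (X : Subgroup Y) (z θ : Y → F) : Y → F :=
  fun x => if x ∈ E0 p X then ∑ᶠ y : Y, z y * θ (y⁻¹ * x) else 0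

/-- the operator `θ ↦ z * θ` on functions on `E0` -/
def Cop (p : ℕ) {F Y : Type} [Field F] [Group Y] [Finite Y] (X : Subgroup Y)
    (z : Y → F) : Module.End F (Y → F) where
  toFun := Cfun p X z
  map_add' a b := by
    funext x
    by_cases hx : x ∈ E0 p X
    · simp only [Cfun, hx, if_true, Pi.add_apply, mul_add]
      exact finsum_add_distrib (Set.toFinite _) (Set.toFinite _)
    · simp [Cfun, hx]
  map_smul' c a := by
    funext x
    by_cases hx : x ∈ E0 p X
    · simp only [Cfun, hx, if_true, Pi.smul_apply, smul_eq_mul, RingHom.id_apply]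
      rw [← smul_eq_mul, smul_finsum' c (Set.toFinite _)]
      refine finsum_congr fun g => ?_
      rw [smul_eq_mul]
      ring
    · simp [Cfun, hx]

/-- the multiplicity of the eigenvalue `c` of `θ ↦ z * θ` on the span of the products -/
def dzdL (p : ℕ) {F Y : Type} [Field F] [Group Y] [Finite Y] (X : Subgroup Y) (z : Y → F)
    (c : F) : ℕ :=
  Module.finrank F ↥(Submodule.span F {h : Y → F | ∃ f ∈ VS (F := F) (E0 p X) ⊤,
    ∃ g ∈ VS (F := F) (E0 p X) ⊤, h = prod0 p X f g} ⊓ (Cop p X z).maxGenEigenspace c)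

/-- DGN1L -/
def S_DGN1L : Prop := ∀ (p : ℕ) [Fact p.Prime] (F : Type) [Field F] [CharP F p]
  (red : integralClosure ℤ ℂ →+* F) (Y : Type) [Group Y] [Finite Y] (X : Subgroup Y) [X.Normal]
  (z : Y → F) (c : F), IsPGroup p (Y ⧸ X) → InZ X z →
    numInvDzL p red X z c = dzdL p X z c

/-- DGN2L -/
def S_DGN2L : Prop := ∀ (p : ℕ) [Fact p.Prime] (F : Type) [Field F] [CharP F p]
  (Y : Type) [Group Y] [Finite Y] (X : Subgroup Y) [X.Normal] (z : Y → F) (c : F),
    IsPGroup p (Y ⧸ X) → InZ X z →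
    Nat.card Y * dzdL p X z c = ∑ᶠ R : Subgroup Y,
      if IsPGroup p R ∧ X ⊔ R = ⊤ ∧ X ⊓ R = ⊥ then
        Nat.card (Subgroup.normalizer (R : Set Y)) *
          dzdL p (⊤ : Subgroup ↥(X ⊓ Subgroup.centralizer (R : Set Y))) (fun x => z x) c else 0

/-- DGNL: the count of Dade, Glauberman and Nagao with central characters -/
def S_DGNL : Prop := ∀ (p : ℕ) [Fact p.Prime] (F : Type) [Field F] [CharP F p]
  (red : integralClosure ℤ ℂ →+* F) (Y : Type) [Group Y] [Finite Y] (X : Subgroup Y)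
  [X.Normal] (z : Y → F) (c : F), IsPGroup p (Y ⧸ X) → InZ X z →
    Nat.card Y * numInvDzL p red X z c = ∑ᶠ R : Subgroup Y,
      if IsPGroup p R ∧ X ⊔ R = ⊤ ∧ X ⊓ R = ⊥ then
        Nat.card (Subgroup.normalizer (R : Set Y)) *
          Nw p red (R.subgroupOf (Subgroup.normalizer (R : Set Y))) (fun x => z x) c else 0

/-- CLIFL: defect zero characters over a normal subgroup of index `p` -/
def S_CLIFL : Prop := ∀ (p : ℕ) [Fact p.Prime] (F : Type) [Field F] [CharP F p]
  (red : integralClosure ℤ ℂ →+* F) (Y : Type) [Group Y] [Finite Y] (X : Subgroup Y)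
  [X.Normal] (z : Y → F) (c : F), Nat.card (Y ⧸ X) = p → InZ X z →
    p * Nw p red (⊥ : Subgroup Y) z c + numInvDzL p red X z c =
      Nw p red (⊥ : Subgroup X) (fun x => z x) c

/-- PEWL: weights and normal subgroups of index `p` -/
def S_PEWL : Prop := ∀ (p : ℕ) [Fact p.Prime] (F : Type) [Field F] [CharP F p]
  (red : integralClosure ℤ ℂ →+* F) (Γ : Type) [Group Γ] [Finite Γ] (G : Subgroup Γ)
  [G.Normal] (z : Γ → F) (c : F), Nat.card (Γ ⧸ G) = p → InZ G z →
    (p : ℤ) * Wsum p red (⊤ : Subgroup Γ) ⊤ z c =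
      p * Wsum p red (⊤ : Subgroup G) ⊤ (fun x => z x) c + (p - 1) * Wsum p red G ⊤ z c

/-- PELL: irreducible traces and normal subgroups of index `p` -/
def S_PELL : Prop := ∀ (p : ℕ) [Fact p.Prime] (F : Type) [Field F] [IsAlgClosed F] [CharP F p]
  (Γ : Type) [Group Γ] [Finite Γ] (G : Subgroup Γ)
  [G.Normal] (z : Γ → F) (c : F), Nat.card (Γ ⧸ G) = p → InZ G z →
    (p : ℤ) * Lsum (⊤ : Subgroup Γ) ⊤ z c =
      p * Lsum (⊤ : Subgroup G) ⊤ (fun x => z x) c + (p - 1) * Lsum G ⊤ z c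

/-- FINL: blocks of `Γ` are determined by the elements supported on `G` -/
def S_FINL : Prop := ∀ (p : ℕ) [Fact p.Prime] (F : Type) [Field F] [IsAlgClosed F] [CharP F p]
  (red : integralClosure ℤ ℂ →+* F) (Γ : Type) [Group Γ] [Finite Γ] (G : Subgroup Γ) [G.Normal],
    Nat.card (Γ ⧸ G) = p →
    (∀ (z : Γ → F), InZ G z → ∀ c : F,
      Lsum (⊤ : Subgroup Γ) ⊤ z c = Wsum p red (⊤ : Subgroup Γ) ⊤ z c) →
    Navarro p red (⊤ : Subgroup Γ)

end Pool.Agent.Y63.NV
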