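import Pool.Agent.Y63.NV.PeL

/-!
# The blockwise Alperin weight conjecture
-/

open scoped Classical BigOperators

noncomputable section

namespace Pool.Agent.Y63.NV

open Pool.Agent.Y63.AWC (IsIrreducibleCharacter pSubgroupSetoid numDefectZero numWeights
  numRegularClasses)

section

variable {F : Type} [Field F] {G : Type} [Group G]

/-- `l(B)`: the number of irreducible characters of `G` over `F` in the block `B` -/
def numIrrBlock (B : (G → F) → F) : ℕ :=
  Nat.card {φ : G → F // IsIrrTrace φ ∧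
    ∀ f : G → F, IsClassFun f → ∀ x : G, ∑ᶠ g : G, f g * φ (g * x) = B f * φ x}

/-- The number of irreducible characters of `N_G(Q)/Q` of `p`-defect zero such that the block of `G`
induced by the block of the inflation `χ` is `B`. -/
def numWtBlock (p : ℕ) (red : integralClosure ℤ ℂ →+* F) (Q : Subgroup G) (B : (G → F) → F) : ℕ :=
  Nat.card {χ : Subgroup.normalizer (Q : Set G) → ℂ //
    IsWt p (Q.subgroupOf (Subgroup.normalizer (Q : Set G))) χ ∧
    ∀ f : G → F, IsClassFun f → centralValue red χ (fun x => f x) = B f}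

end

/-- The blockwise Alperin weight conjecture for `G`: for every block `B` of `G`, `l(B)` is the number
of conjugacy classes of weights of `B`; the sum is over representatives of the classes of
`p`-subgroups `Q`. -/
def BAWC (p : ℕ) {F : Type} [Field F] (red : integralClosure ℤ ℂ →+* F) (G : Type) [Group G] :
    Prop :=
  ∀ B : (G → F) → F, IsBlock B →
    numIrrBlock B = ∑ᶠ c : Quotient (pSubgroupSetoid p G), numWtBlock p red c.out.1 B

section

variable {F : Type} [Field F] {G : Type} [Group G]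

/-- a block of `G` as a block of the subgroup `G` -/
def up (B : (G → F) → F) : ((⊤ : Subgroup G) → F) → F := fun f => B (fun x => f ⟨x, trivial⟩)

theorem up_block {B : (G → F) → F} (hB : IsBlock B) : IsBlock (up B) := by
  have hres : ∀ f : (⊤ : Subgroup G) → F, IsClassFun f →
      IsClassFun (fun x : G => f ⟨x, trivial⟩) := fun f hf g x => hf ⟨g, trivial⟩ ⟨x, trivial⟩
  refine ⟨fun f g hf hg => hB.add _ _ (hres f hf) (hres g hg),
    fun a f hf => hB.smul a _ (hres f hf), ?_, fun f g hf hg => ?_⟩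
  · refine Eq.trans (congrArg B ?_) hB.one
    funext x
    unfold Pi.single Function.update
    by_cases hx : x = 1
    · subst hx
      have hx' : (⟨1, trivial⟩ : (⊤ : Subgroup G)) = 1 := rfl
      rw [dif_pos rfl]
      exact dif_pos hx'
    · have hx' : (⟨x, trivial⟩ : (⊤ : Subgroup G)) ≠ 1 := fun h => hx (congrArg Subtype.val h)
      rw [dif_neg hx, dif_neg hx']
      rfl
  · refine Eq.trans (congrArg B ?_) (hB.mul _ _ (hres f hf) (hres g hg))
    funext x
    unfold conv
    rw [← finsum_comp_equiv (Subgroup.topEquiv (G := G)).toEquiv]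
    rfl

theorem up_inv (B : (G → F) → F) : IsInvBlock (⊤ : Subgroup G) (up B) := by
  intro g f f' hf h
  refine congrArg B ?_
  funext x
  have h1 := h ⟨g⁻¹ * x * g, trivial⟩ ⟨x, trivial⟩ (by
    change x = g * (g⁻¹ * x * g) * g⁻¹
    group)
  rw [h1]
  have h2 := hf ⟨g⁻¹, trivial⟩ ⟨x, trivial⟩
  rw [← h2]
  refine congrArg f (Subtype.ext ?_)
  change g⁻¹ * x * g = g⁻¹ * x * g⁻¹⁻¹
  rw [inv_inv]

theorem numIBr_eq [Finite G] (B' : ((⊤ : Subgroup G) → F) → F) :
    numIBr (⊤ : Subgroup G) B' =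
      numIrrBlock (fun f : G → F => B' (fun x : (⊤ : Subgroup G) => f x)) := by
  unfold numIBr numIrrBlock
  have key : ∀ φ : (⊤ : Subgroup G) → F, (IsIrrTrace φ ∧ IsInvUnder ⊤ φ ∧
      ∀ f : (⊤ : Subgroup G) → F, IsClassFun f → ∀ x : (⊤ : Subgroup G),
        ∑ᶠ g : (⊤ : Subgroup G), f g * φ (g * x) = B' f * φ x) ↔
      (IsIrrTrace (fun x : G => φ ⟨x, trivial⟩) ∧ ∀ f : G → F, IsClassFun f → ∀ x : G,
        ∑ᶠ g : G, f g * φ ⟨g * x, trivial⟩ =
          B' (fun x : (⊤ : Subgroup G) => f x) * φ ⟨x, trivial⟩) := by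
    intro φ
    constructor
    · rintro ⟨h1, h2, h3⟩
      refine ⟨Pool.Agent.Y210.NV2.irrTrace_comp (Subgroup.topEquiv (G := G)).symm h1,
        fun f hf x => ?_⟩
      have h4 := h3 (fun x : (⊤ : Subgroup G) => f x) (fun g x => hf g x) ⟨x, trivial⟩
      rw [← h4, ← finsum_comp_equiv (Subgroup.topEquiv (G := G)).toEquiv]
      rfl
    · rintro ⟨h1, h3⟩
      have h2 := Pool.Agent.Y210.NV2.irrTrace_comp (Subgroup.topEquiv (G := G)) h1
      have h2' : IsIrrTrace φ := h2
      refine ⟨h2', ?_, fun f hf x => ?_⟩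
      · intro g _ x y hxy
        obtain ⟨V, _, _, _, ρ, _, rfl⟩ := h2'
        have : y = ⟨g, trivial⟩ * x * ⟨g, trivial⟩⁻¹ := Subtype.ext hxy
        rw [this]
        exact ρ.char_conj x ⟨g, trivial⟩
      · have h4 := h3 (fun x : G => f ⟨x, trivial⟩) (fun g x => hf ⟨g, trivial⟩ ⟨x, trivial⟩) x
        rw [← finsum_comp_equiv (Subgroup.topEquiv (G := G)).toEquiv] at h4
        exact h4
  refine Nat.card_congr ?_
  exact
    { toFun := fun φ => ⟨fun x : G => φ.1 ⟨x, trivial⟩, (key φ.1).1 φ.2⟩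
      invFun := fun φ => ⟨fun x : (⊤ : Subgroup G) => φ.1 x, (key _).2 φ.2⟩
      left_inv := fun φ => rfl
      right_inv := fun φ => rfl }

theorem numDz_eq (p : ℕ) (red : integralClosure ℤ ℂ →+* F) (Q : Subgroup G)
    (B' : ((⊤ : Subgroup G) → F) → F) :
    numDz p red (⊤ : Subgroup G) Q B' =
      numWtBlock p red Q (fun f : G → F => B' (fun x : (⊤ : Subgroup G) => f x)) := by
  unfold numDz numWtBlock
  refine Nat.card_congr (Equiv.subtypeEquivRight fun χ => ?_)
  constructor
  · rintro ⟨h1, h2⟩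
    exact ⟨h1, fun f hf => h2 f ⟨hf, fun x hx => absurd (Subgroup.mem_top x) hx⟩⟩
  · rintro ⟨h1, h2⟩
    exact ⟨h1, fun z hz => h2 z hz.conj⟩

theorem bawc_iff [Finite G] (p : ℕ) (red : integralClosure ℤ ℂ →+* F) :
    BAWC p red G ↔ Navarro p red (⊤ : Subgroup G) := by
  have hsum : ∀ B' : ((⊤ : Subgroup G) → F) → F,
      (∑ᶠ c : Quotient (pSubgroupSetoid p G),
        if (⊤ : Subgroup G) ⊔ c.out.1 = ⊤ then numDz p red (⊤ : Subgroup G) c.out.1 B' else 0) =
      ∑ᶠ c : Quotient (pSubgroupSetoid p G),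
        numWtBlock p red c.out.1 (fun f : G → F => B' (fun x : (⊤ : Subgroup G) => f x)) := by
    intro B'
    refine finsum_congr fun c => ?_
    rw [if_pos (top_sup_eq _), numDz_eq]
  constructor
  · intro h B' hB' _
    rw [hsum, numIBr_eq]
    exact h _ (Pool.Agent.Y63.NV.B286.flat_block hB')
  · intro h B hB
    have h1 := h (up B) (up_block hB) (up_inv B)
    rw [hsum, numIBr_eq] at h1
    exact h1

end

/-- **The blockwise conjecture passes to extensions by `p`-groups.** -/
theorem bawc_strong {p : ℕ} [Fact p.Prime] {F : Type} [Field F] [IsAlgClosed F] [CharP F p]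
    (red : integralClosure ℤ ℂ →+* F) (X : ∀ (H : Type) [Group H], Prop) (hX : Closed p X) :
    (∀ (H : Type) [Group H] [Finite H], X H → Reduced p H → BAWC p red H) ↔
    ∀ (Γ : Type) [Group Γ] [Finite Γ] (G : Subgroup Γ) [G.Normal], X G → IsPGroup p (Γ ⧸ G) →
      BAWC p red Γ := by
  constructor
  · intro h Γ _ _ G hG hXG hp
    rw [bawc_iff]
    exact bawc_reduction red X hX (fun L _ _ hL hR => (bawc_iff p red).1 (h L hL hR))
      (Nat.card Γ) Γ le_rfl ⟨G, hG, hXG, hp⟩
  · intro h H _ _ hH _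
    exact h H ⊤ (hX.iso _ _ hH ⟨Subgroup.topEquiv.symm⟩) (pgroup_top p H)

end Pool.Agent.Y63.NV
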