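import Pool.Agent.Y63.NV.Tog

/-!
# The alternating sums over chains vanish for proper extensions
-/

open scoped Classical BigOperators

set_option linter.unusedSectionVars false

noncomputable section

namespace Pool.Agent.Y63.NV

open Pool.Agent.Y63.KR

section

variable {Γ F : Type} [Group Γ] [Finite Γ] [Field F] {G : Subgroup Γ}

/-- Dedekind -/
lemma dedekind [hG : G.Normal] {H R : Subgroup Γ} (hGH : G ⊔ H = ⊤) (hRH : R ≤ H) :
    H ≤ (G ⊓ H) ⊔ R ↔ G ⊔ R = ⊤ := by
  constructor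
  · intro h
    rw [eq_top_iff, ← hGH]
    refine sup_le le_sup_left (h.trans (sup_le ?_ le_sup_right))
    exact inf_le_left.trans le_sup_left
  · intro h x hx
    have hx' : x ∈ (G ⊔ R : Subgroup Γ) := by rw [h]; trivial
    rw [Subgroup.mem_sup_of_normal_left] at hx'
    obtain ⟨g, hg, r, hr, rfl⟩ := hx'
    have hgH : g ∈ H := by
      have := H.mul_mem hx (H.inv_mem (hRH hr))
      rwa [mul_inv_cancel_right] at this
    exact Subgroup.mul_mem_sup ⟨hg, hgH⟩ hr

lemma cut_inv {σ : Set (Subgroup Γ)} {z : Γ → F} (hz : ∀ g x, z (g * x * g⁻¹) = z x) {h : Γ}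
    (hh : h ∈ chainStabilizer σ) (x : Γ) :
    cut z (chainCent σ) (h * x * h⁻¹) = cut z (chainCent σ) x := by
  have key : ∀ h ∈ chainStabilizer σ, ∀ x ∈ chainCent σ, h * x * h⁻¹ ∈ chainCent σ := by
    intro h hh x hx
    rw [mem_chainCent] at hx ⊢
    intro P hP y hy
    have h1 : conjSub h⁻¹ P = P := mem_chainStabilizer.mp (Subgroup.inv_mem _ hh) P hP
    have h2 : h⁻¹ * y * h ∈ P := by
      rw [← h1]
      have := conj_mem_conjSub (g := h⁻¹) hy
      simpa using this
    have h3 := hx P hP h2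
    rw [Subgroup.mem_centralizer_iff] at h3 ⊢
    intro w hw
    rw [Set.mem_singleton_iff.mp hw]
    have h4 := h3 x rfl
    calc h * x * h⁻¹ * y = h * (x * (h⁻¹ * y * h)) * h⁻¹ := by group
      _ = h * ((h⁻¹ * y * h) * x) * h⁻¹ := by rw [h4]
      _ = y * (h * x * h⁻¹) := by group
  unfold cut
  by_cases hx : x ∈ chainCent σ
  · rw [if_pos hx, if_pos (key h hh x hx), hz]
  · rw [if_neg hx, if_neg]
    intro h'
    apply hx
    have := key h⁻¹ (Subgroup.inv_mem _ hh) _ h'
    have e : h⁻¹ * (h * x * h⁻¹) * h⁻¹⁻¹ = x := by group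
    rwa [e] at this

lemma chainCent_le_stab (σ : Set (Subgroup Γ)) : chainCent σ ≤ chainStabilizer σ := by
  intro g hg
  rw [mem_chainCent] at hg
  rw [mem_chainStabilizer]
  intro P hP
  rw [conjSub_eq_iff, Subgroup.mem_normalizer_iff]
  have hc : ∀ y ∈ P, g * y * g⁻¹ = y := by
    intro y hy
    have := hg P hP hy
    rw [Subgroup.mem_centralizer_iff] at this
    rw [this g rfl, mul_inv_cancel_right]
  intro y
  constructor
  · intro hy
    rw [hc y hy]
    exact hy
  · intro hy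
    have h1 := hc _ hy
    have h2 : g * y * g⁻¹ = y := mul_left_cancel (mul_right_cancel h1)
    rwa [h2] at hy

end

variable {p : ℕ} [Fact p.Prime] {F : Type} [Field F] [IsAlgClosed F] [CharP F p]
variable {Γ : Type} [Group Γ] [Finite Γ] {G : Subgroup Γ}

lemma pow_mem_of_pGroup [G.Normal] (hp : IsPGroup p (Γ ⧸ G)) (g : Γ) : ∃ k : ℕ, g ^ p ^ k ∈ G := by
  obtain ⟨k, hk⟩ := hp (g : Γ ⧸ G)
  refine ⟨k, ?_⟩
  rw [← QuotientGroup.mk_pow] at hk
  exact (QuotientGroup.eq_one_iff _).mp hk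

lemma ext_chain [hG : G.Normal] (hp : IsPGroup p (Γ ⧸ G)) {z : Γ → F} (hz : InZ G z)
    (σ : Set (Subgroup Γ)) :
    Ext p (G ⊓ chainStabilizer σ) (chainStabilizer σ) (cut z (chainCent σ)) where
  le := inf_le_right
  norm h hh n hn := ⟨hG.conj_mem n hn.1 h,
    Subgroup.mul_mem _ (Subgroup.mul_mem _ hh hn.2) (Subgroup.inv_mem _ hh)⟩
  pq h hh := by
    obtain ⟨k, hk⟩ := pow_mem_of_pGroup hp h
    exact ⟨k, hk, Subgroup.pow_mem _ hh _⟩
  inv h hh x := cut_inv hz.conj hh x
  supp x hx := by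
    unfold cut
    split_ifs with h
    · apply hz.supp
      intro hxG
      exact hx ⟨hxG, chainCent_le_stab σ h⟩
    · rfl

/-- the weight function of the character side -/
def wL (p : ℕ) (G : Subgroup Γ) (c : F) (R J : Subgroup Γ) (z : Γ → F) : ℤ :=
  (Nat.card J : ℤ) * gm p z (SR p (G ⊓ J) J R) J c

lemma sr_eq {G H R : Subgroup Γ} :
    SR p (G ⊓ H) (H ⊓ Subgroup.normalizer (R : Set Γ)) R =
      SR p (G ⊓ (H ⊓ Subgroup.normalizer (R : Set Γ)))
        (H ⊓ Subgroup.normalizer (R : Set Γ)) R := by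
  ext x
  constructor
  · rintro ⟨⟨h1, h2⟩, h3, h4, h5⟩
    refine ⟨⟨h1, h2, ?_⟩, h3, h4, h5⟩
    change x ∈ Subgroup.normalizer (R : Set Γ)
    rw [← conjSub_eq_iff]
    ext y
    rw [mem_conjSub]
    constructor
    · intro hy
      have h6 := h4 _ hy
      have : y = x⁻¹ * y * x := by
        have h7 : x⁻¹ * y * x * x = y * x := by
          rw [h6]; group
        exact (mul_right_cancel h7).symm
      rw [this]
      exact hy
    · intro hy
      have h6 := h4 _ hy
      have : x⁻¹ * y * x = y := by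
        rw [mul_assoc, h6]; group
      rw [this]
      exact hy
  · rintro ⟨⟨h1, h2, _⟩, h3, h4, h5⟩
    exact ⟨⟨h1, h2⟩, h3, h4, h5⟩

theorem lsum_eq (hB : S_BRQ) (hF : S_FILT) [hG : G.Normal] (hp : IsPGroup p (Γ ⧸ G)) {z : Γ → F}
    (hz : InZ G z) (c : F) (σ : Set (Subgroup Γ)) :
    Lsum G (chainStabilizer σ) (cut z (chainCent σ)) c =
      ∑ᶠ R : Subgroup Γ, (if IsPGroup p R ∧ R ≤ KR.chainStabilizer σ ∧ G ⊔ R = ⊤ then
        wL p G c R (KR.chainStabilizer σ ⊓ Subgroup.normalizer (R : Set Γ))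
          (cut (cut z (chainCent σ)) (Subgroup.centralizer (R : Set Γ))) else 0) := by
  have : Fintype (Subgroup Γ) := Fintype.ofFinite _
  unfold Lsum
  by_cases hGH : G ⊔ chainStabilizer σ = ⊤
  · rw [if_pos hGH]
    have h1 := hB p F Γ _ _ _ (ext_chain hp hz σ) c
    have h2 := hF p F Γ _ _ _ (ext_chain hp hz σ) c
    rw [h1, ← Nat.cast_mul, h2, finsum_eq_sum_of_fintype, finsum_eq_sum_of_fintype, Nat.cast_sum]
    refine Finset.sum_congr rfl fun R _ => ?_
    by_cases hR : IsPGroup p R ∧ R ≤ chainStabilizer σ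
    · have h3 := dedekind hGH hR.2
      by_cases h4 : G ⊔ R = ⊤
      · rw [if_pos ⟨hR.1, hR.2, h3.mpr h4⟩, if_pos ⟨hR.1, hR.2, h4⟩, Nat.cast_mul]
        unfold wL
        rw [sr_eq]
      · rw [if_neg (fun h => h4 (h3.mp h.2.2)), if_neg (fun h => h4 h.2.2), Nat.cast_zero]
    · rw [if_neg (fun h => hR ⟨h.1, h.2.1⟩), if_neg (fun h => hR ⟨h.1, h.2.1⟩), Nat.cast_zero]
  · rw [if_neg hGH, finsum_eq_sum_of_fintype]
    symm
    refine Finset.sum_eq_zero fun R _ => ?_
    rw [if_neg]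
    rintro ⟨_, h2, h3⟩
    apply hGH
    rw [eq_top_iff, ← h3]
    exact sup_le_sup_left h2 G

/-- the weight function of the weight side -/
def wW (p : ℕ) (red : integralClosure ℤ ℂ →+* F) (c : F) (R J : Subgroup Γ) (z : Γ → F) : ℤ :=
  (Nat.card J : ℤ) * Nw p red (R.subgroupOf J) (fun x => z x) c

theorem wsum_eq (hC : S_CUTW) (red : integralClosure ℤ ℂ →+* F) {z : Γ → F}
    (hz : InZ G z) (c : F) (σ : Set (Subgroup Γ)) :
    Wsum p red G (chainStabilizer σ) (cut z (chainCent σ)) c =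
      ∑ᶠ R : Subgroup Γ, (if IsPGroup p R ∧ R ≤ KR.chainStabilizer σ ∧ G ⊔ R = ⊤ then
        wW p red c R (KR.chainStabilizer σ ⊓ Subgroup.normalizer (R : Set Γ))
          (cut (cut z (chainCent σ)) (Subgroup.centralizer (R : Set Γ))) else 0) := by
  unfold Wsum
  refine finsum_congr fun R => ?_
  by_cases hR : IsPGroup p R ∧ R ≤ KR.chainStabilizer σ ∧ G ⊔ R = ⊤
  · rw [if_pos hR, if_pos hR]
    unfold wW
    congr 2
    set J := KR.chainStabilizer σ ⊓ Subgroup.normalizer (R : Set Γ) with hJ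
    have hRJ : R ≤ J := le_inf hR.2.1 Subgroup.le_normalizer
    set f : J → F := fun x => cut z (chainCent σ) x with hf
    have hn : (R.subgroupOf J).Normal := by
      refine ⟨fun n hn g => ?_⟩
      rw [Subgroup.mem_subgroupOf] at hn ⊢
      exact (Subgroup.mem_normalizer_iff.mp g.2.2 n).mp hn
    have hpR : IsPGroup p (R.subgroupOf J) := hR.1.comap_subtype
    have hcf : IsClassFun f := by
      intro g x
      exact cut_inv hz.conj g.2.1 x
    have hcut : (fun x : J => cut (cut z (chainCent σ)) (Subgroup.centralizer (R : Set Γ)) x) =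
        cut f (Subgroup.centralizer ((R.subgroupOf J : Subgroup J) : Set J)) := by
      funext x
      unfold cut
      have : (x : Γ) ∈ Subgroup.centralizer (R : Set Γ) ↔
          x ∈ Subgroup.centralizer ((R.subgroupOf J : Subgroup J) : Set J) := by
        rw [Subgroup.mem_centralizer_iff, Subgroup.mem_centralizer_iff]
        constructor
        · intro h y hy
          apply Subtype.ext
          exact h y (Subgroup.mem_subgroupOf.mp hy)
        · intro h y hy
          exact congrArg Subtype.val (h ⟨y, hRJ hy⟩ (Subgroup.mem_subgroupOf.mpr hy))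
      by_cases h1 : (x : Γ) ∈ Subgroup.centralizer (R : Set Γ)
      · rw [if_pos h1, if_pos (this.mp h1)]
        rfl
      · rw [if_neg h1, if_neg (fun h => h1 (this.mpr h))]
    rw [hcut]
    unfold Nw
    refine Nat.card_congr (Equiv.subtypeEquivRight fun χ => ?_)
    constructor
    · rintro ⟨h1, h2⟩
      refine ⟨h1, ?_⟩
      rw [hC p F red J (R.subgroupOf J) f χ hn hpR hcf h1]
      exact h2
    · rintro ⟨h1, h2⟩
      refine ⟨h1, ?_⟩
      rw [hC p F red J (R.subgroupOf J) f χ hn hpR hcf h1] at h2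
      exact h2
  · rw [if_neg hR, if_neg hR]

end Pool.Agent.Y63.NV
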