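import Pool.Agent.Y63.AWC.Defs
import Pool.Agent.Y63.KR.Defs

/-!
# Navarro's conjecture for `p`-group extensions: definitions
-/

open scoped Classical

noncomputable section

namespace Pool.Agent.Y63.NV

open Pool.Agent.Y63.AWC (IsIrreducibleCharacter pSubgroupSetoid)

section

variable {F : Type} [Field F]

/-- `φ` is the trace function of an irreducible finite-dimensional representation of `G` over
`F`. -/
def IsIrrTrace {G : Type} [Group G] (φ : G → F) : Prop :=
  ∃ (V : Type) (_ : AddCommGroup V) (_ : Module F V) (_ : FiniteDimensional F V)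
    (ρ : Representation F G V), ρ.IsIrreducible ∧ φ = ρ.character

/-- `f` is a class function. The class functions `G → F` are the elements of the centre of the
group algebra `F[G]`. -/
def IsClassFun {G : Type} [Group G] (f : G → F) : Prop := ∀ g x : G, f (g * x * g⁻¹) = f x

/-- The convolution product, that is, the product of the group algebra `F[G]`. -/
def conv {G : Type} [Group G] (f g : G → F) : G → F := fun x => ∑ᶠ y : G, f y * g (y⁻¹ * x)

/-- `B` is (the central character of) a `p`-block of `G`: an `F`-algebra homomorphism from the centre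
of `F[G]` to `F`. (The values of `B` at functions which are not class functions are irrelevant.) -/
structure IsBlock {G : Type} [Group G] (B : (G → F) → F) : Prop where
  add : ∀ f g : G → F, IsClassFun f → IsClassFun g → B (f + g) = B f + B g
  smul : ∀ (a : F) (f : G → F), IsClassFun f → B (a • f) = a * B f
  one : B (Pi.single 1 1) = 1
  mul : ∀ f g : G → F, IsClassFun f → IsClassFun g → B (conv f g) = B f * B g

/-- `z : Γ → F` is a `Γ`-class function which vanishes outside `G`. -/
structure InZ {Γ : Type} [Group Γ] (G : Subgroup Γ) (z : Γ → F) : Prop where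
  conj : ∀ g x : Γ, z (g * x * g⁻¹) = z x
  supp : ∀ x : Γ, x ∉ G → z x = 0

/-- The reduction map, extended by zero to all complex numbers. -/
def redC (red : integralClosure ℤ ℂ →+* F) (a : ℂ) : F :=
  if h : IsIntegral ℤ a then red ⟨a, h⟩ else 0

/-- The value of the reduction of the central character `ω_χ` of `χ` at the central element `f`:
`∑_C f(C) · red (|C| χ(C) / χ(1))`, the sum over the conjugacy classes `C` of `J`. -/
def centralValue (red : integralClosure ℤ ℂ →+* F) {J : Type} [Group J] (χ : J → ℂ)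
    (f : J → F) : F :=
  ∑ᶠ C : ConjClasses J, f C.out * redC red ((Nat.card C.carrier : ℂ) * χ C.out / χ 1)

end

/-- `χ` is the inflation to `J` of an irreducible complex character of `J/Q` of `p`-defect zero
(for `Q` normal in `J`). -/
structure IsWt (p : ℕ) {J : Type} [Group J] (Q : Subgroup J) (χ : J → ℂ) : Prop where
  irr : IsIrreducibleCharacter χ
  inflated : ∀ q ∈ Q, ∀ x : J, χ (q * x) = χ x
  defectZero : ∃ n : ℕ, χ 1 = (n : ℂ) ∧
    n.factorization p + (Nat.card Q).factorization p = (Nat.card J).factorization p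

section

variable {F : Type} [Field F] {Γ : Type} [Group Γ]

/-- `φ : N → F` is invariant under conjugation by the elements of `H`. -/
def IsInvUnder (H : Subgroup Γ) {N : Subgroup Γ} (φ : N → F) : Prop :=
  ∀ h ∈ H, ∀ x y : N, (y : Γ) = h * x * h⁻¹ → φ y = φ x

/-- The number of `Γ`-invariant irreducible characters of `G` over `F` in the block `B` of `G`. -/
def numIBr (G : Subgroup Γ) (B : (G → F) → F) : ℕ :=
  Nat.card {φ : G → F // IsIrrTrace φ ∧ IsInvUnder ⊤ φ ∧
    ∀ f : G → F, IsClassFun f → ∀ x : G, ∑ᶠ g : G, f g * φ (g * x) = B f * φ x}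

/-- The number of `p`-defect zero characters `χ` of `N_Γ(Q)/Q` such that the block of `Γ` induced by
the block of (the inflation of) `χ` covers the block `B` of `G`. -/
def numDz (p : ℕ) (red : integralClosure ℤ ℂ →+* F) (G : Subgroup Γ) (Q : Subgroup Γ)
    (B : (G → F) → F) : ℕ :=
  Nat.card {χ : Subgroup.normalizer (Q : Set Γ) → ℂ //
    IsWt p (Q.subgroupOf (Subgroup.normalizer (Q : Set Γ))) χ ∧
    ∀ z : Γ → F, InZ G z → centralValue red χ (fun x => z x) = B (fun x : G => z x)}

/-- The block `B` of `G` is `Γ`-invariant. -/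
def IsInvBlock (G : Subgroup Γ) (B : (G → F) → F) : Prop :=
  ∀ g : Γ, ∀ f f' : G → F, IsClassFun f → (∀ x y : G, (y : Γ) = g * x * g⁻¹ → f' y = f x) →
    B f' = B f

end

/-- Navarro's equality `|IBr_Γ(B)| = ∑_Q |dz(N_Γ(Q)/Q | B)|` for all `Γ`-invariant blocks `B` of
`G`; the sum is over representatives of the `Γ`-classes of `p`-subgroups `Q` with `GQ = Γ`. -/
def Navarro (p : ℕ) {F : Type} [Field F] (red : integralClosure ℤ ℂ →+* F) {Γ : Type} [Group Γ]
    (G : Subgroup Γ) : Prop :=
  ∀ B : (G → F) → F, IsBlock B → IsInvBlock G B →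
    numIBr G B = ∑ᶠ c : Quotient (pSubgroupSetoid p Γ),
      if G ⊔ c.out.1 = ⊤ then numDz p red G c.out.1 B else 0

/-! ### Auxiliary definitions -/

section aux

variable {F : Type} [Field F] {Γ : Type} [Group Γ]

/-- the exponent which maps an element of `Γ` to its `p'`-part -/
def pexp (p : ℕ) (Γ : Type) : ℕ :=
  (p ^ (Nat.card Γ).factorization p) ^
    Nat.totient (Nat.card Γ / p ^ (Nat.card Γ).factorization p)

/-- the `p'`-part of `x` -/
def pp (p : ℕ) (x : Γ) : Γ := x ^ pexp p Γ

/-- the restriction of `z` to the subgroup `C`, extended by zero -/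
def cut (z : Γ → F) (C : Subgroup Γ) : Γ → F := fun g => if g ∈ C then z g else 0

/-- the number of `H`-invariant irreducible characters of `N` over `F` on which `z` acts as `c` -/
def Lnum (N H : Subgroup Γ) (z : Γ → F) (c : F) : ℕ :=
  Nat.card {φ : N → F // IsIrrTrace φ ∧ IsInvUnder H φ ∧
    ∀ x : N, ∑ᶠ g : N, z g * φ (g * x) = c * φ x}

/-- the operator `(T θ)(x) = ∑_g z(g) θ((g x)_{p'})` for `x ∈ S`, and `0` outside `S` -/
def Tfun (p : ℕ) (z : Γ → F) (S : Set Γ) (θ : Γ → F) : Γ → F :=
  fun x => if x ∈ S then ∑ᶠ g : Γ, z g * θ (pp p (g * x)) else 0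

/-- the operator as a linear map -/
def Top [Finite Γ] (p : ℕ) (z : Γ → F) (S : Set Γ) : Module.End F (Γ → F) where
  toFun := Tfun p z S
  map_add' a b := by
    funext x
    by_cases hx : x ∈ S
    · simp only [Tfun, hx, if_true, Pi.add_apply, mul_add]
      exact finsum_add_distrib (Set.toFinite _) (Set.toFinite _)
    · simp [Tfun, hx]
  map_smul' c a := by
    funext x
    by_cases hx : x ∈ S
    · simp only [Tfun, hx, if_true, Pi.smul_apply, smul_eq_mul, RingHom.id_apply]
      rw [← smul_eq_mul, smul_finsum' c (Set.toFinite _)]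
      refine finsum_congr fun g => ?_
      rw [smul_eq_mul]
      ring
    · simp [Tfun, hx]

/-- the functions with support in `S` which are invariant under `J` -/
def VS (S : Set Γ) (J : Subgroup Γ) : Submodule F (Γ → F) where
  carrier := {θ | (∀ x, x ∉ S → θ x = 0) ∧ ∀ j ∈ J, ∀ x, θ (j * x * j⁻¹) = θ x}
  zero_mem' := ⟨fun _ _ => rfl, fun _ _ _ => rfl⟩
  add_mem' := by
    rintro a b ⟨ha, ha'⟩ ⟨hb, hb'⟩
    exact ⟨fun x hx => by rw [Pi.add_apply, ha x hx, hb x hx, add_zero],
      fun j hj x => by rw [Pi.add_apply, Pi.add_apply, ha' j hj, hb' j hj]⟩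
  smul_mem' := by
    rintro c a ⟨ha, ha'⟩
    exact ⟨fun x hx => by rw [Pi.smul_apply, ha x hx, smul_zero],
      fun j hj x => by rw [Pi.smul_apply, Pi.smul_apply, ha' j hj]⟩

/-- the multiplicity of the eigenvalue `c` of the operator on `VS S J` -/
def gm [Finite Γ] (p : ℕ) (z : Γ → F) (S : Set Γ) (J : Subgroup Γ) (c : F) : ℕ :=
  Module.finrank F ↥(VS S J ⊓ (Top p z S).maxGenEigenspace c)

/-- the `p`-regular elements of `N` whose `N`-class is `H`-invariant -/
def S0 (p : ℕ) (N H : Subgroup Γ) : Set Γ :=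
  {x | x ∈ N ∧ ¬ p ∣ orderOf x ∧ ∀ h ∈ H, ∃ n ∈ N, h * x * h⁻¹ = n * x * n⁻¹}

/-- the `p`-regular elements `x` of `C_N(R)` such that `|C_J(x)|_p = |R|_p` -/
def SR (p : ℕ) (N J R : Subgroup Γ) : Set Γ :=
  {x | x ∈ N ∧ ¬ p ∣ orderOf x ∧ (∀ r ∈ R, r * x = x * r) ∧
    (Nat.card ↥(J ⊓ Subgroup.centralizer {x})).factorization p = (Nat.card R).factorization p}

/-- the number of weights of `J` for the normal subgroup `Q` on which `f` acts as `c` -/
def Nw (p : ℕ) (red : integralClosure ℤ ℂ →+* F) {J : Type} [Group J] (Q : Subgroup J)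
    (f : J → F) (c : F) : ℕ :=
  Nat.card {χ : J → ℂ // IsWt p Q χ ∧ centralValue red χ f = c}

/-- the weighted number of weights -/
def Wsum (p : ℕ) (red : integralClosure ℤ ℂ →+* F) (G H : Subgroup Γ) (z : Γ → F) (c : F) : ℤ :=
  ∑ᶠ Q : Subgroup Γ, if IsPGroup p Q ∧ Q ≤ H ∧ G ⊔ Q = ⊤ then
    (Nat.card ↥(H ⊓ Subgroup.normalizer (Q : Set Γ)) : ℤ) *
      Nw p red (Q.subgroupOf (H ⊓ Subgroup.normalizer (Q : Set Γ))) (fun x => z x) c else 0

/-- the weighted number of invariant characters -/
def Lsum (G H : Subgroup Γ) (z : Γ → F) (c : F) : ℤ :=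
  if G ⊔ H = ⊤ then (Nat.card H : ℤ) * Lnum (G ⊓ H) H z c else 0

/-- the sum of `z` over the cosets of `M` -/
def push (M : Subgroup Γ) (z : Γ → F) : Γ ⧸ M → F :=
  fun x => ∑ᶠ g : Γ, if (g : Γ ⧸ M) = x then z g else 0

/-- the elements centralising all members of a chain -/
def chainCent (σ : Set (Subgroup Γ)) : Subgroup Γ := ⨅ P ∈ σ, Subgroup.centralizer (P : Set Γ)

end aux

end Pool.Agent.Y63.NV
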