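import Pool.Agent.Y63.NV.Main
import Pool.Agent.Y63.NV.Cutw
import Pool.Agent.Y63.NV.Base48
import Pool.Agent.Y914.NV.Irr
import Pool.Agent.Y705.NV.Ppt
import Pool.Agent.Y705.NV.Nil
import Pool.Agent.Y275.NV.Wed
import Pool.Agent.Y705.NV.Schur
import Pool.Agent.Y63.NV.Brq77
import Pool.Agent.Y487.NV.La
import Pool.Agent.Y177.NV.Filta
import Pool.Agent.Y85.NV.Filt
import Pool.Agent.Y930.NV.Cen
import Pool.Agent.Y63.NV.Wblk930
import Pool.Agent.Y624.NV.Trn
import Pool.Agent.Y210.NV2.TRL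
import Pool.Agent.Y824.NV.LQ
import Pool.Agent.Y210.NV2.NQ
import Pool.Agent.Y405.NV.Rinj
import Pool.Agent.Y286.NV.Fin

/-!
# Navarro's conjecture for `p`-group extensions and the blockwise weight conjecture
-/

open scoped Classical BigOperators

noncomputable section

namespace Pool.Agent.Y63.NV

theorem span' : S_SPAN := span_of Pool.Agent.Y705.NV.nil Pool.Agent.Y275.NV.wed

theorem schur' : S_SCHUR := Pool.Agent.Y705.NV.schur Pool.Agent.Y914.NV.irr

theorem brq' : S_BRQ := Pool.Agent.Y63.NV.B77.brq Pool.Agent.Y914.NV.irr Pool.Agent.Y705.NV.ppt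
  span' schur'

theorem filt' : S_FILT := Pool.Agent.Y85.NV.filt Pool.Agent.Y487.NV.la Pool.Agent.Y177.NV.filta

theorem cutw' : S_CUTW := cutw Pool.Agent.Y930.NV.inf

theorem nq' : S_NQ := Pool.Agent.Y210.NV3.nq Pool.Agent.Y930.NV.inf wtn

theorem parts : Parts :=
  ⟨brq', filt', cutw', Pool.Agent.Y824.NV.lq, nq', Pool.Agent.Y210.NV2.trl,
    Pool.Agent.Y624.NV.trn⟩

theorem wblk' : S_WBLK := Pool.Agent.Y63.NV.B930.wblk Pool.Agent.Y930.NV.cvh cutw'

theorem base' : S_BASE := Pool.Agent.Y63.NV.B48B.base Pool.Agent.Y914.NV.irr schur' wblk'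

theorem fin' : S_FIN := Pool.Agent.Y286.NV.fin Pool.Agent.Y914.NV.irr schur'
  Pool.Agent.Y405.NV.rinj

/-- `H` is an image of a subgroup of `G` under a homomorphism whose kernel is a `p`-group -/
def IsSec (p : ℕ) {Γ : Type} [Group Γ] (G : Subgroup Γ) (H : Type) [Group H] : Prop :=
  ∃ K : Subgroup Γ, K ≤ G ∧ ∃ f : K →* H, Function.Surjective f ∧ IsPGroup p f.ker

theorem closed_sec (p : ℕ) {Γ : Type} [Group Γ] (G : Subgroup Γ) :
    Closed p (fun H _ => IsSec p G H) where
  iso := by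
    rintro H H' _ _ ⟨K, hK, f, hf, hp⟩ ⟨e⟩
    refine ⟨K, hK, e.toMonoidHom.comp f, e.surjective.comp hf, ?_⟩
    have : (e.toMonoidHom.comp f).ker = f.ker := by
      ext x
      rw [MonoidHom.mem_ker, MonoidHom.mem_ker, MonoidHom.comp_apply]
      exact map_eq_one_iff e e.injective
    rw [this]
    exact hp
  sub := by
    rintro H _ ⟨K, hK, f, hf, hp⟩ H'
    let e := (H'.comap f).equivMapOfInjective K.subtype K.subtype_injective
    refine ⟨(H'.comap f).map K.subtype, (Subgroup.map_subtype_le _).trans hK,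
      (f.subgroupComap H').comp e.symm.toMonoidHom,
      (f.subgroupComap_surjective_of_surjective H' hf).comp e.symm.surjective, ?_⟩
    intro x
    have hx := x.2
    rw [MonoidHom.mem_ker, MonoidHom.comp_apply] at hx
    set y := e.symm x.1 with hy
    have h1 : f y.1 = 1 := by
      have := congrArg Subtype.val hx
      exact this
    obtain ⟨k, hk⟩ := hp ⟨y.1, h1⟩
    refine ⟨k, ?_⟩
    apply Subtype.ext
    have h2 : y ^ p ^ k = 1 := by
      apply Subtype.ext
      have h4 : ((⟨y.1, h1⟩ : f.ker) ^ p ^ k).1 = (1 : f.ker).1 := congrArg Subtype.val hk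
      exact h4
    have h3 : x.1 = e y := by rw [hy, e.apply_symm_apply]
    change x.1 ^ p ^ k = 1
    rw [h3, ← map_pow, h2, map_one]
  quot := by
    rintro H _ ⟨K, hK, f, hf, hp⟩ M _ hM
    refine ⟨K, hK, (QuotientGroup.mk' M).comp f, (QuotientGroup.mk'_surjective M).comp hf, ?_⟩
    intro x
    have hx := x.2
    rw [MonoidHom.mem_ker, MonoidHom.comp_apply, QuotientGroup.mk'_apply,
      QuotientGroup.eq_one_iff] at hx
    obtain ⟨k, hk⟩ := hM ⟨f x.1, hx⟩
    have h1 : f (x.1 ^ p ^ k) = 1 := by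
      rw [map_pow]
      exact congrArg Subtype.val hk
    obtain ⟨l, hl⟩ := hp ⟨x.1 ^ p ^ k, h1⟩
    refine ⟨k + l, ?_⟩
    apply Subtype.ext
    have h2 : (x.1 ^ p ^ k) ^ p ^ l = 1 := congrArg Subtype.val hl
    change x.1 ^ p ^ (k + l) = 1
    rw [pow_add, pow_mul]
    exact h2

theorem isSec_self (p : ℕ) {Γ : Type} [Group Γ] (G : Subgroup Γ) : IsSec p G G := by
  refine ⟨G, le_rfl, MonoidHom.id G, Function.surjective_id, ?_⟩
  intro x
  refine ⟨0, ?_⟩
  have : x.1 = 1 := x.2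
  rw [pow_zero, pow_one]
  exact Subtype.ext this

/-- **Local form.** -/
theorem local_form (p : ℕ) [Fact p.Prime] (F : Type) [Field F] [IsAlgClosed F] [CharP F p]
    (red : integralClosure ℤ ℂ →+* F) (Γ : Type) [Group Γ] [Finite Γ] (G : Subgroup Γ) [G.Normal]
    (hp : IsPGroup p (Γ ⧸ G))
    (h : ∀ (H : Type) [Group H] [Finite H], IsSec p G H → Navarro p red (⊤ : Subgroup H)) :
    Navarro p red G := by
  refine fin' p F red Γ G hp fun z hz c => ?_
  exact induct parts red (fun H _ => IsSec p G H) (closed_sec p G) (fun _ _ _ => True)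
    ⟨fun _ _ _ _ _ _ => trivial, fun _ _ _ _ _ _ => trivial⟩
    (fun H _ _ hH z hz _ c => base' p F red H (h H hH) z hz c)
    (Nat.card Γ) Γ G le_rfl (isSec_self p G) hp z hz trivial c

/-- **Global form.** -/
theorem global_form (p : ℕ) [Fact p.Prime] (F : Type) [Field F] [IsAlgClosed F] [CharP F p]
    (red : integralClosure ℤ ℂ →+* F) :
    (∀ (H : Type) [Group H] [Finite H], Navarro p red (⊤ : Subgroup H)) ↔
    ∀ (Γ : Type) [Group Γ] [Finite Γ] (G : Subgroup Γ) [G.Normal], IsPGroup p (Γ ⧸ G) →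
      Navarro p red G := by
  constructor
  · intro h Γ _ _ G _ hp
    exact local_form p F red Γ G hp fun H _ _ _ => h H
  · intro h H _ _
    refine h H ⊤ ?_
    intro x
    refine ⟨0, ?_⟩
    obtain ⟨y, rfl⟩ := QuotientGroup.mk_surjective x
    rw [← QuotientGroup.mk_pow, QuotientGroup.eq_one_iff]
    trivial

end Pool.Agent.Y63.NV
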