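import Pool.Agent.Y63.NV.Stm2
import Pool.Agent.Y63.NV.Infl
import Pool.Agent.Y930.NV.Cen
import Pool.Agent.Y77.NV.Base

/-! This file is a copy of `Pool/Agent/Y532/NV/Lreg.lean` of helper532 with one step replaced. -/

/-!
# Navarro's conjecture for `p`-group extensions, part 2: the unit element (LREG and WCOV)
-/

set_option autoImplicit false

open scoped Classical

noncomputable section

namespace Pool.Agent.Y63.NV.B532

open Pool.Agent.Y63.AWC (IsIrreducibleCharacter numDefectZero)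
open Pool.Agent.Y63.NV

/-! ### WCOV -/

/-- inflation of the characters of defect zero -/
theorem card_wt (p : ℕ) {J : Type} [Group J] [Finite J] (Q : Subgroup J) [Q.Normal] :
    Nat.card {χ : J → ℂ // IsWt p Q χ} = numDefectZero p (J ⧸ Q) := by
  have hcard := Subgroup.card_eq_card_quotient_mul_card_subgroup Q
  have h0 : 0 < Nat.card (J ⧸ Q) := Nat.card_pos
  have h0' : 0 < Nat.card Q := Nat.card_pos
  symm
  refine Nat.card_congr (Equiv.ofBijective (fun χ' => ⟨fun x => χ'.1 (x : J ⧸ Q), ?_⟩) ⟨?_, ?_⟩)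
  · obtain ⟨h1, n, h2, h3⟩ := χ'.2
    refine ⟨Pool.Agent.Y930.NV.irr_inflate (QuotientGroup.mk' Q)
      (QuotientGroup.mk'_surjective Q) h1, ?_, n, ?_, ?_⟩
    · intro q hq x
      have h4 : ((q * x : J) : J ⧸ Q) = (x : J ⧸ Q) := by
        rw [QuotientGroup.mk_mul, (QuotientGroup.eq_one_iff q).2 hq, one_mul]
      rw [h4]
    · exact h2
    · rw [h3, hcard, Nat.factorization_mul h0.ne' h0'.ne', Finsupp.add_apply]
  · intro a b hab
    apply Subtype.ext
    funext y
    obtain ⟨x, rfl⟩ := QuotientGroup.mk_surjective y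
    exact congrFun (congrArg Subtype.val hab) x
  · rintro ⟨χ, hw⟩
    obtain ⟨χ', h1, h2⟩ := deflate Q hw.irr hw.inflated
    obtain ⟨n, hn1, hn2⟩ := hw.defectZero
    refine ⟨⟨χ', h1, n, ?_, ?_⟩, ?_⟩
    · rw [← hn1, h2 1]
      rfl
    · rw [hcard, Nat.factorization_mul h0.ne' h0'.ne', Finsupp.add_apply] at hn2
      omega
    · apply Subtype.ext
      funext x
      exact (h2 x).symm

theorem nw_one (p : ℕ) {F : Type} [Field F] (red : integralClosure ℤ ℂ →+* F) {J : Type}
    [Group J] [Finite J] (Q : Subgroup J) [Q.Normal] (f : J → F) (hf : f = Pi.single 1 1) :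
    Nw p red Q f 1 = numDefectZero p (J ⧸ Q) := by
  rw [← card_wt p Q]
  unfold Nw
  refine Nat.card_congr (Equiv.subtypeEquivRight fun χ => ?_)
  constructor
  · exact fun h => h.1
  · intro h
    refine ⟨h, ?_⟩
    rw [hf]
    exact (Pool.Agent.Y930.NV.cvh F red J χ h.irr).one

theorem term_eq (p : ℕ) {F : Type} [Field F] (red : integralClosure ℤ ℂ →+* F) {Γ : Type}
    [Group Γ] [Finite Γ] (Q J : Subgroup Γ) (hJ : J = Subgroup.normalizer (Q : Set Γ)) :
    (Nat.card J : ℤ) * Nw p red (Q.subgroupOf J) (fun x : J => (Pi.single 1 1 : Γ → F) x) 1 =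
      ((Nat.card (Subgroup.normalizer (Q : Set Γ)) * locz p Q : ℕ) : ℤ) := by
  subst hJ
  have h1 : (fun x : Subgroup.normalizer (Q : Set Γ) => (Pi.single 1 1 : Γ → F) x) =
      Pi.single 1 1 := by
    funext x
    by_cases hx : x = 1
    · subst hx
      simp
    · have hx' : (x : Γ) ≠ 1 := fun h => hx (Subtype.ext h)
      rw [Pi.single_eq_of_ne hx', Pi.single_eq_of_ne hx]
  rw [nw_one p red _ _ (h1.trans (by
      funext x
      unfold Pi.single Function.update
      by_cases hx : x = 1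
      · rw [dif_pos hx, dif_pos hx]
      · rw [dif_neg hx, dif_neg hx]))]
  unfold locz
  push_cast
  rfl

/-- **WCOV** -/
theorem wcov : S_WCOV := by
  intro p _ F _ _ red Γ _ _ G
  have : Fintype (Subgroup Γ) := Fintype.ofFinite _
  unfold Wsum covW
  rw [finsum_eq_sum_of_fintype, finsum_eq_sum_of_fintype, Nat.cast_sum]
  refine Finset.sum_congr rfl fun Q _ => ?_
  by_cases h : IsPGroup p Q ∧ G ⊔ Q = ⊤
  · rw [if_pos ⟨h.1, le_top, h.2⟩, if_pos h]
    exact term_eq p red Q _ (top_inf_eq _)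
  · rw [if_neg (fun h' => h ⟨h'.1, h'.2.2⟩), if_neg h, Nat.cast_zero]

/-! ### LREG -/

theorem s0_conj {p : ℕ} {Γ : Type} [Group Γ] {G : Subgroup Γ} [hG : G.Normal] {x : Γ}
    (hx : x ∈ S0 p G ⊤) (g : Γ) : g * x * g⁻¹ ∈ S0 p G ⊤ := by
  obtain ⟨h1, h2, h3⟩ := hx
  refine ⟨hG.conj_mem x h1 g, ?_, fun h _ => ?_⟩
  · have h4 := orderOf_injective (MulAut.conj g).toMonoidHom (MulAut.conj g).injective x
    have h5 : (MulAut.conj g).toMonoidHom x = g * x * g⁻¹ := rfl
    rw [h5] at h4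
    rw [h4]
    exact h2
  · obtain ⟨n, hn, e1⟩ := h3 (h * g) (Subgroup.mem_top _)
    obtain ⟨n', hn', e2⟩ := h3 g (Subgroup.mem_top _)
    refine ⟨n * n'⁻¹, G.mul_mem hn (G.inv_mem hn'), ?_⟩
    calc h * (g * x * g⁻¹) * h⁻¹ = (h * g) * x * (h * g)⁻¹ := by group
      _ = n * x * n⁻¹ := e1
      _ = (n * n'⁻¹) * (n' * x * n'⁻¹) * (n * n'⁻¹)⁻¹ := by group
      _ = (n * n'⁻¹) * (g * x * g⁻¹) * (n * n'⁻¹)⁻¹ := by rw [← e2]

section

variable {F Γ : Type} [Field F] [Group Γ] [Finite Γ] (S : Set Γ)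

/-- class functions with support in `S` are functions on the classes contained in `S` -/
def vsEquiv (hS : ∀ x ∈ S, ∀ g : Γ, g * x * g⁻¹ ∈ S) :
    VS (F := F) S (⊤ : Subgroup Γ) ≃ₗ[F]
      ({C : ConjClasses Γ // ∃ x ∈ S, ConjClasses.mk x = C} → F) where
  toFun := fun θ C => θ.1 C.2.choose
  map_add' := fun a b => rfl
  map_smul' := fun c a => rfl
  invFun := fun f => ⟨fun x => if h : x ∈ S then f ⟨ConjClasses.mk x, x, h, rfl⟩ else 0, by
    constructor
    · intro x hx
      exact dif_neg hx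
    · intro j _ x
      have h1 : ConjClasses.mk (j * x * j⁻¹) = ConjClasses.mk x :=
        ConjClasses.mk_eq_mk_iff_isConj.2 (isConj_iff.2 ⟨j⁻¹, by group⟩)
      by_cases hx : x ∈ S
      · have hx' := hS x hx j
        simp only [dif_pos hx, dif_pos hx']
        congr 1
        exact Subtype.ext h1
      · have hx' : j * x * j⁻¹ ∉ S := by
          intro h
          apply hx
          have h2 := hS _ h j⁻¹
          have h3 : j⁻¹ * (j * x * j⁻¹) * j⁻¹⁻¹ = x := by group
          rwa [h3] at h2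
        simp only [dif_neg hx, dif_neg hx']⟩
  left_inv := by
    rintro ⟨θ, h1, h2⟩
    apply Subtype.ext
    funext x
    by_cases hx : x ∈ S
    · simp only [dif_pos hx]
      have hex : ∃ y ∈ S, ConjClasses.mk y = ConjClasses.mk x := ⟨x, hx, rfl⟩
      have h3 := hex.choose_spec.2
      obtain ⟨c, hc⟩ := isConj_iff.1 (ConjClasses.mk_eq_mk_iff_isConj.1 h3)
      have h4 := h2 c (Subgroup.mem_top _) hex.choose
      rw [hc] at h4
      exact h4.symm
    · simp only [dif_neg hx]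
      exact (h1 x hx).symm
  right_inv := by
    intro f
    funext C
    have h1 := C.2.choose_spec
    simp only [dif_pos h1.1]
    congr 1
    exact Subtype.ext h1.2

theorem finrank_vs (hS : ∀ x ∈ S, ∀ g : Γ, g * x * g⁻¹ ∈ S) :
    Module.finrank F (VS (F := F) S (⊤ : Subgroup Γ)) =
      Nat.card {C : ConjClasses Γ // ∃ x ∈ S, ConjClasses.mk x = C} := by
  have : Fintype {C : ConjClasses Γ // ∃ x ∈ S, ConjClasses.mk x = C} := Fintype.ofFinite _
  rw [(vsEquiv (F := F) S hS).finrank_eq, Module.finrank_fintype_fun_eq_card,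
    Nat.card_eq_fintype_card]

end

theorem single_conj {F Γ : Type} [Field F] [Group Γ] (h x : Γ) :
    (Pi.single 1 1 : Γ → F) (h * x * h⁻¹) = (Pi.single 1 1 : Γ → F) x := by
  by_cases hx : x = 1
  · subst hx
    simp
  · have hx' : h * x * h⁻¹ ≠ 1 := by
      intro h1
      exact hx (conj_eq_one_iff.1 h1)
    rw [Pi.single_eq_of_ne hx', Pi.single_eq_of_ne hx]

/-- **LREG** -/
theorem lreg (h : S_BRQ) : S_LREG := by
  intro p _ F _ _ _ Γ _ _ G hG hpq
  have hext : Ext p G ⊤ (Pi.single 1 1 : Γ → F) := by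
    refine ⟨le_top, fun g _ n hn => hG.conj_mem n hn g, fun g _ => ?_, fun g _ x => single_conj g x,
      fun x hx => ?_⟩
    · obtain ⟨k, hk⟩ := hpq (g : Γ ⧸ G)
      refine ⟨k, ?_⟩
      rw [← QuotientGroup.mk_pow] at hk
      exact (QuotientGroup.eq_one_iff _).1 hk
    · have hx' : x ≠ 1 := by
        rintro rfl
        exact hx G.one_mem
      exact Pi.single_eq_of_ne hx' _
  rw [h p F Γ G ⊤ _ hext 1]
  unfold gm invReg
  have hle : VS (F := F) (S0 p G ⊤) (⊤ : Subgroup Γ) ≤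
      (Top p (Pi.single 1 1 : Γ → F) (S0 p G ⊤)).maxGenEigenspace 1 := by
    intro θ hθ
    have hT : Top p (Pi.single 1 1 : Γ → F) (S0 p G ⊤) θ = θ := by
      funext x
      change Tfun p (Pi.single 1 1 : Γ → F) (S0 p G ⊤) θ x = θ x
      unfold Tfun
      by_cases hx : x ∈ S0 p G ⊤
      · rw [if_pos hx, finsum_eq_single _ (1 : Γ)
          (fun g hg => by rw [Pi.single_eq_of_ne hg, zero_mul]), Pi.single_eq_same, one_mul,
          one_mul, Pool.Agent.Y77.NV.pp_reg x hx.2.1]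
      · rw [if_neg hx, hθ.1 x hx]
    rw [Module.End.mem_maxGenEigenspace]
    refine ⟨1, ?_⟩
    rw [pow_one, LinearMap.sub_apply, hT, one_smul]
    simp
  rw [inf_eq_left.2 hle, finrank_vs _ (fun x hx g => s0_conj hx g)]

end Pool.Agent.Y63.NV.B532
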