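import Pool.Agent.Y63.NV.Theta
import Pool.Agent.Y63.NV.Lreg532

/-!
# The block-free form of Navarro's conjecture
-/

open scoped Classical BigOperators

set_option linter.unusedSectionVars false

noncomputable section

namespace Pool.Agent.Y63.NV

open Pool.Agent.Y63.KR
open Pool.Agent.Y63.AWC (IsIrreducibleCharacter pSubgroupSetoid numDefectZero numWeights
  numRegularClasses)

/-- the induction, for a fixed eigenvalue -/
theorem inductc (P : Parts) {p : ℕ} [Fact p.Prime] {F : Type} [Field F] [IsAlgClosed F]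
    [CharP F p] (red : integralClosure ℤ ℂ →+* F) (c : F) (X : ∀ (G : Type) [Group G], Prop) (hX : Closed p X)
    (D : ∀ (Γ : Type) [Group Γ], (Γ → F) → Prop) (hD : ClosedD D)
    (base : ∀ (G : Type) [Group G] [Finite G], X G → ∀ z : G → F, IsClassFun z → D G z →
      Lsum (⊤ : Subgroup G) ⊤ z c = Wsum p red ⊤ ⊤ z c) :
    ∀ (n : ℕ) (Γ : Type) [Group Γ] [Finite Γ] (G : Subgroup Γ) [G.Normal], Nat.card Γ ≤ n →
      X G → IsPGroup p (Γ ⧸ G) → ∀ z : Γ → F, InZ G z → D Γ z →
      Lsum G ⊤ z c = Wsum p red G ⊤ z c := by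
  intro n
  induction n with
  | zero =>
    intro Γ _ _ G _ hn
    have := Nat.card_pos (α := Γ)
    omega
  | succ n ih =>
    intro Γ _ _ G hG hn hXG hp z hz hDz
    by_cases hG1 : G = ⊤
    · subst hG1
      exact base Γ (hX.iso _ _ hXG ⟨Subgroup.topEquiv⟩) z (fun g x => hz.conj g x) hDz
    by_cases hM : ∃ M : Subgroup Γ, M.Normal ∧ IsPGroup p M ∧ M ≠ ⊥
    · obtain ⟨M, hMn, hMp, hM1⟩ := hM
      obtain ⟨h1, h2⟩ := P.lq p F Γ G M z hMp hz c
      have h3 := P.nq p F red Γ G M z hMp hz c
      rw [h2, h3]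
      congr 1
      have hcard : Nat.card (Γ ⧸ M) ≤ n := by
        have e1 := Subgroup.card_eq_card_quotient_mul_card_subgroup M
        have e2 : 1 < Nat.card M := (Subgroup.one_lt_card_iff_ne_bot M).mpr hM1
        have e3 : 0 < Nat.card (Γ ⧸ M) := Nat.card_pos
        by_contra hlt
        push Not at hlt
        have : Nat.card (Γ ⧸ M) * 2 ≤ Nat.card Γ := by
          rw [e1]
          exact Nat.mul_le_mul_left _ e2
        omega
      have hnor : (G.map (QuotientGroup.mk' M)).Normal :=
        Subgroup.Normal.map hG _ (QuotientGroup.mk'_surjective M)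
      have hp' : IsPGroup p ((Γ ⧸ M) ⧸ (G.map (QuotientGroup.mk' M))) := by
        intro x
        obtain ⟨y, rfl⟩ := QuotientGroup.mk_surjective x
        obtain ⟨g, rfl⟩ := QuotientGroup.mk_surjective y
        obtain ⟨k, hk⟩ := pow_mem_of_pGroup hp g
        refine ⟨k, ?_⟩
        rw [← QuotientGroup.mk_pow, QuotientGroup.eq_one_iff, ← QuotientGroup.mk_pow]
        exact ⟨_, hk, rfl⟩
      have hX' : X (G.map (QuotientGroup.mk' M)) := by
        set f : G →* Γ ⧸ M := (QuotientGroup.mk' M).comp G.subtype with hf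
        have hker : IsPGroup p f.ker := by
          have : f.ker = M.subgroupOf G := by
            ext x
            rw [MonoidHom.mem_ker, Subgroup.mem_subgroupOf, hf, MonoidHom.comp_apply,
              QuotientGroup.mk'_apply, QuotientGroup.eq_one_iff]
            rfl
          rw [this]
          exact hMp.comap_subtype
        have h4 := hX.quot G hXG f.ker hker
        refine hX.iso _ _ h4 ⟨(QuotientGroup.quotientKerEquivRange f).trans
          (MulEquiv.subgroupCongr ?_)⟩
        rw [hf, MonoidHom.range_comp, Subgroup.range_subtype]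
      exact ih (Γ ⧸ M) (G.map (QuotientGroup.mk' M)) hcard hX' hp' (push M z) h1
        (hD.quot Γ z hDz M)
    · have : Fintype {σ : Set (Subgroup Γ) // IsPChain p σ} := Fintype.ofFinite _
      have hsum := chain_sum P red hp hG1 hz c
      have hemp : IsPChain p (∅ : Set (Subgroup Γ)) :=
        ⟨Set.pairwise_empty _, fun P hP => absurd hP (Set.notMem_empty P),
          fun P hP => absurd hP (Set.notMem_empty P)⟩
      rw [Finset.sum_eq_single (⟨∅, hemp⟩ : {σ : Set (Subgroup Γ) // IsPChain p σ})] at hsum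
      · simp only [Set.ncard_empty, pow_zero, one_mul] at hsum
        rw [chainStabilizer_empty, chainCent_empty, cut_top] at hsum
        exact sub_eq_zero.mp hsum
      · intro σ _ hσ
        have hne : σ.1.Nonempty := by
          rw [Set.nonempty_iff_ne_empty]
          intro h
          exact hσ (Subtype.ext h)
        obtain ⟨Q, hQ⟩ := hne
        set H := chainStabilizer σ.1 with hH
        have hHtop : H ≠ ⊤ := by
          intro h
          apply hM
          refine ⟨Q, ?_, σ.2.isPGroup Q hQ, σ.2.ne_bot Q hQ⟩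
          rw [← Subgroup.normalizer_eq_top_iff, eq_top_iff]
          intro x _
          rw [← conjSub_eq_iff]
          have hx : x ∈ H := by rw [h]; trivial
          exact mem_chainStabilizer.mp hx Q hQ
        by_cases hGH : G ⊔ H = ⊤
        · have hcard : Nat.card H ≤ n := by
            have e1 : Nat.card H ≠ Nat.card Γ := by
              intro h
              exact hHtop ((Subgroup.card_eq_iff_eq_top H).mp h)
            have e2 := Subgroup.card_le_card_group H
            omega
          have hnor : (G.subgroupOf H).Normal := inferInstance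
          have hp' : IsPGroup p (H ⧸ G.subgroupOf H) := by
            intro x
            obtain ⟨g, rfl⟩ := QuotientGroup.mk_surjective x
            obtain ⟨k, hk⟩ := pow_mem_of_pGroup hp (g : Γ)
            refine ⟨k, ?_⟩
            rw [← QuotientGroup.mk_pow, QuotientGroup.eq_one_iff, Subgroup.mem_subgroupOf]
            exact hk
          have hX' : X (G.subgroupOf H) :=
            hX.iso _ _ (hX.sub G hXG (H.subgroupOf G)) (iso_subgroupOf G H)
          have hz' : InZ (G.subgroupOf H) (fun x : H => cut z (chainCent σ.1) x) := by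
            constructor
            · intro g x
              exact cut_inv hz.conj g.2 x
            · intro x hx
              have : (x : Γ) ∉ G := fun h => hx (Subgroup.mem_subgroupOf.mpr h)
              change cut z (chainCent σ.1) x = 0
              unfold cut
              rw [hz.supp _ this]
              split_ifs <;> rfl
          have h5 := ih H (G.subgroupOf H) hcard hX' hp' _ hz' (hD.sub Γ z hDz H _)
          have h6 := P.trl F Γ G H (cut z (chainCent σ.1)) c hGH
          have h7 := P.trn p F red Γ G H (cut z (chainCent σ.1)) c hGH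
            (fun h hh x => cut_inv hz.conj hh x)
          rw [h6, h7, h5, sub_self, mul_zero]
        · rw [lsum_zero hGH, wsum_zero red hGH, sub_self, mul_zero]
      · intro h
        exact absurd (Finset.mem_univ _) h

/-- the unit element of the group algebra -/
def IsUnitFun {F : Type} [Field F] (Γ : Type) [Group Γ] (z : Γ → F) : Prop :=
  ∀ x : Γ, z x = if x = 1 then 1 else 0

theorem isUnitFun_single {F : Type} [Field F] (Γ : Type) [Group Γ] :
    IsUnitFun Γ (Pi.single 1 1 : Γ → F) := by
  intro x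
  by_cases hx : x = 1
  · subst hx
    rw [Pi.single_eq_same, if_pos rfl]
  · rw [Pi.single_eq_of_ne hx, if_neg hx]

theorem IsUnitFun.eq {F : Type} [Field F] {Γ : Type} [Group Γ] {z : Γ → F} (h : IsUnitFun Γ z) :
    z = Pi.single 1 1 := by
  funext x
  rw [h x, isUnitFun_single Γ x]

theorem closedD_unit {F : Type} [Field F] : ClosedD (F := F) (fun Γ _ z => IsUnitFun Γ z) where
  sub := by
    intro Γ _ z hz H C x
    change (if (x : Γ) ∈ C then z x else 0) = _
    by_cases hx : x = 1
    · subst hx
      rw [if_pos (show ((1 : H) : Γ) ∈ C from C.one_mem), if_pos rfl,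
        show ((1 : H) : Γ) = 1 from rfl, hz, if_pos rfl]
    · have hx' : (x : Γ) ≠ 1 := fun h => hx (Subtype.ext h)
      rw [if_neg hx, hz, if_neg hx']
      split_ifs <;> rfl
  quot := by
    intro Γ _ z hz M _ x
    unfold push
    rw [finsum_eq_single _ (1 : Γ)]
    · rw [hz, if_pos rfl, QuotientGroup.mk_one]
      by_cases hx : x = 1
      · rw [if_pos hx.symm, if_pos hx]
      · rw [if_neg (fun h => hx h.symm), if_neg hx]
    · intro g hg
      rw [hz, if_neg hg]
      split_ifs <;> rfl

/-- the number of `Γ`-invariant irreducible characters of `G` over `F` -/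
def numInvIrr (F : Type) [Field F] {Γ : Type} [Group Γ] (G : Subgroup Γ) : ℕ :=
  Nat.card {φ : G → F // IsIrrTrace φ ∧ IsInvUnder ⊤ φ}

/-- Navarro's equality `|IBr_Γ(G)| = ∑_Q |dz(N_Γ(Q)/Q)|`; the sum is over representatives of the
`Γ`-classes of `p`-subgroups `Q` with `GQ = Γ`. -/
def NavarroSum (p : ℕ) (F : Type) [Field F] {Γ : Type} [Group Γ] (G : Subgroup Γ) : Prop :=
  numInvIrr F G = ∑ᶠ c : Quotient (pSubgroupSetoid p Γ),
    if G ⊔ c.out.1 = ⊤ then
      numDefectZero p (Subgroup.normalizer (c.out.1 : Set Γ) ⧸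
        c.out.1.subgroupOf (Subgroup.normalizer (c.out.1 : Set Γ))) else 0

theorem lnum_unit {F : Type} [Field F] {Γ : Type} [Group Γ] (G : Subgroup Γ) :
    Lnum G ⊤ (Pi.single 1 1 : Γ → F) 1 = numInvIrr F G := by
  unfold Lnum numInvIrr
  refine Nat.card_congr (Equiv.subtypeEquivRight fun φ => ?_)
  constructor
  · exact fun h => ⟨h.1, h.2.1⟩
  · intro h
    refine ⟨h.1, h.2, fun x => ?_⟩
    rw [finsum_eq_single _ (1 : G)]
    · rw [one_mul, one_mul]
      change (Pi.single 1 1 : Γ → F) ((1 : G) : Γ) * φ x = φ x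
      rw [show ((1 : G) : Γ) = 1 from rfl, Pi.single_eq_same, one_mul]
    · intro g hg
      have hg' : (g : Γ) ≠ 1 := fun h => hg (Subtype.ext h)
      rw [Pi.single_eq_of_ne hg', zero_mul]

theorem locz_conj (p : ℕ) {Γ : Type} [Group Γ] (g : Γ) (Q : Subgroup Γ) :
    locz p (Q.map (MulAut.conj g).toMonoidHom) = locz p Q :=
  Pool.Agent.Y63.AWC.loc_map (MulAut.conj g) Q

theorem covW_eq (p : ℕ) {Γ : Type} [Group Γ] [Finite Γ] (G : Subgroup Γ) [G.Normal] :
    covW p G = Nat.card Γ * ∑ᶠ c : Quotient (pSubgroupSetoid p Γ),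
      if G ⊔ c.out.1 = ⊤ then locz p c.out.1 else 0 := by
  have h := Pool.Agent.Y286.NV.orbit_weights (Γ := Γ) p
    (fun Q => if G ⊔ Q = ⊤ then locz p Q else 0) (by
      intro g Q
      change (if G ⊔ Q.map (MulAut.conj g).toMonoidHom = ⊤ then _ else 0) = _
      simp only [Pool.Agent.Y286.NV.sup_conj G g Q, locz_conj])
  rw [h]
  unfold covW
  have : Fintype (Subgroup Γ) := Fintype.ofFinite _
  have : Fintype {Q : Subgroup Γ // IsPGroup p Q} := Fintype.ofFinite _
  rw [finsum_eq_sum_of_fintype, finsum_eq_sum_of_fintype]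
  have e := Finset.sum_subtype (Finset.univ.filter (fun Q : Subgroup Γ => IsPGroup p Q))
    (p := fun Q : Subgroup Γ => IsPGroup p Q) (F := inferInstance) (by simp)
    (fun Q : Subgroup Γ => Nat.card (Subgroup.normalizer (Q : Set Γ)) *
      if G ⊔ Q = ⊤ then locz p Q else 0)
  rw [← e, Finset.sum_filter]
  refine Finset.sum_congr rfl fun Q _ => ?_
  by_cases h1 : IsPGroup p Q
  · by_cases h2 : G ⊔ Q = ⊤
    · rw [if_pos ⟨h1, h2⟩, if_pos h1, if_pos h2]
    · rw [if_neg (fun h => h2 h.2), if_pos h1, if_neg h2, mul_zero]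
  · rw [if_neg (fun h => h1 h.1), if_neg h1]

theorem lreg' : S_LREG := Pool.Agent.Y63.NV.B532.lreg brq'

theorem wcov' : S_WCOV := Pool.Agent.Y63.NV.B532.wcov

theorem exists_red (p : ℕ) [Fact p.Prime] (F : Type) [Field F] [IsAlgClosed F] [CharP F p] :
    Nonempty (integralClosure ℤ ℂ →+* F) := by
  obtain ⟨r⟩ := red' p
  let _ : Algebra (ZMod p) F := ZMod.algebra F p
  exact ⟨(IsAlgClosed.lift (R := ZMod p) (S := AlgebraicClosure (ZMod p)) (M := F)).toRingHom.comp r⟩

/-- Navarro's equality as an equality of the two sums of the induction -/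
theorem navarroSum_iff (p : ℕ) [Fact p.Prime] (F : Type) [Field F] [IsAlgClosed F] [CharP F p]
    (red : integralClosure ℤ ℂ →+* F) {Γ : Type} [Group Γ] [Finite Γ] (G : Subgroup Γ)
    [G.Normal] : NavarroSum p F G ↔
      Lsum G ⊤ (Pi.single 1 1 : Γ → F) 1 = Wsum p red G ⊤ (Pi.single 1 1) 1 := by
  have h1 : Lsum G ⊤ (Pi.single 1 1 : Γ → F) 1 = ((Nat.card Γ * numInvIrr F G : ℕ) : ℤ) := by
    unfold Lsum
    rw [if_pos (sup_top_eq G), Subgroup.card_top]
    have : Lnum (G ⊓ ⊤) ⊤ (Pi.single 1 1 : Γ → F) 1 = Lnum G ⊤ (Pi.single 1 1 : Γ → F) 1 := by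
      rw [inf_top_eq]
    rw [this, lnum_unit]
    push_cast
    rfl
  have h2 := wcov' p F red Γ G
  have hpos : 0 < Nat.card Γ := Nat.card_pos
  unfold NavarroSum
  rw [h1, h2, covW_eq]
  constructor
  · intro h
    rw [h]
    rfl
  · intro h
    exact Nat.eq_of_mul_eq_mul_left hpos (by exact_mod_cast h)

/-- **Block-free form.** -/
theorem free_form (p : ℕ) [Fact p.Prime] (F : Type) [Field F] [IsAlgClosed F] [CharP F p]
    (X : ∀ (H : Type) [Group H], Prop) (hX : Closed p X) :
    (∀ (H : Type) [Group H] [Finite H], X H → NavarroSum p F (⊤ : Subgroup H)) ↔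
    ∀ (Γ : Type) [Group Γ] [Finite Γ] (G : Subgroup Γ) [G.Normal], X G → IsPGroup p (Γ ⧸ G) →
      NavarroSum p F G := by
  obtain ⟨red⟩ := exists_red p F
  constructor
  · intro h Γ _ _ G hG hXG hp
    rw [navarroSum_iff p F red]
    refine inductc parts red 1 X hX (fun Γ _ z => IsUnitFun Γ z) closedD_unit ?_ (Nat.card Γ) Γ G
      le_rfl hXG hp _ ⟨fun g x => ?_, fun x hx => ?_⟩ (isUnitFun_single Γ)
    · intro H _ _ hH z _ hz
      rw [hz.eq]
      exact (navarroSum_iff p F red _).1 (h H hH)
    · exact Pool.Agent.Y63.NV.B532.single_conj g x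
    · rw [Pi.single_eq_of_ne]
      intro h1
      rw [h1] at hx
      exact hx G.one_mem
  · intro h H _ _ hH
    refine h H ⊤ (hX.iso _ _ hH ⟨Subgroup.topEquiv.symm⟩) ?_
    intro x
    refine ⟨0, ?_⟩
    obtain ⟨y, rfl⟩ := QuotientGroup.mk_surjective x
    rw [← QuotientGroup.mk_pow, QuotientGroup.eq_one_iff]
    trivial

end Pool.Agent.Y63.NV
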