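import Pool.Agent.Y63.NV.Pe

/-!
# The strong form of the block-free equivalence
-/

open scoped Classical BigOperators

noncomputable section

namespace Pool.Agent.Y63.NV

open Pool.Agent.Y63.AWC (IsIrreducibleCharacter pSubgroupSetoid numDefectZero numWeights
  numRegularClasses)

/-- a finite group without normal subgroups of index `p` and without non-trivial normal
`p`-subgroups -/
structure Reduced (p : ℕ) (H : Type) [Group H] : Prop where
  perfect : ∀ N : Subgroup H, N.Normal → N.index ≠ p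
  radical : ∀ M : Subgroup H, M.Normal → IsPGroup p M → M = ⊥

theorem xp_of (p : ℕ) (X : ∀ (H : Type) [Group H], Prop) (hX : Closed p X)
    (Γ : Type) [Group Γ] (N G : Subgroup Γ) [N.Normal] (hNG : N ≤ G) (hN : X N)
    (hp : IsPGroup p (Γ ⧸ N)) : XP p X G := by
  refine ⟨N.subgroupOf G, inferInstance, hX.iso _ _ hN ⟨(Subgroup.subgroupOfEquivOfLe hNG).symm⟩, ?_⟩
  intro x
  obtain ⟨g, rfl⟩ := QuotientGroup.mk_surjective x
  obtain ⟨k, hk⟩ := hp ((g : Γ) : Γ ⧸ N)
  rw [← QuotientGroup.mk_pow, QuotientGroup.eq_one_iff] at hk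
  refine ⟨k, ?_⟩
  rw [← QuotientGroup.mk_pow, QuotientGroup.eq_one_iff, Subgroup.mem_subgroupOf]
  exact hk

theorem pgroup_of_le {p : ℕ} {Γ : Type} [Group Γ] {N G : Subgroup Γ} [N.Normal] [G.Normal]
    (hNG : N ≤ G) (hp : IsPGroup p (Γ ⧸ N)) : IsPGroup p (Γ ⧸ G) := by
  intro x
  obtain ⟨g, rfl⟩ := QuotientGroup.mk_surjective x
  obtain ⟨k, hk⟩ := hp (g : Γ ⧸ N)
  rw [← QuotientGroup.mk_pow, QuotientGroup.eq_one_iff] at hk
  refine ⟨k, ?_⟩
  rw [← QuotientGroup.mk_pow, QuotientGroup.eq_one_iff]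
  exact hNG hk

/-- **Strong block-free form.** -/
theorem free_strong (p : ℕ) [Fact p.Prime] (F : Type) [Field F] [IsAlgClosed F] [CharP F p]
    (X : ∀ (H : Type) [Group H], Prop) (hX : Closed p X) :
    (∀ (H : Type) [Group H] [Finite H], X H → Reduced p H →
      NavarroSum p F (⊤ : Subgroup H)) ↔
    ∀ (Γ : Type) [Group Γ] [Finite Γ] (N G : Subgroup Γ) [N.Normal] [G.Normal], N ≤ G → X N →
      IsPGroup p (Γ ⧸ N) → NavarroSum p F G := by
  constructor
  · intro h Γ _ _ N G _ _ hNG hN hp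
    refine (free_form p F (fun H _ => XP p X H) (xp_closed p X hX)).1 ?_ Γ G
      (xp_of p X hX Γ N G hNG hN hp) (pgroup_of_le hNG hp)
    rintro H _ _ ⟨K, hK, hXK, hpK⟩
    rw [navarroSum_top]
    refine (reduction p X hX).1 ?_ H K hXK hpK
    intro L _ _ hL h1 h2
    exact (navarroSum_top p F L).1 (h L hL ⟨h1, h2⟩)
  · intro h H _ _ hH _
    exact h H ⊤ ⊤ le_rfl (hX.iso _ _ hH ⟨Subgroup.topEquiv.symm⟩) (pgroup_top p H)

end Pool.Agent.Y63.NV
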