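import Pool.Agent.Y63.NV.Stm9

/-!
# Single central elements and blocks, for a normal subgroup
-/

open scoped Classical

noncomputable section

namespace Pool.Agent.Y63.NV

open Pool.Agent.Y63.AWC (IsIrreducibleCharacter)

/-- WINV: the weights for `p`-subgroups `Q` with `G Q = Γ` lie over invariant blocks of `G` -/
def S_WINV : Prop := ∀ (p : ℕ) [Fact p.Prime] (F : Type) [Field F] [IsAlgClosed F] [CharP F p]
  (red : integralClosure ℤ ℂ →+* F) (Γ : Type) [Group Γ] [Finite Γ] (G : Subgroup Γ) [G.Normal]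
  (Q : Subgroup Γ) (χ : Subgroup.normalizer (Q : Set Γ) → ℂ), IsPGroup p Q → G ⊔ Q = ⊤ →
    IsWt p (Q.subgroupOf (Subgroup.normalizer (Q : Set Γ))) χ →
    ∃ B : (G → F) → F, IsBlock B ∧ IsInvBlock G B ∧
      ∀ z : Γ → F, InZ G z → centralValue red χ (fun x => z x) = B (fun x : G => z x)

/-- GBASE: from the blockwise equality to single central elements, for a normal subgroup -/
def S_GBASE : Prop := ∀ (p : ℕ) [Fact p.Prime] (F : Type) [Field F] [IsAlgClosed F] [CharP F p]
  (red : integralClosure ℤ ℂ →+* F) (Γ : Type) [Group Γ] [Finite Γ] (G : Subgroup Γ) [G.Normal],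
    IsPGroup p (Γ ⧸ G) → Navarro p red G → ∀ z : Γ → F, InZ G z → ∀ c : F,
    Lsum G ⊤ z c = Wsum p red G ⊤ z c

end Pool.Agent.Y63.NV
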