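import Pool.Agent.Y63.NV.Final
import Pool.Agent.Y63.NV.Stm10

/-!
# From the blockwise equality to single central elements, for a normal subgroup
-/

open scoped Classical BigOperators

set_option linter.unusedSectionVars false

noncomputable section

namespace Pool.Agent.Y63.NV.GB

open Pool.Agent.Y63.NV
open Pool.Agent.Y63.AWC (IsIrreducibleCharacter pSubgroupSetoid)
open Pool.Agent.Y286.NV
open Pool.Agent.Helper884.IC (IsIrrChar irr_finite)

/-- counting by the values of a map -/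
theorem card_fib {X R : Type} [Finite X] (r : X → R) (S : Finset R) (hS : ∀ x, r x ∈ S)
    (P : R → Prop) : Nat.card {x // P (r x)} =
      ∑ β ∈ S, if P β then Nat.card {x // r x = β} else 0 := by
  have : Fintype X := Fintype.ofFinite X
  rw [Nat.card_eq_fintype_card, Fintype.card_subtype,
    Finset.card_eq_sum_card_fiberwise (f := r) (t := S) (fun x _ => hS x)]
  refine Finset.sum_congr rfl fun β _ => ?_
  by_cases h : P β
  · rw [if_pos h, Nat.card_eq_fintype_card, Fintype.card_subtype]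
    congr 1
    ext x
    simp only [Finset.mem_filter, Finset.mem_univ, true_and]
    constructor
    · exact fun h' => h'.2
    · rintro rfl
      exact ⟨h, rfl⟩
  · rw [if_neg h, Finset.card_eq_zero, Finset.filter_eq_empty_iff]
    rintro x hx rfl
    exact h (Finset.mem_filter.1 hx).2

/-- a sum over all `p`-subgroups -/
theorem sum_sub {Γ : Type} [Group Γ] [Finite Γ] [Fintype (Subgroup Γ)] (p : ℕ)
    (f : Subgroup Γ → ℕ) :
    ∑ᶠ Q : {Q : Subgroup Γ // IsPGroup p Q}, f Q.1 =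
      ∑ Q : Subgroup Γ, if IsPGroup p Q then f Q else 0 := by
  have : Fintype {Q : Subgroup Γ // IsPGroup p Q} := Fintype.ofFinite _
  rw [finsum_eq_sum_of_fintype, ← Finset.sum_filter]
  exact (Finset.sum_subtype (p := fun Q : Subgroup Γ => IsPGroup p Q)
      (Finset.univ.filter fun Q : Subgroup Γ => IsPGroup p Q) (by simp) f).symm

theorem gbase (hw : S_WINV) : S_GBASE := by
  intro p _ F _ _ _ red Γ _ _ G hG hpG hNav z hz c
  have : Fintype Γ := Fintype.ofFinite Γ
  have : Fintype (Subgroup Γ) := Fintype.ofFinite _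
  -- the traces
  let X : Type := {φ : G → F // IsIrrTrace φ ∧ IsInvUnder ⊤ φ}
  have hX : Finite X := ((Pool.Agent.Y914.NV.irr F G).1.subset (fun φ h => h.1)).to_subtype
  choose hne BX hBX hact using fun φ : X => schur' F G φ.1 φ.2.1
  have hfX : Fintype X := Fintype.ofFinite X
  -- the weights
  let Y : Subgroup Γ → Type := fun Q => {χ : Subgroup.normalizer (Q : Set Γ) → ℂ //
    IsWt p (Q.subgroupOf (Subgroup.normalizer (Q : Set Γ))) χ}
  have hY : ∀ Q, Finite (Y Q) := fun Q =>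
    ((Pool.Agent.Y914.NV.irr ℂ (Subgroup.normalizer (Q : Set Γ))).1.subset
      (fun χ h => h.irr)).to_subtype
  have hfY : ∀ Q, Fintype (Y Q) := fun Q => Fintype.ofFinite (Y Q)
  let rX : X → (ZG F G →ₗ[F] F) := fun φ => blkF (hBX φ)
  let rY : ∀ Q, Y Q → (ZG F G →ₗ[F] F) := fun Q χ => wtF G red _ χ.1
  let T : Finset (Subgroup Γ) := Finset.univ.filter (fun Q => IsPGroup p Q ∧ G ⊔ Q = ⊤)
  let S : Finset (ZG F G →ₗ[F] F) := Finset.univ.image rX ∪
    T.biUnion (fun Q => Finset.univ.image (rY Q))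
  have hSX : ∀ φ, rX φ ∈ S := fun φ =>
    Finset.mem_union_left _ (Finset.mem_image_of_mem _ (Finset.mem_univ _))
  have hSY : ∀ Q ∈ T, ∀ χ, rY Q χ ∈ S := fun Q hQ χ =>
    Finset.mem_union_right _ (Finset.mem_biUnion.2 ⟨Q, hQ,
      Finset.mem_image_of_mem _ (Finset.mem_univ _)⟩)
  have hS : ∀ β ∈ S, ∃ (B : (G → F) → F) (hB : IsBlock B), IsInvBlock G B ∧ blkF hB = β := by
    intro β hβ
    rcases Finset.mem_union.1 hβ with h | h
    · obtain ⟨φ, -, rfl⟩ := Finset.mem_image.1 h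
      exact ⟨BX φ, hBX φ, inv_block φ.2.2 (hne φ) (hact φ), rfl⟩
    · obtain ⟨Q, hQ, h⟩ := Finset.mem_biUnion.1 h
      obtain ⟨χ, -, rfl⟩ := Finset.mem_image.1 h
      have hQ' := (Finset.mem_filter.1 hQ).2
      obtain ⟨B, hB, hBi, hBz⟩ := hw p F red Γ G Q χ.1 hQ'.1 hQ'.2 χ.2
      refine ⟨B, hB, hBi, ?_⟩
      refine LinearMap.ext fun z => ?_
      exact (hBz z.1 z.2).symm
  -- the equality for a functional
  have key : ∀ β ∈ S, Nat.card Γ * Nat.card {φ : X // rX φ = β} =
      ∑ Q ∈ T, Nat.card (Subgroup.normalizer (Q : Set Γ)) * Nat.card {χ : Y Q // rY Q χ = β} := by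
    intro β hβ
    obtain ⟨B, hB, hBi, rfl⟩ := hS β hβ
    have h3 := hNav B hB hBi
    have e1 : numIBr G B = Nat.card {φ : X // rX φ = blkF hB} := by
      unfold numIBr
      refine Nat.card_congr
        { toFun := fun φ => ⟨⟨φ.1, φ.2.1, φ.2.2.1⟩, ?_⟩
          invFun := fun φ => ⟨φ.1.1, φ.1.2.1, φ.1.2.2, ?_⟩
          left_inv := fun φ => rfl
          right_inv := fun φ => rfl }
      · refine LinearMap.ext fun f => ?_
        obtain ⟨x, hx⟩ := hne ⟨φ.1, φ.2.1, φ.2.2.1⟩
        have h4 := hact ⟨φ.1, φ.2.1, φ.2.2.1⟩ (fun x : G => f.1 x) (res_classFun f.2 G) x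
        have h5 := φ.2.2.2 (fun x : G => f.1 x) (res_classFun f.2 G) x
        exact mul_right_cancel₀ hx (h4.symm.trans h5)
      · intro f hf x
        have h4 := hact φ.1 f hf x
        have h6 := Pool.Agent.Y405.NV.rinj p F Γ G hpG (BX φ.1) B (hBX φ.1) hB
          (inv_block φ.1.2.2 (hne φ.1) (hact φ.1)) hBi (fun z' hz' =>
            LinearMap.congr_fun φ.2 (⟨z', hz'⟩ : ZG F G))
        rw [← h6 f hf]
        exact h4
    have e2 : ∀ Q : Subgroup Γ, numDz p red G Q B =
        Nat.card {χ : Y Q // rY Q χ = blkF hB} := by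
      intro Q
      unfold numDz
      refine Nat.card_congr
        { toFun := fun χ => ⟨⟨χ.1, χ.2.1⟩, ?_⟩
          invFun := fun χ => ⟨χ.1.1, χ.1.2, ?_⟩
          left_inv := fun χ => rfl
          right_inv := fun χ => rfl }
      · refine LinearMap.ext fun f => ?_
        exact χ.2.2 f.1 f.2
      · intro w hw'
        exact LinearMap.congr_fun χ.2 (⟨w, hw'⟩ : ZG F G)
    set f : Subgroup Γ → ℕ := fun Q => if G ⊔ Q = ⊤ then numDz p red G Q B else 0 with hf
    have hfc : ∀ (g : Γ) (Q : Subgroup Γ), f (Q.map (MulAut.conj g).toMonoidHom) = f Q := by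
      intro g Q
      simp only [hf]
      rw [numDz_conj, propext (sup_conj G g Q)]
    have h7 := orbit_weights p f hfc
    have h8 : Nat.card Γ * numIBr G B = ∑ᶠ Q : {Q : Subgroup Γ // IsPGroup p Q},
        Nat.card (Subgroup.normalizer (Q.1 : Set Γ)) * f Q.1 := by
      rw [h3]
      exact h7
    rw [← e1, h8, sum_sub p (fun Q => Nat.card (Subgroup.normalizer (Q : Set Γ)) * f Q),
      Finset.sum_filter]
    refine Finset.sum_congr rfl fun Q _ => ?_
    by_cases hQ : IsPGroup p Q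
    · by_cases hGQ : G ⊔ Q = ⊤
      · rw [if_pos hQ, if_pos ⟨hQ, hGQ⟩, ← e2 Q]
        simp only [hf]
        rw [if_pos hGQ]
      · rw [if_pos hQ, if_neg (fun h => hGQ h.2)]
        simp only [hf]
        rw [if_neg hGQ, mul_zero]
    · rw [if_neg hQ, if_neg (fun h => hQ h.1)]
  -- the two sides
  let zC : ZG F G := ⟨z, hz⟩
  have e3 : Lnum G ⊤ z c = Nat.card {φ : X // rX φ zC = c} := by
    unfold Lnum
    refine Nat.card_congr
      { toFun := fun φ => ⟨⟨φ.1, φ.2.1, φ.2.2.1⟩, ?_⟩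
        invFun := fun φ => ⟨φ.1.1, φ.1.2.1, φ.1.2.2, ?_⟩
        left_inv := fun φ => rfl
        right_inv := fun φ => rfl }
    · obtain ⟨x, hx⟩ := hne ⟨φ.1, φ.2.1, φ.2.2.1⟩
      have h4 := hact ⟨φ.1, φ.2.1, φ.2.2.1⟩ (fun x : G => z x) (res_classFun hz G) x
      have h5 := φ.2.2.2 x
      exact mul_right_cancel₀ hx (h4.symm.trans h5)
    · intro x
      have h4 := hact φ.1 (fun x : G => z x) (res_classFun hz G) x
      have h5 : BX φ.1 (fun x : G => z x) = c := φ.2
      exact h4.trans (congrArg (fun t => t * φ.1.1 x) h5)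
  have e4 : ∀ Q : Subgroup Γ, Nw p red (Q.subgroupOf (Subgroup.normalizer (Q : Set Γ)))
      (fun x => z x) c = Nat.card {χ : Y Q // rY Q χ zC = c} := by
    intro Q
    unfold Nw
    exact Nat.card_congr
      { toFun := fun χ => ⟨⟨χ.1, χ.2.1⟩, χ.2.2⟩
        invFun := fun χ => ⟨χ.1.1, χ.1.2, χ.2⟩
        left_inv := fun χ => rfl
        right_inv := fun χ => rfl }
  have hL : Lsum G ⊤ z c = ((Nat.card Γ * Lnum G ⊤ z c : ℕ) : ℤ) := by
    unfold Lsum
    rw [if_pos (sup_top_eq G), inf_top_eq, Subgroup.card_top, Nat.cast_mul]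
  have hW : Wsum p red G ⊤ z c = ((∑ Q ∈ T, Nat.card (Subgroup.normalizer (Q : Set Γ)) *
      Nat.card {χ : Y Q // rY Q χ zC = c} : ℕ) : ℤ) := by
    unfold Wsum
    rw [finsum_eq_sum_of_fintype, Nat.cast_sum, Finset.sum_filter]
    refine Finset.sum_congr rfl fun Q _ => ?_
    have h5 : ∀ J : Subgroup Γ, J = Subgroup.normalizer (Q : Set Γ) →
        (Nat.card J : ℤ) * Nw p red (Q.subgroupOf J) (fun x => z x) c =
        ((Nat.card (Subgroup.normalizer (Q : Set Γ)) *
          Nat.card {χ : Y Q // rY Q χ zC = c} : ℕ) : ℤ) := by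
      rintro J rfl
      rw [e4 Q, Nat.cast_mul]
    by_cases hQ : IsPGroup p Q ∧ G ⊔ Q = ⊤
    · rw [if_pos ⟨hQ.1, le_top, hQ.2⟩, if_pos hQ]
      exact h5 _ (top_inf_eq _)
    · rw [if_neg (fun h => hQ ⟨h.1, h.2.2⟩), if_neg hQ]
  rw [hL, hW]
  congr 1
  rw [e3, card_fib rX S hSX (fun β => β zC = c), Finset.mul_sum]
  have e6 : ∀ Q ∈ T, Nat.card (Subgroup.normalizer (Q : Set Γ)) *
      Nat.card {χ : Y Q // rY Q χ zC = c} = ∑ β ∈ S, if β zC = c then
        Nat.card (Subgroup.normalizer (Q : Set Γ)) * Nat.card {χ : Y Q // rY Q χ = β} else 0 := by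
    intro Q hQ
    rw [card_fib (rY Q) S (hSY Q hQ) (fun β => β zC = c), Finset.mul_sum]
    refine Finset.sum_congr rfl fun β _ => ?_
    rw [mul_ite, mul_zero]
  rw [Finset.sum_congr rfl e6, Finset.sum_comm]
  refine Finset.sum_congr rfl fun β hβ => ?_
  by_cases h : β zC = c
  · simp only [if_pos h]
    exact key β hβ
  · simp only [if_neg h]
    rw [Finset.sum_const_zero, mul_zero]

end Pool.Agent.Y63.NV.GB
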