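import Pool.Agent.Y63.NV.Stm5

/-!
# Alternating sums and blocks of defect zero
-/

open scoped Classical

noncomputable section

namespace Pool.Agent.Y63.NV

open Pool.Agent.Y63.AWC (IsIrreducibleCharacter pSubgroupSetoid numDefectZero numWeights
  numRegularClasses)
open Pool.Agent.Y63.KR (IsPChain chainStabilizer alternatingSum conjSub)

/-- KCUT: reduced central characters and normal `p`-subgroups -/
def S_KCUT : Prop := ∀ (p : ℕ) [Fact p.Prime] (F : Type) [Field F] [IsAlgClosed F] [CharP F p]
  (red : integralClosure ℤ ℂ →+* F) (J : Type) [Group J] [Finite J] (Q : Subgroup J) [Q.Normal]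
  (f : J → F) (χ : J → ℂ), IsPGroup p Q → IsClassFun f → IsIrreducibleCharacter χ →
    centralValue red χ (cut f (Subgroup.centralizer (Q : Set J))) = centralValue red χ f

/-- KSEP: the central idempotent of a character of defect zero -/
def S_KSEP : Prop := ∀ (p : ℕ) [Fact p.Prime] (F : Type) [Field F] [CharP F p]
  (red : integralClosure ℤ ℂ →+* F) (G : Type) [Group G] [Finite G] (χ₀ : G → ℂ),
    IsWt p (⊥ : Subgroup G) χ₀ → ∃ f : G → F, IsClassFun f ∧
      (∀ x : G, p ∣ Nat.card ↥(Subgroup.centralizer {x}) → f x = 0) ∧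
      ∀ χ : G → ℂ, IsIrreducibleCharacter χ → (centralValue red χ f ≠ 0 ↔ χ = χ₀)

/-- KDZ: the alternating sum for a block which contains a character of defect zero -/
def S_KDZ : Prop := ∀ (p : ℕ) [Fact p.Prime] (F : Type) [Field F] [IsAlgClosed F] [CharP F p]
  (red : integralClosure ℤ ℂ →+* F) (G : Type) [Group G] [Finite G] (B : (G → F) → F),
    numDzBlock p red B ≠ 0 →
      alternatingSum p G (fun H => (numIrrInd red H B : ℤ)) = numDzBlock p red B

/-- The blockwise form of the Knörr-Robinson conjecture: `∑_σ (-1)^|σ| k(B_σ) = 0` for all blocks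
`B` of `G` without characters of defect zero. -/
def KRQ (p : ℕ) {F : Type} [Field F] (red : integralClosure ℤ ℂ →+* F) (G : Type) [Group G] :
    Prop :=
  ∀ B : (G → F) → F, IsBlock B → numDzBlock p red B = 0 →
    alternatingSum p G (fun H => (numIrrInd red H B : ℤ)) = 0

end Pool.Agent.Y63.NV
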