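import Pool.Agent.Y63.NV.Stm2

/-!
# Alternating sums of numbers of ordinary characters in blocks: statements of the parts
-/

open scoped Classical

noncomputable section

namespace Pool.Agent.Y63.NV

open Pool.Agent.Y63.AWC (IsIrreducibleCharacter pSubgroupSetoid numDefectZero numWeights
  numRegularClasses)
open Pool.Agent.Y63.KR (IsPChain chainStabilizer alternatingSum conjSub)

/-- the number of irreducible complex characters of `J` whose reduced central character takes the
value `c` at `f` -/
def Knum {F : Type} [Field F] (red : integralClosure ℤ ℂ →+* F) {J : Type} [Group J] (f : J → F)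
    (c : F) : ℕ :=
  Nat.card {χ : J → ℂ // IsIrreducibleCharacter χ ∧ centralValue red χ f = c}

/-- the operator `(K θ)(x) = ∑_g z(g) θ(g x)` for `x ∈ S`, and `0` outside `S`, as a function -/
def Kfun {Γ F : Type} [Group Γ] [Field F] (z : Γ → F) (S : Set Γ) (θ : Γ → F) : Γ → F :=
  fun x => if x ∈ S then ∑ᶠ g : Γ, z g * θ (g * x) else 0

/-- the operator `K` -/
def Kop {Γ F : Type} [Group Γ] [Finite Γ] [Field F] (z : Γ → F) (S : Set Γ) :
    Module.End F (Γ → F) where
  toFun := Kfun z S
  map_add' a b := by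
    funext x
    by_cases hx : x ∈ S
    · simp only [Kfun, hx, if_true, Pi.add_apply, mul_add]
      exact finsum_add_distrib (Set.toFinite _) (Set.toFinite _)
    · simp [Kfun, hx]
  map_smul' c a := by
    funext x
    by_cases hx : x ∈ S
    · simp only [Kfun, hx, if_true, Pi.smul_apply, smul_eq_mul, RingHom.id_apply]
      rw [← smul_eq_mul, smul_finsum' c (Set.toFinite _)]
      refine finsum_congr fun g => ?_
      rw [smul_eq_mul]
      ring
    · simp [Kfun, hx]

/-- the multiplicity of the eigenvalue `c` of `K` on the `J`-invariant functions on `S` -/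
def gk {Γ F : Type} [Group Γ] [Finite Γ] [Field F] (z : Γ → F) (S : Set Γ) (J : Subgroup Γ)
    (c : F) : ℕ :=
  Module.finrank F ↥(VS S J ⊓ (Kop z S).maxGenEigenspace c)

/-- the elements `x` of `C_J(R)` such that `|C_J(x)|_p = |R|_p` -/
def SA (p : ℕ) {Γ : Type} [Group Γ] (J R : Subgroup Γ) : Set Γ :=
  {x | x ∈ J ∧ (∀ r ∈ R, r * x = x * r) ∧
    (Nat.card ↥(J ⊓ Subgroup.centralizer {x})).factorization p = (Nat.card R).factorization p}

/-- KDIM: the number of irreducible characters with a given value of the central character as the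
multiplicity of an eigenvalue -/
def S_KDIM : Prop := ∀ (p : ℕ) [Fact p.Prime] (F : Type) [Field F] [IsAlgClosed F] [CharP F p]
  (red : integralClosure ℤ ℂ →+* F) (J : Type) [Group J] [Finite J] (f : J → F) (c : F),
    IsClassFun f → Knum red f c = gk f Set.univ (⊤ : Subgroup J) c

/-- KDIMH: the same for a subgroup -/
def S_KDIMH : Prop := ∀ (p : ℕ) [Fact p.Prime] (F : Type) [Field F] [IsAlgClosed F] [CharP F p]
  (red : integralClosure ℤ ℂ →+* F) (Γ : Type) [Group Γ] [Finite Γ] (H : Subgroup Γ) (z : Γ → F)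
  (c : F), (∀ h ∈ H, ∀ x : Γ, z (h * x * h⁻¹) = z x) → (∀ x : Γ, x ∉ H → z x = 0) →
    Knum red (fun x : H => z x) c = gk z (H : Set Γ) H c

/-- KFILT: the filtration by the Sylow `p`-subgroups of the centralisers -/
def S_KFILT : Prop := ∀ (p : ℕ) [Fact p.Prime] (F : Type) [Field F] [IsAlgClosed F] [CharP F p]
  (Γ : Type) [Group Γ] [Finite Γ] (H : Subgroup Γ) (z : Γ → F) (c : F),
    (∀ h ∈ H, ∀ x : Γ, z (h * x * h⁻¹) = z x) → (∀ x : Γ, x ∉ H → z x = 0) →
    Nat.card H * gk z (H : Set Γ) H c =
      ∑ᶠ R : Subgroup Γ, if IsPGroup p R ∧ R ≤ H then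
        Nat.card ↥(H ⊓ Subgroup.normalizer (R : Set Γ)) *
          gk (cut z (Subgroup.centralizer (R : Set Γ)))
            (SA p (H ⊓ Subgroup.normalizer (R : Set Γ)) R)
            (H ⊓ Subgroup.normalizer (R : Set Γ)) c else 0

/-- the elements of `H` which are `H`-conjugate to elements of `SA p (N_H(R)) R` -/
def SCA (p : ℕ) {Γ : Type} [Group Γ] (H R : Subgroup Γ) : Set Γ :=
  {x | ∃ h ∈ H, h * x * h⁻¹ ∈ SA p (H ⊓ Subgroup.normalizer (R : Set Γ)) R}

/-- KFILTA: one step of the filtration -/
def S_KFILTA : Prop := ∀ (p : ℕ) [Fact p.Prime] (F : Type) [Field F] [IsAlgClosed F] [CharP F p]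
  (Γ : Type) [Group Γ] [Finite Γ] (H : Subgroup Γ) (z : Γ → F) (c : F),
    (∀ h ∈ H, ∀ x : Γ, z (h * x * h⁻¹) = z x) → (∀ x : Γ, x ∉ H → z x = 0) →
    ∀ R : Subgroup Γ, IsPGroup p R → R ≤ H →
      gk z (SCA p H R) H c = gk (cut z (Subgroup.centralizer (R : Set Γ)))
            (SA p (H ⊓ Subgroup.normalizer (R : Set Γ)) R)
            (H ⊓ Subgroup.normalizer (R : Set Γ)) c

/-- the number of irreducible characters of the subgroup `H` of `G` in blocks which induce `B` -/
def numIrrInd {F : Type} [Field F] (red : integralClosure ℤ ℂ →+* F) {G : Type} [Group G]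
    (H : Subgroup G) (B : (G → F) → F) : ℕ :=
  Nat.card {χ : H → ℂ // IsIrreducibleCharacter χ ∧
    ∀ f : G → F, IsClassFun f → centralValue red χ (fun x => f x) = B f}

/-- the number of irreducible characters of defect zero in the block `B` -/
def numDzBlock (p : ℕ) {F : Type} [Field F] (red : integralClosure ℤ ℂ →+* F) {G : Type} [Group G]
    (B : (G → F) → F) : ℕ :=
  Nat.card {χ : G → ℂ // IsWt p (⊥ : Subgroup G) χ ∧
    ∀ f : G → F, IsClassFun f → centralValue red χ f = B f}

/-- The blockwise form of the Knörr-Robinson conjecture: `∑_σ (-1)^|σ| k(B_σ) = z(B)` for all blocks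
`B` of `G`, the sum over representatives of the classes of chains of nontrivial `p`-subgroups, the
empty chain included. -/
def KRB (p : ℕ) {F : Type} [Field F] (red : integralClosure ℤ ℂ →+* F) (G : Type) [Group G] :
    Prop :=
  ∀ B : (G → F) → F, IsBlock B →
    alternatingSum p G (fun H => (numIrrInd red H B : ℤ)) = numDzBlock p red B

/-- the same for all functions `B` (those which are not blocks contribute nothing, by S_KBLK) -/
def KRB' (p : ℕ) {F : Type} [Field F] (red : integralClosure ℤ ℂ →+* F) (G : Type) [Group G] :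
    Prop :=
  ∀ B : (G → F) → F,
    alternatingSum p G (fun H => (numIrrInd red H B : ℤ)) = numDzBlock p red B

/-- KBLK: `bl(χ)^G` is defined for the irreducible characters `χ` of the stabiliser of a chain -/
def S_KBLK : Prop := ∀ (p : ℕ) [Fact p.Prime] (F : Type) [Field F] [IsAlgClosed F] [CharP F p]
  (red : integralClosure ℤ ℂ →+* F) (G : Type) [Group G] [Finite G] (σ : Set (Subgroup G))
  (χ : chainStabilizer σ → ℂ), IsPChain p σ → IsIrreducibleCharacter χ →
    IsBlock (fun f : G → F => centralValue red χ (fun x => f x))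

/-- KFIN: from blocks to values of central characters -/
def S_KFIN : Prop := ∀ (p : ℕ) [Fact p.Prime] (F : Type) [Field F] [IsAlgClosed F] [CharP F p]
  (red : integralClosure ℤ ℂ →+* F) (G : Type) [Group G] [Finite G],
    KRB p red G ↔ ∀ (z : G → F) (c : F), IsClassFun z →
      (∑ᶠ σ : {σ : Set (Subgroup G) // IsPChain p σ}, (-1) ^ σ.1.ncard *
        ((Nat.card (chainStabilizer σ.1) : ℤ) *
          Knum red (fun x : chainStabilizer σ.1 => z x) c)) =
      (Nat.card G : ℤ) * Nw p red (⊥ : Subgroup G) z c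

/-- KFIN': the same for `KRB'` -/
def S_KFIN' : Prop := ∀ (p : ℕ) [Fact p.Prime] (F : Type) [Field F] [IsAlgClosed F] [CharP F p]
  (red : integralClosure ℤ ℂ →+* F) (G : Type) [Group G] [Finite G],
    KRB' p red G ↔ ∀ (z : G → F) (c : F), IsClassFun z →
      (∑ᶠ σ : {σ : Set (Subgroup G) // IsPChain p σ}, (-1) ^ σ.1.ncard *
        ((Nat.card (chainStabilizer σ.1) : ℤ) *
          Knum red (fun x : chainStabilizer σ.1 => z x) c)) =
      (Nat.card G : ℤ) * Nw p red (⊥ : Subgroup G) z c

end Pool.Agent.Y63.NV
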