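import Pool.Agent.Y63.NV.Kalt
import Pool.Agent.Y63.NV.Stm6
import Pool.Agent.Y889.NV.Kdim
import Pool.Agent.Y761.NV.Kdimh
import Pool.Agent.Y748.NV.Kfilta
import Pool.Agent.Y85.NV.KFilt
import Pool.Agent.Y171.NV.Kfin

/-!
# The blockwise alternating sum form and extensions by `p`-groups
-/

open scoped Classical BigOperators

noncomputable section

namespace Pool.Agent.Y63.NV

theorem kdimh' : S_KDIMH := Pool.Agent.Y761.NV.kdimh Pool.Agent.Y889.NV.kdim

theorem kfilt' : S_KFILT := Pool.Agent.Y85.NVK.kfilt Pool.Agent.Y487.NV.la Pool.Agent.Y748.NV.kfilta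

theorem krq_iff (hD : S_KDZ) {p : ℕ} [Fact p.Prime] {F : Type} [Field F] [IsAlgClosed F]
    [CharP F p] (red : integralClosure ℤ ℂ →+* F) (G : Type) [Group G] [Finite G] :
    KRQ p red G ↔ KRB p red G := by
  constructor
  · intro h B hB
    by_cases h0 : numDzBlock p red B = 0
    · rw [h B hB h0, h0, Nat.cast_zero]
    · exact hD p F red G B h0
  · intro h B hB h0
    rw [h B hB, h0, Nat.cast_zero]

/-- **The alternating sum form and extensions by `p`-groups.** -/
theorem krq_strong (hB : S_KBLK) (hD : S_KDZ)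
    {p : ℕ} [Fact p.Prime] {F : Type} [Field F] [IsAlgClosed F] [CharP F p]
    (red : integralClosure ℤ ℂ →+* F) (X : ∀ (H : Type) [Group H], Prop) (hX : Closed p X) :
    (∀ (H : Type) [Group H] [Finite H], X H → Reduced p H → KRQ p red H) ↔
    ∀ (Γ : Type) [Group Γ] [Finite Γ] (G : Subgroup Γ) [G.Normal], X G → IsPGroup p (Γ ⧸ G) →
      KRQ p red Γ := by
  have h := krb_strong kdimh' kfilt' (Pool.Agent.Y171.NV.kfin hB) red X hX
  constructor
  · intro h1 Γ _ _ G _ hG hp
    rw [krq_iff hD]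
    exact h.1 (fun H _ _ hH hR => (krq_iff hD red H).1 (h1 H hH hR)) Γ G hG hp
  · intro h1 H _ _ hH hR
    rw [krq_iff hD]
    exact h.2 (fun Γ _ _ G _ hG hp => (krq_iff hD red Γ).1 (h1 Γ G hG hp)) H hH hR

end Pool.Agent.Y63.NV
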