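import Pool.Agent.Y63.NV.Stm6

/-!
# Chains above a central `p`-subgroup
-/

open scoped Classical

noncomputable section

namespace Pool.Agent.Y63.NV

open Pool.Agent.Y63.AWC (IsIrreducibleCharacter pSubgroupSetoid numDefectZero numWeights
  numRegularClasses)
open Pool.Agent.Y63.KR (IsPChain chainStabilizer alternatingSum conjSub conjSub_one conjSub_mul)

/-- `σ` is (the set of members of) a chain of `p`-subgroups of `G` which strictly contain `Z`. The
empty chain is allowed. -/
structure IsPChainZ (p : ℕ) {G : Type} [Group G] (Z : Subgroup G) (σ : Set (Subgroup G)) :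
    Prop where
  chain : IsChain (· ≤ ·) σ
  isPGroup : ∀ P ∈ σ, IsPGroup p P
  lt : ∀ P ∈ σ, Z < P

theorem conjZ_equivalence (p : ℕ) {G : Type} [Group G] (Z : Subgroup G) :
    Equivalence (fun σ τ : {σ : Set (Subgroup G) // IsPChainZ p Z σ} =>
      ∃ g : G, τ.1 = conjSub g '' σ.1) :=
  { refl := fun σ => ⟨1, by
      have : (conjSub (1 : G)) = id := funext conjSub_one
      rw [this, Set.image_id]⟩
    symm := by
      rintro σ τ ⟨g, hg⟩
      refine ⟨g⁻¹, ?_⟩
      rw [hg, ← Set.image_comp]
      have : conjSub g⁻¹ ∘ conjSub g = id := funext fun P => by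
        rw [Function.comp_apply, ← conjSub_mul, inv_mul_cancel, conjSub_one, id]
      rw [this, Set.image_id]
    trans := by
      rintro σ τ υ ⟨g, hg⟩ ⟨h, hh⟩
      refine ⟨h * g, ?_⟩
      rw [hh, hg, ← Set.image_comp]
      congr 1
      exact (funext fun P => conjSub_mul h g P).symm }

/-- Conjugacy of chains above `Z`. -/
def chainSetoidZ (p : ℕ) {G : Type} [Group G] (Z : Subgroup G) :
    Setoid {σ : Set (Subgroup G) // IsPChainZ p Z σ} where
  r σ τ := ∃ g : G, τ.1 = conjSub g '' σ.1
  iseqv := conjZ_equivalence p Z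

/-- The alternating sum `∑_σ (-1)^|σ| f(G_σ)` over representatives `σ` of the `G`-conjugacy classes
of chains of `p`-subgroups strictly containing `Z`, the empty chain included. -/
def alternatingSumZ (p : ℕ) {G : Type} [Group G] (Z : Subgroup G) (f : Subgroup G → ℤ) : ℤ :=
  ∑ᶠ c : Quotient (chainSetoidZ p Z), (-1) ^ c.out.1.ncard * f (chainStabilizer c.out.1)

/-- the number of irreducible characters in the block `B` which are inflated from characters of
`G/Z` of defect zero -/
def numWtIn (p : ℕ) {F : Type} [Field F] (red : integralClosure ℤ ℂ →+* F) {G : Type} [Group G]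
    (Z : Subgroup G) (B : (G → F) → F) : ℕ :=
  Nat.card {χ : G → ℂ // IsWt p Z χ ∧ ∀ f : G → F, IsClassFun f → centralValue red χ f = B f}

/-- The blockwise alternating sum form of the weight conjecture for `G`: if `Z = O_p(G)` is central,
then `∑_σ (-1)^|σ| k(B_σ) = 0` for all blocks `B` of `G` whose defect groups strictly contain `Z`,
that is, which contain no character inflated from a character of `G/Z` of defect zero; the sum is
over representatives of the classes of chains of `p`-subgroups which start at `Z`. -/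
def KRF (p : ℕ) {F : Type} [Field F] (red : integralClosure ℤ ℂ →+* F) (G : Type) [Group G] :
    Prop :=
  ∀ Z : Subgroup G, Z.Normal → IsPGroup p Z →
    (∀ M : Subgroup G, M.Normal → IsPGroup p M → M ≤ Z) → Z ≤ Subgroup.center G →
    ∀ B : (G → F) → F, IsBlock B → numWtIn p red Z B = 0 →
      alternatingSumZ p Z (fun H => (numIrrInd red H B : ℤ)) = 0

/-- KZ: the classes whose centraliser has Sylow `p`-subgroup `Z`, `Z` central -/
def S_KZ : Prop := ∀ (p : ℕ) [Fact p.Prime] (F : Type) [Field F] [IsAlgClosed F] [CharP F p]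
  (Γ : Type) [Group Γ] [Finite Γ] (Z J : Subgroup Γ) (z : Γ → F) (c : F),
    Z ≤ J → (∀ u ∈ Z, ∀ g ∈ J, u * g = g * u) → IsPGroup p Z →
    (∀ h ∈ J, ∀ x : Γ, z (h * x * h⁻¹) = z x) → (∀ x : Γ, x ∉ J → z x = 0) →
    gk z (SA p J Z) J c = Nat.card Z * gm p z (SR p J J Z) J c

/-- ALTZ: the alternating sum as a sum over all chains -/
def S_ALTZ : Prop := ∀ (p : ℕ) (G : Type) [Group G] [Finite G] (Z : Subgroup G) (f : Subgroup G → ℤ),
  Z.Normal → (∀ (g : G) (H : Subgroup G), f (conjSub g H) = f H) →
    (Nat.card G : ℤ) * alternatingSumZ p Z f =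
      ∑ᶠ σ : {σ : Set (Subgroup G) // IsPChainZ p Z σ}, (-1) ^ σ.1.ncard *
        ((Nat.card (chainStabilizer σ.1) : ℤ) * f (chainStabilizer σ.1))

/-- KFINZ: from values of central characters to blocks -/
def S_KFINZ : Prop := ∀ (p : ℕ) [Fact p.Prime] (F : Type) [Field F] [IsAlgClosed F] [CharP F p]
  (red : integralClosure ℤ ℂ →+* F) (G : Type) [Group G] [Finite G] (Z : Subgroup G), Z.Normal →
    (∀ (z : G → F) (c : F), IsClassFun z →
      (∑ᶠ σ : {σ : Set (Subgroup G) // IsPChainZ p Z σ}, (-1) ^ σ.1.ncard *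
        ((Nat.card (chainStabilizer σ.1) : ℤ) *
          Knum red (fun x : chainStabilizer σ.1 => z x) c)) =
      (Nat.card Z : ℤ) * ((Nat.card G : ℤ) * Nw p red Z z c)) →
    ∀ B : (G → F) → F, numWtIn p red Z B = 0 →
      alternatingSumZ p Z (fun H => (numIrrInd red H B : ℤ)) = 0

end Pool.Agent.Y63.NV
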