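import Pool.Agent.Y63.NV.KFinal
import Pool.Agent.Y63.NV.Stm7

/-!
# Chains above a central `p`-subgroup
-/

open scoped Classical BigOperators

set_option linter.unusedSectionVars false

noncomputable section

namespace Pool.Agent.Y63.NV

open Pool.Agent.Y63.KR

section

variable {p : ℕ} [Fact p.Prime] {Γ : Type} [Group Γ] [Finite Γ]

lemma IsPChainZ.toIsPChain {Z : Subgroup Γ} {σ : Set (Subgroup Γ)} (h : IsPChainZ p Z σ) :
    IsPChain p σ :=
  ⟨h.chain, h.isPGroup, fun P hP h1 => by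
    have h2 := h.lt P hP
    rw [h1] at h2
    exact not_lt_bot h2⟩

lemma ne_bot_of_gt {Z R : Subgroup Γ} (hZR : Z < R) : R ≠ ⊥ := fun h => by
  rw [h] at hZR
  exact not_lt_bot hZR

lemma toggle_chainZ {Z R : Subgroup Γ} (hR : IsPGroup p R) (hZR : Z < R)
    {σ : Set (Subgroup Γ)} (hσ : IsPChainZ p Z σ) (hRσ : R ≤ chainStabilizer σ) :
    IsPChainZ p Z (toggle R σ) := by
  have h := (stab_le_toggle hR (ne_bot_of_gt hZR) hσ.toIsPChain hRσ).1
  refine ⟨h.chain, h.isPGroup, fun P hP => ?_⟩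
  unfold toggle at hP
  split_ifs at hP with h1
  · exact hσ.lt P hP.1
  · rcases hP with rfl | hP
    · exact hZR.trans_le (le_toggled R σ)
    · exact hσ.lt P hP

/-- the chains above `Z` normalised by a `p`-subgroup `R` above `Z` cancel -/
theorem tog_oneZ (w : Subgroup Γ → ℤ) {Z R : Subgroup Γ} (hR : IsPGroup p R) (hZR : Z < R)
    [Fintype {σ : Set (Subgroup Γ) // IsPChainZ p Z σ}] :
    ∑ σ : {σ : Set (Subgroup Γ) // IsPChainZ p Z σ}, (-1) ^ σ.1.ncard *
      (if R ≤ chainStabilizer σ.1 then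
        w (chainStabilizer σ.1 ⊓ Subgroup.normalizer (R : Set Γ)) else 0) = 0 := by
  have hR1 : R ≠ ⊥ := ne_bot_of_gt hZR
  set f : {σ : Set (Subgroup Γ) // IsPChainZ p Z σ} → ℤ := fun σ => (-1) ^ σ.1.ncard *
    w (chainStabilizer σ.1 ⊓ Subgroup.normalizer (R : Set Γ)) with hf
  have h1 : ∀ σ : {σ : Set (Subgroup Γ) // IsPChainZ p Z σ}, (-1) ^ σ.1.ncard *
      (if R ≤ chainStabilizer σ.1 then
        w (chainStabilizer σ.1 ⊓ Subgroup.normalizer (R : Set Γ)) else 0) =
      if R ≤ chainStabilizer σ.1 then f σ else 0 := by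
    intro σ
    by_cases h : R ≤ chainStabilizer σ.1
    · rw [if_pos h, if_pos h]
    · rw [if_neg h, if_neg h, mul_zero]
  rw [Finset.sum_congr rfl fun σ _ => h1 σ, ← Finset.sum_filter]
  refine Finset.sum_involution
    (fun σ hσ => ⟨toggle R σ.1, toggle_chainZ hR hZR σ.2 (Finset.mem_filter.mp hσ).2⟩)
    ?_ ?_ ?_ ?_
  · intro σ hσ
    have hσ1 := (Finset.mem_filter.mp hσ).2
    have h3 := (stab_toggle hR hR1 σ.2.toIsPChain hσ1).2
    simp only [hf]
    rw [ncard_toggle, h3]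
    ring
  · intro σ hσ _ h
    have h1 : toggle R σ.1 = σ.1 := congrArg Subtype.val h
    have h2 := ncard_toggle R σ.1
    rw [h1] at h2
    have h3 : ((-1 : ℤ)) ^ σ.1.ncard ≠ 0 := pow_ne_zero _ (by norm_num)
    omega
  · intro σ hσ
    rw [Finset.mem_filter]
    exact ⟨Finset.mem_univ _,
      (stab_toggle hR hR1 σ.2.toIsPChain (Finset.mem_filter.mp hσ).2).1⟩
  · intro σ hσ
    apply Subtype.ext
    exact toggle_toggle R σ.1

lemma central_le_stab {Z : Subgroup Γ} (hZ : Z ≤ Subgroup.center Γ) (σ : Set (Subgroup Γ)) :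
    Z ≤ chainStabilizer σ := by
  intro x hx
  rw [mem_chainStabilizer]
  intro P _
  rw [conjSub_eq_iff]
  exact Subgroup.centralizer_le_normalizer _ (by
    rw [Subgroup.mem_centralizer_iff]
    intro y _
    exact (Subgroup.mem_center_iff.mp (hZ hx) y))

lemma central_normal {Z : Subgroup Γ} (hZ : Z ≤ Subgroup.center Γ) : Z.Normal := by
  constructor
  intro x hx g
  have h := Subgroup.mem_center_iff.mp (hZ hx) g
  rw [h]
  simpa using hx

lemma normalizer_central {Z : Subgroup Γ} (hZ : Z ≤ Subgroup.center Γ) :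
    Subgroup.normalizer (Z : Set Γ) = ⊤ :=
  Subgroup.normalizer_eq_top_iff.mpr (central_normal hZ)

lemma central_le_normalizer {Z : Subgroup Γ} (hZ : Z ≤ Subgroup.center Γ) (R : Subgroup Γ) :
    Z ≤ Subgroup.normalizer (R : Set Γ) := by
  intro x hx
  exact Subgroup.centralizer_le_normalizer _ (by
    rw [Subgroup.mem_centralizer_iff]
    intro y _
    exact (Subgroup.mem_center_iff.mp (hZ hx) y))

/-- a sum over chains above `Z` of a function of this form only depends on the terms with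
`R = Z` -/
theorem chain_Z {Z : Subgroup Γ} (hZp : IsPGroup p Z) (hZ : Z ≤ Subgroup.center Γ)
    (w : Subgroup Γ → Subgroup Γ → ℤ) (f : Subgroup Γ → ℤ)
    (hf : ∀ H : Subgroup Γ, f H = ∑ᶠ R : Subgroup Γ, (if IsPGroup p R ∧ R ≤ H then
      w R (H ⊓ Subgroup.normalizer (R : Set Γ)) else 0))
    (hw : ∀ R J : Subgroup Γ, IsPGroup p R → R ≤ J → Z ≤ J → J ≤ Subgroup.normalizer (R : Set Γ) →
      ¬ Z ≤ R → w R J = 0)
    [Fintype {σ : Set (Subgroup Γ) // IsPChainZ p Z σ}] :
    ∑ σ : {σ : Set (Subgroup Γ) // IsPChainZ p Z σ}, (-1) ^ σ.1.ncard * f (chainStabilizer σ.1) =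
      ∑ σ : {σ : Set (Subgroup Γ) // IsPChainZ p Z σ}, (-1) ^ σ.1.ncard *
        w Z (chainStabilizer σ.1) := by
  have : Fintype (Subgroup Γ) := Fintype.ofFinite _
  simp only [hf, finsum_eq_sum_of_fintype, Finset.mul_sum]
  rw [Finset.sum_comm, Finset.sum_eq_single Z]
  · refine Finset.sum_congr rfl fun σ _ => ?_
    rw [if_pos ⟨hZp, central_le_stab hZ σ.1⟩, normalizer_central hZ, inf_top_eq]
  · intro R _ hR1
    by_cases hR : IsPGroup p R
    · by_cases hZR : Z ≤ R
      · have h := tog_oneZ (fun J => w R J) hR (lt_of_le_of_ne hZR (Ne.symm hR1))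
        refine Eq.trans ?_ h
        refine Finset.sum_congr rfl fun σ _ => ?_
        by_cases h1 : R ≤ chainStabilizer σ.1
        · rw [if_pos ⟨hR, h1⟩, if_pos h1]
        · rw [if_neg (fun h => h1 h.2), if_neg h1]
      · refine Finset.sum_eq_zero fun σ _ => ?_
        by_cases h1 : R ≤ chainStabilizer σ.1
        · rw [if_pos ⟨hR, h1⟩, hw R _ hR (le_inf h1 Subgroup.le_normalizer)
            (le_inf (central_le_stab hZ σ.1) (central_le_normalizer hZ R)) inf_le_right hZR,
            mul_zero]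
        · rw [if_neg (fun h => h1 h.2), mul_zero]
    · refine Finset.sum_eq_zero fun σ _ => ?_
      rw [if_neg (fun h => hR h.1), mul_zero]
  · intro h
    exact absurd (Finset.mem_univ _) h

lemma sup_pgroup {Z R : Subgroup Γ} (hZp : IsPGroup p Z) (hZ : Z ≤ Subgroup.center Γ)
    (hR : IsPGroup p R) : IsPGroup p ↥(R ⊔ Z) :=
  IsPGroup.to_sup_of_normal_left' hR hZp (central_le_normalizer hZ R)

lemma sa_empty {Z R J : Subgroup Γ} (hZp : IsPGroup p Z) (hZ : Z ≤ Subgroup.center Γ)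
    (hR : IsPGroup p R) (hRJ : R ≤ J) (hZJ : Z ≤ J) (hZR : ¬ Z ≤ R) : SA p J R = ∅ := by
  rw [Set.eq_empty_iff_forall_notMem]
  intro x hx
  have h1 : R ⊔ Z ≤ J ⊓ Subgroup.centralizer {x} := by
    refine sup_le (le_inf hRJ ?_) (le_inf hZJ ?_)
    · intro r hr
      rw [Subgroup.mem_centralizer_iff]
      intro y hy
      rw [Set.mem_singleton_iff.mp hy]
      exact (hx.2.1 r hr).symm
    · intro r hr
      rw [Subgroup.mem_centralizer_iff]
      intro y hy
      exact Subgroup.mem_center_iff.mp (hZ hr) y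
  have h2 := Subgroup.card_dvd_of_le h1
  obtain ⟨k, hk⟩ := IsPGroup.iff_card.1 (sup_pgroup hZp hZ hR)
  obtain ⟨l, hl⟩ := IsPGroup.iff_card.1 hR
  have hpr : p.Prime := Fact.out
  rw [hk, hpr.pow_dvd_iff_le_factorization Nat.card_pos.ne', hx.2.2, hl,
    hpr.factorization_pow, Finsupp.single_eq_same] at h2
  have h3 : Nat.card ↥(R ⊔ Z) ≤ Nat.card R := by
    rw [hk, hl]
    exact Nat.pow_le_pow_right hpr.pos h2
  have h4 : R = R ⊔ Z := Subgroup.eq_of_le_of_card_ge le_sup_left h3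
  exact hZR (by rw [h4]; exact le_sup_right)

lemma vs_empty {F : Type} [Field F] (J : Subgroup Γ) {S : Set Γ} (hS : S = ∅) :
    VS (F := F) S J = ⊥ := by
  rw [eq_bot_iff]
  intro v hv
  rw [Submodule.mem_bot]
  funext x
  exact hv.1 x (by rw [hS]; exact Set.notMem_empty x)

lemma gk_empty {F : Type} [Field F] (z : Γ → F) (J : Subgroup Γ) {S : Set Γ} (hS : S = ∅) (c : F) :
    gk z S J c = 0 := by
  unfold gk
  rw [vs_empty J hS, bot_inf_eq]
  exact finrank_bot F _

lemma gm_empty {F : Type} [Field F] (z : Γ → F) (J : Subgroup Γ) {S : Set Γ} (hS : S = ∅) (c : F) :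
    gm p z S J c = 0 := by
  unfold gm
  rw [vs_empty J hS, bot_inf_eq]
  exact finrank_bot F _

lemma sr_empty {Z R J : Subgroup Γ} (hZp : IsPGroup p Z) (hZ : Z ≤ Subgroup.center Γ)
    (hR : IsPGroup p R) (hRJ : R ≤ J) (hZJ : Z ≤ J) (hZR : ¬ Z ≤ R) : SR p J J R = ∅ := by
  have h := sa_empty hZp hZ hR hRJ hZJ hZR
  rw [Set.eq_empty_iff_forall_notMem] at h ⊢
  intro x hx
  exact h x ⟨hx.1, hx.2.2.1, hx.2.2.2⟩

lemma subgroupOf_normal {J R : Subgroup Γ} (h : J ≤ Subgroup.normalizer (R : Set Γ)) :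
    (R.subgroupOf J).Normal := by
  constructor
  intro x hx y
  rw [Subgroup.mem_subgroupOf] at hx ⊢
  exact (Subgroup.mem_normalizer_iff.mp (h y.2) x).mp hx

lemma subgroupOf_lt {J Q P : Subgroup Γ} (h : Q < P) (hP : P ≤ J) :
    Q.subgroupOf J < P.subgroupOf J := by
  refine lt_of_le_of_ne (fun x hx => h.le hx) fun h1 => ?_
  refine h.not_ge fun x hx => ?_
  have h2 : (⟨x, hP hx⟩ : J) ∈ P.subgroupOf J := hx
  rw [← h1] at h2
  exact h2

/-- no weights for `R` if `R` does not contain `Z` -/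
lemma nw_zero {F : Type} [Field F] (red : integralClosure ℤ ℂ →+* F)
    {R P J : Subgroup Γ} (hP : IsPGroup p P) (hRP : R < P) (hPJ : P ≤ J)
    (hJR : J ≤ Subgroup.normalizer (R : Set Γ)) (hJP : J ≤ Subgroup.normalizer (P : Set Γ))
    (f : J → F) (c : F) : Nw p red (R.subgroupOf J) f c = 0 := by
  unfold Nw
  rw [Nat.card_eq_zero]
  left
  constructor
  rintro ⟨χ, hχ, _⟩
  exact wtn p J (R.subgroupOf J) (P.subgroupOf J) χ (subgroupOf_normal hJR)
    (subgroupOf_normal hJP) hP.comap_subtype (subgroupOf_lt hRP hPJ) hχ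

lemma normalizer_sup_central {Z R : Subgroup Γ} (hZ : Z ≤ Subgroup.center Γ) :
    Subgroup.normalizer (R : Set Γ) ≤ Subgroup.normalizer ((R ⊔ Z : Subgroup Γ) : Set Γ) := by
  intro x hx
  rw [← conjSub_eq_iff] at hx ⊢
  have : conjSub x (R ⊔ Z) = conjSub x R ⊔ conjSub x Z := Subgroup.map_sup _ _ _
  have h2 : conjSub x Z = Z := by
    rw [conjSub_eq_iff, normalizer_central hZ]
    trivial
  rw [this, hx, h2]

/-- the alternating sum of the numbers of weights, chains above `Z` -/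
theorem wsum_altZ {F : Type} [Field F] (red : integralClosure ℤ ℂ →+* F) {Z : Subgroup Γ}
    (hZp : IsPGroup p Z) (hZ : Z ≤ Subgroup.center Γ) (z : Γ → F) (c : F)
    (hz : IsClassFun z) [Fintype {σ : Set (Subgroup Γ) // IsPChainZ p Z σ}] :
    ∑ σ : {σ : Set (Subgroup Γ) // IsPChainZ p Z σ}, (-1) ^ σ.1.ncard *
      Wsum p red ⊤ (chainStabilizer σ.1) z c = (Nat.card Γ : ℤ) * Nw p red Z z c := by
  rw [chain_Z hZp hZ (fun R J => (Nat.card J : ℤ) *
    Nw p red (R.subgroupOf J) (fun x => z x) c) (fun H => Wsum p red ⊤ H z c)]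
  · have emptyZ : IsPChainZ p Z (∅ : Set (Subgroup Γ)) :=
      ⟨Set.pairwise_empty _, fun P hP => absurd hP (Set.notMem_empty P),
        fun P hP => absurd hP (Set.notMem_empty P)⟩
    rw [Finset.sum_eq_single (⟨∅, emptyZ⟩ : {σ : Set (Subgroup Γ) // IsPChainZ p Z σ})]
    · rw [Set.ncard_empty, pow_zero, one_mul]
      have e2 : ∀ J : Subgroup Γ, J = ⊤ → (Nat.card J : ℤ) *
          Nw p red (Z.subgroupOf J) (fun x => z x) c =
          (Nat.card Γ : ℤ) * Nw p red Z z c := by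
        rintro J rfl
        rw [Subgroup.card_top]
        congr 2
        exact Pool.Agent.Y624.NV.nw_congr p red (Subgroup.topEquiv (G := Γ))
          (fun x => Iff.rfl) (fun x => rfl) hz c
      exact e2 _ chainStabilizer_empty
    · intro σ _ hσ
      have hne : σ.1.Nonempty := by
        rw [Set.nonempty_iff_ne_empty]
        intro h
        exact hσ (Subtype.ext h)
      obtain ⟨P, hP, hmin⟩ := exists_least σ.2.chain hne
      have hle : P ≤ chainStabilizer σ.1 := by
        intro x hx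
        rw [mem_chainStabilizer]
        intro Q hQ
        rw [conjSub_eq_iff]
        exact Subgroup.le_normalizer (hmin Q hQ hx)
      rw [nw_zero red (σ.2.isPGroup P hP) (σ.2.lt P hP) hle
        (by rw [normalizer_central hZ]; exact le_top) (fun x hx => by
          rw [← conjSub_eq_iff]
          exact mem_chainStabilizer.mp hx P hP)]
      simp
    · intro h
      exact absurd (Finset.mem_univ _) h
  · intro H
    unfold Wsum
    refine finsum_congr fun R => ?_
    by_cases h : IsPGroup p R ∧ R ≤ H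
    · rw [if_pos ⟨h.1, h.2, top_sup_eq _⟩, if_pos h]
    · rw [if_neg (fun h' => h ⟨h'.1, h'.2.1⟩), if_neg h]
  · intro R J hR hRJ hZJ hJR hZR
    have hlt : R < R ⊔ Z := lt_of_le_of_ne le_sup_left fun h => hZR (by
      rw [h]; exact le_sup_right)
    rw [nw_zero red (sup_pgroup hZp hZ hR) hlt (sup_le hRJ hZJ) hJR
      (hJR.trans (normalizer_sup_central hZ))]
    simp

end

section

variable {p : ℕ} [Fact p.Prime] {F : Type} [Field F] [IsAlgClosed F] [CharP F p]
  {Γ : Type} [Group Γ] [Finite Γ]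

/-- ordinary characters and irreducible traces have proportional alternating sums -/
theorem kl_altZ (hKZ : S_KZ) (red : integralClosure ℤ ℂ →+* F) {Z : Subgroup Γ}
    (hZp : IsPGroup p Z) (hZ : Z ≤ Subgroup.center Γ) {z : Γ → F}
    (hz : IsClassFun z) (c : F) [Fintype {σ : Set (Subgroup Γ) // IsPChainZ p Z σ}] :
    ∑ σ : {σ : Set (Subgroup Γ) // IsPChainZ p Z σ}, (-1) ^ σ.1.ncard *
      ((Nat.card (chainStabilizer σ.1) : ℤ) *
        Knum red (fun x : chainStabilizer σ.1 => z x) c) =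
    (Nat.card Z : ℤ) * ∑ σ : {σ : Set (Subgroup Γ) // IsPChainZ p Z σ}, (-1) ^ σ.1.ncard *
      Lsum ⊤ (chainStabilizer σ.1) (cut z (chainStabilizer σ.1)) c := by
  have h1 := chain_Z hZp hZ (wK p z c)
    (fun H => (Nat.card H : ℤ) * Knum red (fun x : H => z x) c)
    (fun H => knum_eq kdimh' kfilt' red hz c H) (fun R J hR hRJ hZJ _ hZR => by
      unfold wK
      rw [gk_empty _ _ (sa_empty hZp hZ hR hRJ hZJ hZR), Nat.cast_zero, mul_zero])
  have h2 := chain_Z hZp hZ (wM p z c) (fun H => Lsum ⊤ H (cut z H) c)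
    (fun H => lnum_eq hz c H) (fun R J hR hRJ hZJ _ hZR => by
      unfold wM
      rw [gm_empty _ _ (sr_empty hZp hZ hR hRJ hZJ hZR), Nat.cast_zero, mul_zero])
  rw [h1, h2, Finset.mul_sum]
  refine Finset.sum_congr rfl fun σ _ => ?_
  unfold wK wM
  rw [hKZ p F Γ Z (chainStabilizer σ.1) _ c (central_le_stab hZ σ.1)
    (fun u hu g _ => (Subgroup.mem_center_iff.mp (hZ hu) g).symm) hZp ?_ ?_]
  · push_cast
    ring
  · intro h hh x
    have e1 : ∀ y : Γ, y ∈ Subgroup.centralizer (Z : Set Γ) := by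
      intro y
      rw [Subgroup.mem_centralizer_iff]
      intro w hw
      exact (Subgroup.mem_center_iff.mp (hZ hw) y).symm
    unfold cut
    rw [if_pos (e1 _), if_pos (e1 _)]
    exact cut_conj hz hh x
  · intro x hx
    unfold cut
    rw [if_neg hx]
    split_ifs <;> rfl

/-- the identity for the values of the central characters -/
theorem kz_sum (hKZ : S_KZ) (red : integralClosure ℤ ℂ →+* F) {Z : Subgroup Γ}
    (hZp : IsPGroup p Z) (hZ : Z ≤ Subgroup.center Γ)
    (hN : ∀ σ : Set (Subgroup Γ), IsPChainZ p Z σ →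
      Navarro p red (⊤ : Subgroup (chainStabilizer σ)))
    {z : Γ → F} (hz : IsClassFun z) (c : F) :
    (∑ᶠ σ : {σ : Set (Subgroup Γ) // IsPChainZ p Z σ}, (-1) ^ σ.1.ncard *
        ((Nat.card (chainStabilizer σ.1) : ℤ) *
          Knum red (fun x : chainStabilizer σ.1 => z x) c)) =
      (Nat.card Z : ℤ) * ((Nat.card Γ : ℤ) * Nw p red Z z c) := by
  have : Fintype {σ : Set (Subgroup Γ) // IsPChainZ p Z σ} := Fintype.ofFinite _
  rw [finsum_eq_sum_of_fintype, kl_altZ hKZ red hZp hZ hz c, ← wsum_altZ red hZp hZ z c hz]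
  congr 1
  refine Finset.sum_congr rfl fun σ _ => ?_
  rw [lw_sub red hz c _ (hN σ.1 σ.2)]

/-- the alternating sum form follows from the blockwise weight conjecture for subgroups -/
theorem krf_of_bawc (hKZ : S_KZ) (hFZ : S_KFINZ) (red : integralClosure ℤ ℂ →+* F)
    (h : ∀ H : Subgroup Γ, Navarro p red (⊤ : Subgroup H)) :
    KRF p red Γ := by
  intro Z hZn hZp _ hZ B _ hB
  exact hFZ p F red Γ Z hZn (fun z c hz => kz_sum hKZ red hZp hZ (fun σ _ => h _) hz c) B hB

lemma altSum_transport {G : Type} [Group G] (P Q : Set (Subgroup G) → Prop) (hPQ : P = Q)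
    (s : Setoid {σ : Set (Subgroup G) // P σ}) (t : Setoid {σ : Set (Subgroup G) // Q σ})
    (hs : ∀ a b, s.r a b ↔ ∃ g : G, b.1 = conjSub g '' a.1)
    (ht : ∀ a b, t.r a b ↔ ∃ g : G, b.1 = conjSub g '' a.1) (f : Set (Subgroup G) → ℤ) :
    ∑ᶠ c : Quotient s, f c.out.1 = ∑ᶠ c : Quotient t, f c.out.1 := by
  subst hPQ
  have : s = t := Setoid.ext fun a b => (hs a b).trans (ht a b).symm
  subst this
  rfl

lemma altSumZ_bot {G : Type} [Group G] (f : Subgroup G → ℤ) :
    alternatingSumZ p (⊥ : Subgroup G) f = alternatingSum p G f := by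
  unfold alternatingSumZ alternatingSum
  exact altSum_transport (fun σ => IsPChainZ p (⊥ : Subgroup G) σ) (fun σ => IsPChain p σ)
    (funext fun σ => propext ⟨fun h => ⟨h.chain, h.isPGroup, fun P hP => (h.lt P hP).ne'⟩,
      fun h => ⟨h.chain, h.isPGroup, fun P hP => bot_lt_iff_ne_bot.mpr (h.ne_bot P hP)⟩⟩)
    (chainSetoidZ p ⊥) (chainSetoid p G) (fun a b => Iff.rfl) (fun a b => Iff.rfl)
    (fun σ => (-1) ^ σ.ncard * f (chainStabilizer σ))

/-- the two forms agree if `O_p(G) = 1` -/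
theorem krq_of_krf (red : integralClosure ℤ ℂ →+* F)
    (hR : ∀ M : Subgroup Γ, M.Normal → IsPGroup p M → M = ⊥) (h : KRF p red Γ) :
    KRQ p red Γ := by
  intro B hB h0
  have h1 := h ⊥ inferInstance IsPGroup.of_bot (fun M hM hMp => (hR M hM hMp).le) bot_le B hB h0
  rwa [altSumZ_bot] at h1

end

/-- **The alternating sum form of the blockwise weight conjecture and extensions by
`p`-groups.** -/
theorem krf_strong (hB : S_KBLK) (hD : S_KDZ) (hKZ : S_KZ) (hFZ : S_KFINZ)
    {p : ℕ} [Fact p.Prime] {F : Type} [Field F] [IsAlgClosed F] [CharP F p]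
    (red : integralClosure ℤ ℂ →+* F) (X : ∀ (H : Type) [Group H], Prop) (hX : Closed p X) :
    (∀ (H : Type) [Group H] [Finite H], X H → Reduced p H → KRF p red H) ↔
    ∀ (Γ : Type) [Group Γ] [Finite Γ] (G : Subgroup Γ) [G.Normal], X G → IsPGroup p (Γ ⧸ G) →
      KRF p red Γ := by
  constructor
  · intro h Γ _ _ G hG hXG hp
    have key := bawc_reduction' red X hX ?_
    · refine krf_of_bawc hKZ hFZ red fun H => ?_
      exact key (Nat.card H) H le_rfl ((xp_closed p X hX).sub Γ ⟨G, hG, hXG, hp⟩ _)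
    · intro H _ _ hH hR hsmall
      have h1 : KRB p red H := (krq_iff hD red H).1 (krq_of_krf red hR.radical (h H hH hR))
      refine bawc_of_krb kdimh' kfilt' (Pool.Agent.Y171.NV.kfin hB) red (fun σ hσ hne => ?_) h1
      have hXP : XP p X (chainStabilizer σ) :=
        (xp_closed p X hX).sub H ⟨⊤, inferInstance,
          hX.iso _ _ hH ⟨Subgroup.topEquiv.symm⟩, pgroup_top p H⟩ _
      exact hsmall (chainStabilizer σ) hXP (stab_lt hR.radical hσ hne)
  · intro h H _ _ hH _
    exact h H ⊤ (hX.iso _ _ hH ⟨Subgroup.topEquiv.symm⟩) (pgroup_top p H)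

end Pool.Agent.Y63.NV
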