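import Pool.Agent.Y63.NV.Stm7

/-!
# A central `p`-subgroup: linear algebra
-/

open scoped Classical

noncomputable section

namespace Pool.Agent.Y63.NV

/-- KZLA: multiplicities of eigenvalues and finite `p`-groups -/
def S_KZLA : Prop := ∀ (p : ℕ) [Fact p.Prime] (F : Type) [Field F] [IsAlgClosed F] [CharP F p]
  (Z : Type) [Group Z] [Finite Z] (E : Type) [AddCommGroup E] [Module F E]
  [FiniteDimensional F E] (A : Z → Module.End F E) (K : Module.End F (Z → E)) (c : F),
    IsPGroup p Z → (∀ (θ : Z → E) (w : Z), K θ w = ∑ᶠ v : Z, A v (θ (v * w))) →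
    Module.finrank F ↥(K.maxGenEigenspace c) =
      Nat.card Z * Module.finrank F ↥((∑ᶠ v : Z, A v).maxGenEigenspace c)

end Pool.Agent.Y63.NV
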