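import Pool.Agent.Y63.NV.KZa
import Pool.Agent.Y63.NV.Stm8
import Pool.Agent.Y657.NV.KBlk
import Pool.Agent.Y255.NV.Kcut
import Pool.Agent.Y987.NV.Ksep
import Pool.Agent.Y339.NV.Kdz
import Pool.Agent.Y686.NV.Altz
import Pool.Agent.Y756.NV.Kfinz
import Pool.Agent.Y604.NV.Kzla
import Pool.Agent.Y968.NV.KZ

/-!
# The alternating sum form and extensions by `p`-groups
-/

open scoped Classical BigOperators

noncomputable section

namespace Pool.Agent.Y63.NV

theorem kdz' : S_KDZ := Pool.Agent.Y339.NV.kdz Pool.Agent.Y255.NV.kcut Pool.Agent.Y987.NV.ksep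

theorem kz' : S_KZ := Pool.Agent.Y968.NV.kz Pool.Agent.Y604.NV.kzla

theorem kfinz' : S_KFINZ := Pool.Agent.Y756.NV.kfinz Pool.Agent.Y686.NV.altz

/-- **The blockwise alternating sum form of the weight conjecture and extensions by
`p`-groups.** -/
theorem krf_form {p : ℕ} [Fact p.Prime] {F : Type} [Field F] [IsAlgClosed F] [CharP F p]
    (red : integralClosure ℤ ℂ →+* F) (X : ∀ (H : Type) [Group H], Prop) (hX : Closed p X) :
    (∀ (H : Type) [Group H] [Finite H], X H → Reduced p H → KRF p red H) ↔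
    ∀ (Γ : Type) [Group Γ] [Finite Γ] (G : Subgroup Γ) [G.Normal], X G → IsPGroup p (Γ ⧸ G) →
      KRF p red Γ :=
  krf_strong Pool.Agent.Y657.NV.kblk kdz' kz' kfinz' red X hX

end Pool.Agent.Y63.NV
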