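import Pool.Agent.Y63.NV.Free2
import Pool.Agent.Y63.KR.Levels
import Pool.Agent.Y63.KR.Chi

/-!
# Alternating sums over chains
-/

open scoped Classical BigOperators

set_option linter.unusedSectionVars false

noncomputable section

namespace Pool.Agent.Y63.NV

open Pool.Agent.Y63.KR
open Pool.Agent.Y63.AWC (IsIrreducibleCharacter pSubgroupSetoid numDefectZero numWeights
  numRegularClasses)

/-- a normal subgroup of `p`-power index of a `p`-perfect group -/
theorem xp_perfect {p : ℕ} [Fact p.Prime] {Γ : Type} [Group Γ] [Finite Γ]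
    (hN : ∀ N : Subgroup Γ, N.Normal → N.index ≠ p) {G : Subgroup Γ} [hG : G.Normal]
    (hp : IsPGroup p (Γ ⧸ G)) : G = ⊤ := by
  by_contra hne
  obtain ⟨k, hk⟩ := IsPGroup.iff_card.1 hp
  have hk0 : k ≠ 0 := by
    intro h0
    rw [h0, pow_zero] at hk
    exact hne (Subgroup.index_eq_one.1 hk)
  obtain ⟨N', hN'n, hN'i⟩ : ∃ N' : Subgroup (Γ ⧸ G), N'.Normal ∧ N'.index = p := by
    obtain ⟨N', hN'⟩ := Sylow.exists_subgroup_card_pow_prime (G := Γ ⧸ G) p (n := k - 1)
      (by rw [hk]; exact pow_dvd_pow p (Nat.sub_le k 1))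
    have hpr : p.Prime := Fact.out
    have hi : N'.index = p := by
      have e1 := N'.card_mul_index
      rw [hN', hk] at e1
      have e2 : p ^ k = p ^ (k - 1) * p := by
        rw [← pow_succ]
        congr 1
        omega
      rw [e2] at e1
      exact Nat.eq_of_mul_eq_mul_left (pow_pos hpr.pos _) e1
    refine ⟨N', Subgroup.normal_of_index_eq_minFac_card ?_, hi⟩
    rw [hi, hk, hpr.pow_minFac hk0]
  refine hN (N'.comap (QuotientGroup.mk' G)) (hN'n.comap _) ?_
  rw [Subgroup.index_comap_of_surjective _ (QuotientGroup.mk'_surjective G), hN'i]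

section

variable {p : ℕ} [Fact p.Prime] {Γ : Type} [Group Γ] [Finite Γ]

/-- the chains normalised by a nontrivial `p`-subgroup `R` cancel -/
theorem tog_one (w : Subgroup Γ → ℤ) {R : Subgroup Γ} (hR : IsPGroup p R) (hR1 : R ≠ ⊥)
    [Fintype {σ : Set (Subgroup Γ) // IsPChain p σ}] :
    ∑ σ : {σ : Set (Subgroup Γ) // IsPChain p σ}, (-1) ^ σ.1.ncard *
      (if R ≤ chainStabilizer σ.1 then
        w (chainStabilizer σ.1 ⊓ Subgroup.normalizer (R : Set Γ)) else 0) = 0 := by
  set f : {σ : Set (Subgroup Γ) // IsPChain p σ} → ℤ := fun σ => (-1) ^ σ.1.ncard *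
    w (chainStabilizer σ.1 ⊓ Subgroup.normalizer (R : Set Γ)) with hf
  have h1 : ∀ σ : {σ : Set (Subgroup Γ) // IsPChain p σ}, (-1) ^ σ.1.ncard *
      (if R ≤ chainStabilizer σ.1 then
        w (chainStabilizer σ.1 ⊓ Subgroup.normalizer (R : Set Γ)) else 0) =
      if R ≤ chainStabilizer σ.1 then f σ else 0 := by
    intro σ
    by_cases h : R ≤ chainStabilizer σ.1
    · rw [if_pos h, if_pos h]
    · rw [if_neg h, if_neg h, mul_zero]
  rw [Finset.sum_congr rfl fun σ _ => h1 σ, ← Finset.sum_filter]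
  refine Finset.sum_involution
    (fun σ hσ => ⟨toggle R σ.1, (stab_le_toggle hR hR1 σ.2 (Finset.mem_filter.mp hσ).2).1⟩)
    ?_ ?_ ?_ ?_
  · intro σ hσ
    have hσ1 := (Finset.mem_filter.mp hσ).2
    have h3 := (stab_toggle hR hR1 σ.2 hσ1).2
    simp only [hf]
    rw [ncard_toggle, h3]
    ring
  · intro σ hσ _ h
    have h1 : toggle R σ.1 = σ.1 := congrArg Subtype.val h
    have h2 := ncard_toggle R σ.1
    rw [h1] at h2
    have h3 : ((-1 : ℤ)) ^ σ.1.ncard ≠ 0 := pow_ne_zero _ (by norm_num)
    omega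
  · intro σ hσ
    rw [Finset.mem_filter]
    exact ⟨Finset.mem_univ _, (stab_toggle hR hR1 σ.2 (Finset.mem_filter.mp hσ).2).1⟩
  · intro σ hσ
    apply Subtype.ext
    exact toggle_toggle R σ.1

lemma empty_chain : IsPChain p (∅ : Set (Subgroup Γ)) :=
  ⟨Set.pairwise_empty _, fun P hP => absurd hP (Set.notMem_empty P),
    fun P hP => absurd hP (Set.notMem_empty P)⟩

lemma normalizer_bot : Subgroup.normalizer ((⊥ : Subgroup Γ) : Set Γ) = ⊤ :=
  Subgroup.normalizer_eq_top_iff.mpr inferInstance

/-- no characters of defect zero for the stabiliser of a nonempty chain -/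
lemma nw_chain {F : Type} [Field F] (red : integralClosure ℤ ℂ →+* F)
    {σ : Set (Subgroup Γ)} (hσ : IsPChain p σ) (hne : σ.Nonempty) (J : Subgroup Γ)
    (hJ : J = chainStabilizer σ) (f : J → F) (c : F) :
    Nw p red ((⊥ : Subgroup Γ).subgroupOf J) f c = 0 := by
  subst hJ
  obtain ⟨P, hP, hmin⟩ := exists_least hσ.chain hne
  have hle : P ≤ chainStabilizer σ := by
    intro x hx
    rw [mem_chainStabilizer]
    intro Q hQ
    rw [conjSub_eq_iff]
    exact Subgroup.le_normalizer (hmin Q hQ hx)
  have hn : (P.subgroupOf (chainStabilizer σ)).Normal := by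
    constructor
    intro x hx y
    rw [Subgroup.mem_subgroupOf] at hx ⊢
    have h1 : conjSub (y : Γ) P = P := mem_chainStabilizer.mp y.2 P hP
    have h2 := conj_mem_conjSub (g := (y : Γ)) hx
    rw [h1] at h2
    exact h2
  unfold Nw
  rw [Nat.card_eq_zero]
  left
  constructor
  rintro ⟨χ, hχ, _⟩
  refine wtn p (chainStabilizer σ) ((⊥ : Subgroup Γ).subgroupOf (chainStabilizer σ))
    (P.subgroupOf (chainStabilizer σ)) χ inferInstance hn
    ((hσ.isPGroup P hP).comap_subtype) ?_ hχ
  rw [Subgroup.bot_subgroupOf, bot_lt_iff_ne_bot]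
  intro h1
  apply hσ.ne_bot P hP
  rw [Subgroup.subgroupOf_eq_bot] at h1
  rw [eq_bot_iff]
  intro x hx
  exact (disjoint_iff.mp h1).le ⟨hx, hle hx⟩

/-- the alternating sum of the numbers of weights -/
theorem wsum_alt {F : Type} [Field F] (red : integralClosure ℤ ℂ →+* F) (z : Γ → F) (c : F)
    (hz : IsClassFun z) [Fintype {σ : Set (Subgroup Γ) // IsPChain p σ}] :
    ∑ σ : {σ : Set (Subgroup Γ) // IsPChain p σ}, (-1) ^ σ.1.ncard *
      Wsum p red ⊤ (chainStabilizer σ.1) z c = (Nat.card Γ : ℤ) * Nw p red (⊥ : Subgroup Γ) z c := by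
  have : Fintype (Subgroup Γ) := Fintype.ofFinite _
  unfold Wsum
  simp only [finsum_eq_sum_of_fintype, Finset.mul_sum]
  rw [Finset.sum_comm, Finset.sum_eq_single (⊥ : Subgroup Γ)]
  · rw [Finset.sum_eq_single (⟨∅, empty_chain⟩ : {σ : Set (Subgroup Γ) // IsPChain p σ})]
    · have e1 : chainStabilizer (∅ : Set (Subgroup Γ)) ⊓
          Subgroup.normalizer ((⊥ : Subgroup Γ) : Set Γ) = ⊤ := by
        rw [chainStabilizer_empty, normalizer_bot, inf_top_eq]
      rw [if_pos ⟨IsPGroup.of_bot, bot_le, top_sup_eq _⟩, Set.ncard_empty, pow_zero, one_mul]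
      have e2 : ∀ J : Subgroup Γ, J = ⊤ → (Nat.card J : ℤ) *
          Nw p red ((⊥ : Subgroup Γ).subgroupOf J) (fun x => z x) c =
          (Nat.card Γ : ℤ) * Nw p red (⊥ : Subgroup Γ) z c := by
        rintro J rfl
        rw [Subgroup.card_top]
        congr 2
        exact Pool.Agent.Y624.NV.nw_congr p red (Subgroup.topEquiv (G := Γ))
          (fun x => Iff.rfl) (fun x => rfl) hz c
      exact e2 _ e1
    · intro σ _ hσ
      have hne : σ.1.Nonempty := by
        rw [Set.nonempty_iff_ne_empty]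
        intro h
        exact hσ (Subtype.ext h)
      split_ifs
      · rw [nw_chain red σ.2 hne _ (by rw [normalizer_bot, inf_top_eq])]
        simp
      · rw [mul_zero]
    · intro h
      exact absurd (Finset.mem_univ _) h
  · intro R _ hR1
    by_cases hR : IsPGroup p R
    · have h := tog_one (fun J => (Nat.card J : ℤ) *
        Nw p red (R.subgroupOf J) (fun x => z x) c) hR hR1
      refine Eq.trans ?_ h
      refine Finset.sum_congr rfl fun σ _ => ?_
      by_cases h1 : R ≤ chainStabilizer σ.1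
      · rw [if_pos ⟨hR, h1, top_sup_eq _⟩, if_pos h1]
      · rw [if_neg (fun h => h1 h.2.1), if_neg h1]
    · refine Finset.sum_eq_zero fun σ _ => ?_
      rw [if_neg (fun h => hR h.1), mul_zero]
  · intro h
    exact absurd (Finset.mem_univ _) h

end

/-- the number of weights of a subgroup -/
theorem card_mul_w (p : ℕ) [Fact p.Prime] {F : Type} [Field F] [CharP F p]
    (red : integralClosure ℤ ℂ →+* F) {Γ : Type} [Group Γ] [Finite Γ] (H : Subgroup Γ) :
    Wsum p red ⊤ H (Pi.single 1 1 : Γ → F) 1 = (Nat.card H : ℤ) * numWeights p H := by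
  rw [Pool.Agent.Y624.NV.trn p F red Γ ⊤ H (Pi.single 1 1) 1 (top_sup_eq _)
    (fun h _ x => Pool.Agent.Y63.NV.B532.single_conj h x), Subgroup.top_subgroupOf]
  have hu : IsUnitFun H (fun x : H => (Pi.single 1 1 : Γ → F) x) := by
    intro x
    have := isUnitFun_single (F := F) Γ (x : Γ)
    change (Pi.single 1 1 : Γ → F) (x : Γ) = _
    rw [this]
    by_cases hx : x = 1
    · rw [if_pos hx, if_pos (show (x : Γ) = 1 from congrArg Subtype.val hx)]
    · rw [if_neg hx, if_neg (show ¬ (x : Γ) = 1 from fun h => hx (Subtype.ext h))]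
  rw [hu.eq, wcov' p F red H ⊤, covW_eq]
  push_cast
  congr 1
  have : (∑ᶠ c : Quotient (pSubgroupSetoid p H),
      if (⊤ : Subgroup H) ⊔ c.out.1 = ⊤ then locz p c.out.1 else 0) = numWeights p H := by
    unfold numWeights
    refine finsum_congr fun c => ?_
    rw [if_pos (top_sup_eq _)]
    rfl
  exact_mod_cast this

section

variable {p : ℕ} [Fact p.Prime] {Γ : Type} [Group Γ] [Finite Γ]

/-- the alternating sum of the numbers of weights is the number of characters of defect zero -/
theorem altSum_weights :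
    alternatingSum p Γ (fun H => (numWeights p H : ℤ)) = (numDefectZero p Γ : ℤ) := by
  have : Fintype {σ : Set (Subgroup Γ) // IsPChain p σ} := Fintype.ofFinite _
  obtain ⟨red⟩ := exists_red p (AlgebraicClosure (ZMod p))
  have h0 : (Nat.card Γ : ℤ) ≠ 0 := by exact_mod_cast Nat.card_pos.ne'
  refine mul_left_cancel₀ h0 ?_
  rw [card_mul_alternatingSum _ (by
    rintro H K ⟨e⟩
    change (numWeights p H : ℤ) = numWeights p K
    rw [Pool.Agent.Y63.AWC.numWeights_congr e])]
  have h1 := wsum_alt (p := p) red (Pi.single 1 1 : Γ → AlgebraicClosure (ZMod p)) 1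
    (fun g x => Pool.Agent.Y63.NV.B532.single_conj g x)
  simp only [card_mul_w] at h1
  rw [h1]
  congr 2
  rw [Pool.Agent.Y63.NV.B532.nw_one p red (⊥ : Subgroup Γ) _ rfl]
  exact Pool.Agent.Y63.AWC.numDefectZero_congr QuotientGroup.quotientBot

/-- the Knörr-Robinson conjecture and the differences `l - w` -/
theorem krc_lw : KRC p Γ ↔
    alternatingSum p Γ (fun H => (numRegularClasses p H : ℤ) - numWeights p H) = 0 := by
  rw [alternatingSum_sub (fun H : Subgroup Γ => (numRegularClasses p H : ℤ))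
    (fun H : Subgroup Γ => (numWeights p H : ℤ)), altSum_weights, sub_eq_zero]
  have e1 : (fun H : Subgroup Γ => (Nat.card (ConjClasses H) : ℤ)) =
      fun H : Subgroup Γ => (numFixed 1 H : ℤ) := funext fun H => by rw [numFixed_one]
  have e2 : (fun H : Subgroup Γ => (numFixedRegular p 1 H : ℤ)) =
      fun H : Subgroup Γ => (numRegularClasses p H : ℤ) := funext fun H => by
    have : numFixedRegular p 1 H = numRegularClasses p H := by
      unfold numFixedRegular numRegularClasses
      refine Nat.card_congr (Equiv.subtypeEquivRight fun C => ?_)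
      refine exists_congr fun x => and_congr_right fun _ => ?_
      rw [pow_one]
      exact ⟨fun h => h.2, fun h => ⟨IsConj.refl x, h⟩⟩
    rw [this]
  have h := altSum_classes (p := p) (G := Γ)
  rw [e1, galois 1, e2] at h
  unfold KRC
  constructor
  · intro h1
    rw [h1] at h
    have : ((alternatingSum p Γ (fun H => (numRegularClasses p H : ℤ)) : ℤ) : ℚ) =
      ((numDefectZero p Γ : ℤ) : ℚ) := by
      rw [h]; push_cast; ring
    exact_mod_cast this
  · intro h1
    rw [h1] at h
    push_cast at h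
    linarith

end

/-- reduction, with the hypothesis for the smaller groups available -/
theorem reduction' (p : ℕ) [Fact p.Prime] (X : ∀ (H : Type) [Group H], Prop) (hX : Closed p X)
    (h : ∀ (H : Type) [Group H] [Finite H], X H → Reduced p H →
      (∀ (L : Type) [Group L] [Finite L], XP p X L → Nat.card L < Nat.card H →
        numRegularClasses p L = numWeights p L) → numRegularClasses p H = numWeights p H) :
    ∀ (n : ℕ) (Γ : Type) [Group Γ] [Finite Γ], Nat.card Γ ≤ n → XP p X Γ →
        numRegularClasses p Γ = numWeights p Γ := by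
  intro n
  induction n with
  | zero =>
    intro Γ _ _ hn
    have := Nat.card_pos (α := Γ)
    omega
  | succ n ih =>
    intro Γ _ _ hn hΓ
    refine (reduction p (fun H _ => XP p X H ∧ Finite H ∧ Nat.card H < Nat.card Γ + 1)
      (closed_lt p (Nat.card Γ + 1) (fun H _ => XP p X H) (xp_closed p X hX))).1 ?_ Γ ⊤
      ⟨(xp_closed p X hX).iso _ _ hΓ ⟨Subgroup.topEquiv.symm⟩, inferInstance, by
        rw [Subgroup.card_top]; exact Nat.lt_succ_self _⟩ (pgroup_top p Γ)
    rintro H _ _ ⟨hH, _, hcard⟩ hN hM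
    rcases Nat.lt_or_ge (Nat.card H) (Nat.card Γ) with hlt | hge
    · exact ih H (by omega) hH
    · refine h H ?_ ⟨hN, hM⟩ fun L _ _ hL hlt => ih L (by omega) hL
      obtain ⟨G, hG, hXG, hp⟩ := hH
      have hG1 : G = ⊤ := xp_perfect hN hp
      subst hG1
      exact hX.iso _ _ hXG ⟨Subgroup.topEquiv⟩

/-- the stabiliser of a nonempty chain is proper if `O_p(G) = 1` -/
theorem stab_lt {p : ℕ} [Fact p.Prime] {Γ : Type} [Group Γ] [Finite Γ]
    (hM : ∀ M : Subgroup Γ, M.Normal → IsPGroup p M → M = ⊥) {σ : Set (Subgroup Γ)}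
    (hσ : IsPChain p σ) (hne : σ.Nonempty) : Nat.card (chainStabilizer σ) < Nat.card Γ := by
  have e2 := Subgroup.card_le_card_group (chainStabilizer σ)
  refine lt_of_le_of_ne e2 fun h => ?_
  have htop := (Subgroup.card_eq_iff_eq_top _).mp h
  obtain ⟨P, hP⟩ := hne
  refine hσ.ne_bot P hP (hM P ?_ (hσ.isPGroup P hP))
  rw [← Subgroup.normalizer_eq_top_iff, eq_top_iff]
  intro x _
  rw [← conjSub_eq_iff]
  have hx : x ∈ chainStabilizer σ := by rw [htop]; trivial
  exact mem_chainStabilizer.mp hx P hP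

/-- **The Knörr-Robinson conjecture and extensions by `p`-groups.** -/
theorem krc_strong (p : ℕ) [Fact p.Prime] (X : ∀ (H : Type) [Group H], Prop) (hX : Closed p X) :
    (∀ (H : Type) [Group H] [Finite H], X H → Reduced p H → KRC p H) ↔
    ∀ (Γ : Type) [Group Γ] [Finite Γ] (G : Subgroup Γ) [G.Normal], X G → IsPGroup p (Γ ⧸ G) →
      KRC p Γ := by
  constructor
  · intro h Γ _ _ G hG hXG hp
    have key := reduction' p X hX ?_
    · rw [krc_lw]
      unfold alternatingSum
      refine finsum_eq_zero_of_forall_eq_zero fun c => ?_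
      change (-1) ^ c.out.1.ncard * ((numRegularClasses p (chainStabilizer c.out.1) : ℤ) -
        numWeights p (chainStabilizer c.out.1)) = 0
      rw [key (Nat.card (chainStabilizer c.out.1)) (chainStabilizer c.out.1) le_rfl
        ((xp_closed p X hX).sub Γ ⟨G, hG, hXG, hp⟩ _), sub_self, mul_zero]
    · intro H _ _ hH hR hsmall
      have h1 := krc_lw.1 (h H hH hR)
      rw [alternatingSum_single] at h1
      · have h2 := Pool.Agent.Y63.AWC.numRegularClasses_congr (p := p)
          (Subgroup.topEquiv (G := H))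
        have h3 := Pool.Agent.Y63.AWC.numWeights_congr (p := p) (Subgroup.topEquiv (G := H))
        rw [h2, h3] at h1
        have := sub_eq_zero.1 h1
        exact_mod_cast this
      · intro σ hσ hne
        have hXP : XP p X (chainStabilizer σ) :=
          (xp_closed p X hX).sub H ⟨⊤, inferInstance,
            hX.iso _ _ hH ⟨Subgroup.topEquiv.symm⟩, pgroup_top p H⟩ _
        change (numRegularClasses p (chainStabilizer σ) : ℤ) -
          numWeights p (chainStabilizer σ) = 0
        rw [hsmall (chainStabilizer σ) hXP (stab_lt hR.radical hσ hne), sub_self]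
  · intro h H _ _ hH _
    exact h H ⊤ (hX.iso _ _ hH ⟨Subgroup.topEquiv.symm⟩) (pgroup_top p H)

end Pool.Agent.Y63.NV
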