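import Pool.Agent.Y63.NV.Bawc
import Pool.Agent.Y63.NV.Krc
import Pool.Agent.Y63.NV.Stm5

/-!
# Alternating sums of numbers of ordinary characters
-/

open scoped Classical BigOperators

set_option linter.unusedSectionVars false

noncomputable section

namespace Pool.Agent.Y63.NV

open Pool.Agent.Y63.KR
open Pool.Agent.Y77.NV (pp_reg reg_pp pp_mem)

section one

variable {p : ℕ} [Fact p.Prime] {F : Type} [Field F] {Γ : Type} [Group Γ] [Finite Γ]

lemma sa_bot {J : Subgroup Γ} {x : Γ} (hx : x ∈ SA p J ⊥) {y : Γ} (hy : y ∈ J)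
    (hxy : y ∈ Subgroup.centralizer {x}) : ¬ p ∣ orderOf y := by
  intro h
  have h1 : orderOf y ∣ Nat.card ↥(J ⊓ Subgroup.centralizer {x}) :=
    Subgroup.orderOf_dvd_natCard _ ⟨hy, hxy⟩
  have h2 := hx.2.2
  rw [Subgroup.card_bot, Nat.factorization_one] at h2
  rcases Nat.factorization_eq_zero_iff _ _ |>.1 h2 with h3 | h3 | h3
  · exact h3 Fact.out
  · exact h3 (h.trans h1)
  · exact Nat.card_pos.ne' h3

lemma self_cent (x : Γ) : x ∈ Subgroup.centralizer {x} := by
  rw [Subgroup.mem_centralizer_iff]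
  intro y hy
  rw [Set.mem_singleton_iff.mp hy]

lemma sa_eq (J : Subgroup Γ) : SA p J ⊥ = SR p J J ⊥ := by
  ext x
  constructor
  · intro hx
    exact ⟨hx.1, sa_bot hx hx.1 (self_cent x), hx.2.1, hx.2.2⟩
  · rintro ⟨h1, _, h3, h4⟩
    exact ⟨h1, h3, h4⟩

lemma card_cent_conj (J : Subgroup Γ) {j : Γ} (hj : j ∈ J) (x : Γ) :
    Nat.card ↥(J ⊓ Subgroup.centralizer {j * x * j⁻¹}) =
      Nat.card ↥(J ⊓ Subgroup.centralizer {x}) := by
  have key : ∀ (j x : Γ), j ∈ J → ∀ y ∈ J ⊓ Subgroup.centralizer {x},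
      j * y * j⁻¹ ∈ J ⊓ Subgroup.centralizer {j * x * j⁻¹} := by
    intro j x hj y hy
    refine ⟨J.mul_mem (J.mul_mem hj hy.1) (J.inv_mem hj), ?_⟩
    have h1 : y ∈ Subgroup.centralizer {x} := hy.2
    change j * y * j⁻¹ ∈ Subgroup.centralizer {j * x * j⁻¹}
    rw [Subgroup.mem_centralizer_iff] at h1 ⊢
    intro w hw
    rw [Set.mem_singleton_iff.mp hw]
    have h2 := h1 x rfl
    calc j * x * j⁻¹ * (j * y * j⁻¹) = j * (x * y) * j⁻¹ := by group
      _ = j * (y * x) * j⁻¹ := by rw [h2]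
      _ = j * y * j⁻¹ * (j * x * j⁻¹) := by group
  refine Nat.card_congr
    { toFun := fun y => ⟨j⁻¹ * y * j, ?_⟩
      invFun := fun y => ⟨j * y * j⁻¹, key j x hj y y.2⟩
      left_inv := fun y => Subtype.ext (by change j * (j⁻¹ * y * j) * j⁻¹ = y; group)
      right_inv := fun y => Subtype.ext (by change j⁻¹ * (j * y * j⁻¹) * j = y; group) }
  have h := key j⁻¹ (j * x * j⁻¹) (J.inv_mem hj) y y.2
  have e : j⁻¹ * (j * x * j⁻¹) * j⁻¹⁻¹ = x := by group
  rw [e, inv_inv] at h
  exact h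

lemma sr_conj (J : Subgroup Γ) {j : Γ} (hj : j ∈ J) {x : Γ} (hx : x ∈ SR p J J ⊥) :
    j * x * j⁻¹ ∈ SR p J J ⊥ := by
  obtain ⟨h1, h2, _, h4⟩ := hx
  have h5 := J.mul_mem (J.mul_mem hj h1) (J.inv_mem hj)
  have h6 : j * x * j⁻¹ ∈ SA p J ⊥ := by
    refine ⟨h5, ?_, ?_⟩
    · intro r hr
      rw [Subgroup.mem_bot.mp hr, one_mul, mul_one]
    · rw [card_cent_conj J hj, h4]
  rw [← sa_eq]
  exact h6

/-- KONE: the classes of defect zero -/
theorem kone (J : Subgroup Γ) (z : Γ → F) (hz : ∀ h ∈ J, ∀ x : Γ, z (h * x * h⁻¹) = z x)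
    (hs : ∀ x : Γ, x ∉ J → z x = 0) (c : F) :
    gk z (SA p J ⊥) J c = gm p z (SR p J J ⊥) J c := by
  unfold gk gm
  rw [sa_eq]
  have h := Pool.Agent.Y85.NV.gen_eq (T := Kop z (SR p J J ⊥)) (T' := Top p z (SR p J J ⊥))
    (V := VS (F := F) (SR p J J ⊥) J) ?_ ?_ c
  · rw [h]
  · intro v hv
    funext x
    change (if x ∈ SR p J J ⊥ then ∑ᶠ g : Γ, z g * v (g * x) else 0) =
      if x ∈ SR p J J ⊥ then ∑ᶠ g : Γ, z g * v (pp p (g * x)) else 0
    by_cases hx : x ∈ SR p J J ⊥
    · rw [if_pos hx, if_pos hx]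
      refine finsum_congr fun g => ?_
      by_cases hg : g ∈ J
      · congr 1
        have hgx : g * x ∈ J := J.mul_mem hg hx.1
        by_cases h1 : g * x ∈ SR p J J ⊥
        · rw [pp_reg _ h1.2.1]
        · rw [hv.1 _ h1]
          by_cases h2 : pp p (g * x) ∈ SR p J J ⊥
          · exfalso
            apply h1
            have h3 : g * x ∈ Subgroup.centralizer {pp p (g * x)} := by
              rw [Subgroup.mem_centralizer_iff]
              intro y hy
              rw [Set.mem_singleton_iff.mp hy]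
              exact ((Commute.refl (g * x)).pow_left _).eq
            have h4 := sa_bot (p := p) (x := pp p (g * x)) (by rw [sa_eq]; exact h2) hgx h3
            rw [pp_reg _ h4] at h2
            exact h2
          · rw [hv.1 _ h2]
      · rw [hs g hg, zero_mul, zero_mul]
    · rw [if_neg hx, if_neg hx]
  · intro v hv
    exact Pool.Agent.Y85.NV.top_mem hz (fun h hh x hx => sr_conj J hh hx) hv

end one

section

variable {p : ℕ} [Fact p.Prime] {F : Type} [Field F] [IsAlgClosed F] [CharP F p]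
  {Γ : Type} [Group Γ] [Finite Γ]

lemma cut_conj {z : Γ → F} (hz : IsClassFun z) {H : Subgroup Γ} {h : Γ} (hh : h ∈ H) (x : Γ) :
    cut z H (h * x * h⁻¹) = cut z H x := by
  unfold cut
  have : h * x * h⁻¹ ∈ H ↔ x ∈ H := by
    constructor
    · intro h1
      have h2 := H.mul_mem (H.mul_mem (H.inv_mem hh) h1) hh
      have e : h⁻¹ * (h * x * h⁻¹) * h = x := by group
      rwa [e] at h2
    · intro h1
      exact H.mul_mem (H.mul_mem hh h1) (H.inv_mem hh)
  by_cases hx : x ∈ H
  · rw [if_pos hx, if_pos (this.2 hx), hz]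
  · rw [if_neg hx, if_neg (fun h => hx (this.1 h))]

lemma cut_supp (z : Γ → F) (H : Subgroup Γ) (x : Γ) (hx : x ∉ H) : cut z H x = 0 := if_neg hx

lemma cut_cut (z : Γ → F) (H R : Subgroup Γ) :
    cut (cut z H) (Subgroup.centralizer (R : Set Γ)) =
      cut (cut z (H ⊓ Subgroup.normalizer (R : Set Γ))) (Subgroup.centralizer (R : Set Γ)) := by
  funext g
  unfold cut
  by_cases hg : g ∈ Subgroup.centralizer (R : Set Γ)
  · rw [if_pos hg, if_pos hg]
    have h1 : g ∈ Subgroup.normalizer (R : Set Γ) := Subgroup.centralizer_le_normalizer _ hg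
    by_cases hH : g ∈ H
    · rw [if_pos hH, if_pos (show g ∈ H ⊓ Subgroup.normalizer (R : Set Γ) from ⟨hH, h1⟩)]
    · rw [if_neg hH, if_neg (fun h => hH h.1)]
  · rw [if_neg hg, if_neg hg]

/-- the weight function for ordinary characters -/
def wK (p : ℕ) (z : Γ → F) (c : F) (R J : Subgroup Γ) : ℤ :=
  (Nat.card J : ℤ) * gk (cut (cut z J) (Subgroup.centralizer (R : Set Γ))) (SA p J R) J c

/-- the weight function for irreducible traces -/
def wM (p : ℕ) (z : Γ → F) (c : F) (R J : Subgroup Γ) : ℤ :=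
  (Nat.card J : ℤ) * gm p (cut (cut z J) (Subgroup.centralizer (R : Set Γ))) (SR p J J R) J c

theorem knum_eq (hK : S_KDIMH) (hF : S_KFILT) (red : integralClosure ℤ ℂ →+* F) {z : Γ → F}
    (hz : IsClassFun z) (c : F) (H : Subgroup Γ) :
    (Nat.card H : ℤ) * Knum red (fun x : H => z x) c =
      ∑ᶠ R : Subgroup Γ, (if IsPGroup p R ∧ R ≤ H then
        wK p z c R (H ⊓ Subgroup.normalizer (R : Set Γ)) else 0) := by
  have : Fintype (Subgroup Γ) := Fintype.ofFinite _
  have e1 : (fun x : H => z x) = fun x : H => cut z H x := by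
    funext x
    unfold cut
    rw [if_pos x.2]
  rw [e1, hK p F red Γ H (cut z H) c (fun h hh x => cut_conj hz hh x) (cut_supp z H)]
  have h2 := hF p F Γ H (cut z H) c (fun h hh x => cut_conj hz hh x) (cut_supp z H)
  rw [← Nat.cast_mul, h2, finsum_eq_sum_of_fintype, finsum_eq_sum_of_fintype, Nat.cast_sum]
  refine Finset.sum_congr rfl fun R _ => ?_
  by_cases hR : IsPGroup p R ∧ R ≤ H
  · rw [if_pos hR, if_pos hR, Nat.cast_mul, cut_cut]
    rfl
  · rw [if_neg hR, if_neg hR, Nat.cast_zero]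

theorem lnum_eq {z : Γ → F} (hz : IsClassFun z) (c : F) (H : Subgroup Γ) :
    Lsum ⊤ H (cut z H) c =
      ∑ᶠ R : Subgroup Γ, (if IsPGroup p R ∧ R ≤ H then
        wM p z c R (H ⊓ Subgroup.normalizer (R : Set Γ)) else 0) := by
  have : Fintype (Subgroup Γ) := Fintype.ofFinite _
  have hext : Ext p H H (cut z H) :=
    { le := le_rfl
      norm := fun h hh n hn => H.mul_mem (H.mul_mem hh hn) (H.inv_mem hh)
      pq := fun h hh => ⟨0, by rw [pow_zero, pow_one]; exact hh⟩
      inv := fun h hh x => cut_conj hz hh x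
      supp := cut_supp z H }
  unfold Lsum
  rw [if_pos (top_sup_eq H), top_inf_eq]
  have h1 := brq' p F Γ _ _ _ hext c
  have h2 := filt' p F Γ _ _ _ hext c
  rw [h1, ← Nat.cast_mul, h2, finsum_eq_sum_of_fintype, finsum_eq_sum_of_fintype, Nat.cast_sum]
  refine Finset.sum_congr rfl fun R _ => ?_
  by_cases hR : IsPGroup p R ∧ R ≤ H
  · rw [if_pos ⟨hR.1, hR.2, le_sup_left⟩, if_pos hR, Nat.cast_mul, cut_cut]
    unfold wM
    have h3 := sr_eq (p := p) (G := (⊤ : Subgroup Γ)) (H := H) (R := R)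
    rw [top_inf_eq, top_inf_eq] at h3
    rw [h3]
  · rw [if_neg (fun h => hR ⟨h.1, h.2.1⟩), if_neg hR, Nat.cast_zero]

/-- a sum over chains of a function of this form only depends on the terms with `R = 1` -/
theorem chain_bot (w : Subgroup Γ → Subgroup Γ → ℤ) (f : Subgroup Γ → ℤ)
    (hf : ∀ H : Subgroup Γ, f H = ∑ᶠ R : Subgroup Γ, (if IsPGroup p R ∧ R ≤ H then
      w R (H ⊓ Subgroup.normalizer (R : Set Γ)) else 0))
    [Fintype {σ : Set (Subgroup Γ) // IsPChain p σ}] :
    ∑ σ : {σ : Set (Subgroup Γ) // IsPChain p σ}, (-1) ^ σ.1.ncard * f (chainStabilizer σ.1) =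
      ∑ σ : {σ : Set (Subgroup Γ) // IsPChain p σ}, (-1) ^ σ.1.ncard *
        w ⊥ (chainStabilizer σ.1) := by
  have : Fintype (Subgroup Γ) := Fintype.ofFinite _
  simp only [hf, finsum_eq_sum_of_fintype, Finset.mul_sum]
  rw [Finset.sum_comm, Finset.sum_eq_single (⊥ : Subgroup Γ)]
  · refine Finset.sum_congr rfl fun σ _ => ?_
    rw [if_pos ⟨IsPGroup.of_bot, bot_le⟩, normalizer_bot, inf_top_eq]
  · intro R _ hR1
    by_cases hR : IsPGroup p R
    · have h := tog_one (fun J => w R J) hR hR1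
      refine Eq.trans ?_ h
      refine Finset.sum_congr rfl fun σ _ => ?_
      by_cases h1 : R ≤ chainStabilizer σ.1
      · rw [if_pos ⟨hR, h1⟩, if_pos h1]
      · rw [if_neg (fun h => h1 h.2), if_neg h1]
    · refine Finset.sum_eq_zero fun σ _ => ?_
      rw [if_neg (fun h => hR h.1), mul_zero]
  · intro h
    exact absurd (Finset.mem_univ _) h

/-- ordinary characters and irreducible traces have the same alternating sums -/
theorem kl_alt (hK : S_KDIMH) (hF : S_KFILT) (red : integralClosure ℤ ℂ →+* F) {z : Γ → F}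
    (hz : IsClassFun z) (c : F) [Fintype {σ : Set (Subgroup Γ) // IsPChain p σ}] :
    ∑ σ : {σ : Set (Subgroup Γ) // IsPChain p σ}, (-1) ^ σ.1.ncard *
      ((Nat.card (chainStabilizer σ.1) : ℤ) *
        Knum red (fun x : chainStabilizer σ.1 => z x) c) =
    ∑ σ : {σ : Set (Subgroup Γ) // IsPChain p σ}, (-1) ^ σ.1.ncard *
      Lsum ⊤ (chainStabilizer σ.1) (cut z (chainStabilizer σ.1)) c := by
  have h1 := chain_bot (p := p) (wK p z c)
    (fun H => (Nat.card H : ℤ) * Knum red (fun x : H => z x) c)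
    (fun H => knum_eq hK hF red hz c H)
  have h2 := chain_bot (p := p) (wM p z c) (fun H => Lsum ⊤ H (cut z H) c)
    (fun H => lnum_eq hz c H)
  rw [h1, h2]
  refine Finset.sum_congr rfl fun σ _ => ?_
  congr 1
  unfold wK wM
  rw [kone _ _ ?_ ?_ c]
  · intro h hh x
    have e1 : ∀ y : Γ, y ∈ Subgroup.centralizer ((⊥ : Subgroup Γ) : Set Γ) := by
      intro y
      rw [Subgroup.mem_centralizer_iff]
      intro w hw
      rw [Subgroup.mem_bot.mp hw, one_mul, mul_one]
    unfold cut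
    rw [if_pos (e1 _), if_pos (e1 _)]
    exact cut_conj hz hh x
  · intro x hx
    unfold cut
    rw [if_neg hx]
    split_ifs <;> rfl

/-- the two sides for a subgroup satisfying the blockwise weight conjecture -/
theorem lw_sub (red : integralClosure ℤ ℂ →+* F) {z : Γ → F} (hz : IsClassFun z) (c : F)
    (H : Subgroup Γ) (h : Navarro p red (⊤ : Subgroup H)) :
    Lsum ⊤ H (cut z H) c = Wsum p red ⊤ H z c := by
  rw [parts.trl F Γ ⊤ H (cut z H) c (top_sup_eq H),
    Pool.Agent.Y624.NV.trn p F red Γ ⊤ H z c (top_sup_eq H) (fun h _ x => hz h x),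
    Subgroup.top_subgroupOf]
  have e1 : (fun x : H => cut z H x) = fun x : H => z x := by
    funext x
    unfold cut
    rw [if_pos x.2]
  rw [e1]
  exact base' p F red H h (fun x : H => z x) (fun g x => hz g x) c

/-- the alternating sum of ordinary characters and the differences -/
theorem ksum_sub (hK : S_KDIMH) (hF : S_KFILT) (red : integralClosure ℤ ℂ →+* F) {z : Γ → F}
    (hz : IsClassFun z) (c : F) :
    (∑ᶠ σ : {σ : Set (Subgroup Γ) // IsPChain p σ}, (-1) ^ σ.1.ncard *
        ((Nat.card (chainStabilizer σ.1) : ℤ) *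
          Knum red (fun x : chainStabilizer σ.1 => z x) c)) -
      (Nat.card Γ : ℤ) * Nw p red (⊥ : Subgroup Γ) z c =
    ∑ᶠ σ : {σ : Set (Subgroup Γ) // IsPChain p σ}, (-1) ^ σ.1.ncard *
      (Lsum ⊤ (chainStabilizer σ.1) (cut z (chainStabilizer σ.1)) c -
        Wsum p red ⊤ (chainStabilizer σ.1) z c) := by
  have : Fintype {σ : Set (Subgroup Γ) // IsPChain p σ} := Fintype.ofFinite _
  rw [finsum_eq_sum_of_fintype, finsum_eq_sum_of_fintype, kl_alt hK hF red hz c,
    ← wsum_alt red z c hz]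
  simp only [mul_sub]
  rw [Finset.sum_sub_distrib]

/-- the alternating sum form follows from the blockwise weight conjecture for subgroups -/
theorem krb_of_bawc (hK : S_KDIMH) (hF : S_KFILT) (hN : S_KFIN)
    (red : integralClosure ℤ ℂ →+* F)
    (h : ∀ σ : Set (Subgroup Γ), IsPChain p σ → Navarro p red (⊤ : Subgroup (chainStabilizer σ))) :
    KRB p red Γ := by
  refine (hN p F red Γ).2 fun z c hz => ?_
  rw [← sub_eq_zero, ksum_sub hK hF red hz c]
  refine finsum_eq_zero_of_forall_eq_zero fun σ => ?_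
  rw [lw_sub red hz c _ (h σ.1 σ.2), sub_self, mul_zero]

/-- the blockwise weight conjecture from the alternating sum form and smaller groups -/
theorem bawc_of_krb (hK : S_KDIMH) (hF : S_KFILT) (hN : S_KFIN)
    (red : integralClosure ℤ ℂ →+* F)
    (h : ∀ σ : Set (Subgroup Γ), IsPChain p σ → σ.Nonempty →
      Navarro p red (⊤ : Subgroup (chainStabilizer σ)))
    (hk : KRB p red Γ) : Navarro p red (⊤ : Subgroup Γ) := by
  refine fin' p F red Γ ⊤ (pgroup_top p Γ) fun z hz c => ?_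
  have hz' : IsClassFun z := hz.conj
  have h1 := (hN p F red Γ).1 hk z c hz'
  rw [← sub_eq_zero, ksum_sub hK hF red hz' c, finsum_eq_single _
    (⟨∅, empty_chain⟩ : {σ : Set (Subgroup Γ) // IsPChain p σ})] at h1
  · simp only [Set.ncard_empty, pow_zero, one_mul] at h1
    rw [chainStabilizer_empty, cut_top] at h1
    exact sub_eq_zero.1 h1
  · intro σ hσ
    have hne : σ.1.Nonempty := by
      rw [Set.nonempty_iff_ne_empty]
      intro h
      exact hσ (Subtype.ext h)
    rw [lw_sub red hz' c _ (h σ.1 σ.2 hne), sub_self, mul_zero]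

end

/-- reduction of the blockwise conjecture with the hypothesis for the smaller groups available -/
theorem bawc_reduction' {p : ℕ} [Fact p.Prime] {F : Type} [Field F] [IsAlgClosed F] [CharP F p]
    (red : integralClosure ℤ ℂ →+* F) (X : ∀ (H : Type) [Group H], Prop) (hX : Closed p X)
    (h : ∀ (H : Type) [Group H] [Finite H], X H → Reduced p H →
      (∀ (L : Type) [Group L] [Finite L], XP p X L → Nat.card L < Nat.card H →
        Navarro p red (⊤ : Subgroup L)) → Navarro p red (⊤ : Subgroup H)) :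
    ∀ (n : ℕ) (Γ : Type) [Group Γ] [Finite Γ], Nat.card Γ ≤ n → XP p X Γ →
      Navarro p red (⊤ : Subgroup Γ) := by
  intro n
  induction n with
  | zero =>
    intro Γ _ _ hn
    have := Nat.card_pos (α := Γ)
    omega
  | succ n ih =>
    intro Γ _ _ hn hΓ
    refine bawc_reduction red (fun H _ => XP p X H ∧ Finite H ∧ Nat.card H < Nat.card Γ + 1)
      (closed_lt p (Nat.card Γ + 1) (fun H _ => XP p X H) (xp_closed p X hX)) ?_ (Nat.card Γ) Γ
      le_rfl ⟨⊤, inferInstance,
      ⟨(xp_closed p X hX).iso _ _ hΓ ⟨Subgroup.topEquiv.symm⟩, inferInstance, by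
        rw [Subgroup.card_top]; exact Nat.lt_succ_self _⟩, pgroup_top p Γ⟩
    rintro H _ _ ⟨hH, _, hcard⟩ hR
    rcases Nat.lt_or_ge (Nat.card H) (Nat.card Γ) with hlt | hge
    · exact ih H (by omega) hH
    · refine h H ?_ hR fun L _ _ hL hlt => ih L (by omega) hL
      obtain ⟨G, hG, hXG, hp⟩ := hH
      have hG1 : G = ⊤ := xp_perfect hR.perfect hp
      subst hG1
      exact hX.iso _ _ hXG ⟨Subgroup.topEquiv⟩

/-- **The alternating sum form and extensions by `p`-groups.** -/
theorem krb_strong (hK : S_KDIMH) (hF : S_KFILT) (hN : S_KFIN)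
    {p : ℕ} [Fact p.Prime] {F : Type} [Field F] [IsAlgClosed F] [CharP F p]
    (red : integralClosure ℤ ℂ →+* F) (X : ∀ (H : Type) [Group H], Prop) (hX : Closed p X) :
    (∀ (H : Type) [Group H] [Finite H], X H → Reduced p H → KRB p red H) ↔
    ∀ (Γ : Type) [Group Γ] [Finite Γ] (G : Subgroup Γ) [G.Normal], X G → IsPGroup p (Γ ⧸ G) →
      KRB p red Γ := by
  constructor
  · intro h Γ _ _ G hG hXG hp
    have key := bawc_reduction' red X hX ?_
    · refine krb_of_bawc hK hF hN red fun σ _ => ?_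
      exact key (Nat.card (chainStabilizer σ)) (chainStabilizer σ) le_rfl
        ((xp_closed p X hX).sub Γ ⟨G, hG, hXG, hp⟩ _)
    · intro H _ _ hH hR hsmall
      refine bawc_of_krb hK hF hN red (fun σ hσ hne => ?_) (h H hH hR)
      have hXP : XP p X (chainStabilizer σ) :=
        (xp_closed p X hX).sub H ⟨⊤, inferInstance,
          hX.iso _ _ hH ⟨Subgroup.topEquiv.symm⟩, pgroup_top p H⟩ _
      exact hsmall (chainStabilizer σ) hXP (stab_lt hR.radical hσ hne)
  · intro h H _ _ hH _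
    exact h H ⊤ (hX.iso _ _ hH ⟨Subgroup.topEquiv.symm⟩) (pgroup_top p H)

end Pool.Agent.Y63.NV
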