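import Pool.Agent.Y63.NV.Chain

/-!
# The induction
-/

open scoped Classical BigOperators

set_option linter.unusedSectionVars false

noncomputable section

namespace Pool.Agent.Y63.NV

open Pool.Agent.Y63.KR

theorem span_of (h1 : S_NIL) (h2 : S_WED) : S_SPAN := by
  intro p _ F _ _ _ N _ _ f hf hf'
  exact h2 F N f hf (h1 p F N f hf hf')

/-- TRN with the necessary invariance hypothesis -/
def S_TRN' : Prop := ∀ (p : ℕ) (F : Type) [Field F]
  (red : integralClosure ℤ ℂ →+* F) (Γ : Type) [Group Γ] [Finite Γ] (G H : Subgroup Γ)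
  [G.Normal] (z : Γ → F) (c : F), G ⊔ H = ⊤ → (∀ h ∈ H, ∀ x : Γ, z (h * x * h⁻¹) = z x) →
    Wsum p red G H z c = Wsum p red (G.subgroupOf H) ⊤ (fun x => z x) c

/-- the hypotheses proved in the other files -/
structure Parts : Prop where
  brq : S_BRQ
  filt : S_FILT
  cutw : S_CUTW
  lq : S_LQ
  nq : S_NQ
  trl : S_TRL
  trn : S_TRN'

section

variable {p : ℕ} [Fact p.Prime] {F : Type} [Field F] [IsAlgClosed F] [CharP F p]
  {Γ : Type} [Group Γ] [Finite Γ] {G : Subgroup Γ}

theorem chain_sum (P : Parts) (red : integralClosure ℤ ℂ →+* F) [hG : G.Normal]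
    (hp : IsPGroup p (Γ ⧸ G)) (hG1 : G ≠ ⊤) {z : Γ → F} (hz : InZ G z) (c : F)
    [Fintype {σ : Set (Subgroup Γ) // IsPChain p σ}] :
    ∑ σ : {σ : Set (Subgroup Γ) // IsPChain p σ}, (-1) ^ σ.1.ncard *
      (Lsum G (chainStabilizer σ.1) (cut z (chainCent σ.1)) c -
        Wsum p red G (chainStabilizer σ.1) (cut z (chainCent σ.1)) c) = 0 := by
  have h1 := tog p F Γ G z (wL p G c) hG1
  have h2 := tog p F Γ G z (wW p red c) hG1
  rw [finsum_eq_sum_of_fintype] at h1 h2
  simp only [mul_sub]
  rw [Finset.sum_sub_distrib]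
  have e1 : ∀ σ : {σ : Set (Subgroup Γ) // IsPChain p σ},
      Lsum G (chainStabilizer σ.1) (cut z (chainCent σ.1)) c = _ :=
    fun σ => lsum_eq P.brq P.filt hp hz c σ.1
  have e2 : ∀ σ : {σ : Set (Subgroup Γ) // IsPChain p σ},
      Wsum p red G (chainStabilizer σ.1) (cut z (chainCent σ.1)) c = _ :=
    fun σ => wsum_eq P.cutw red hz c σ.1
  simp only [e1, e2]
  rw [h1, h2, sub_zero]

lemma chainStabilizer_empty : chainStabilizer (∅ : Set (Subgroup Γ)) = ⊤ := by
  rw [eq_top_iff]
  intro x _
  rw [mem_chainStabilizer]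
  intro P hP
  exact absurd hP (Set.notMem_empty P)

lemma chainCent_empty : chainCent (∅ : Set (Subgroup Γ)) = ⊤ := by
  rw [eq_top_iff]
  intro x _
  rw [mem_chainCent]
  intro P hP
  exact absurd hP (Set.notMem_empty P)

lemma cut_top (z : Γ → F) : cut z ⊤ = z := by
  funext x
  unfold cut
  rw [if_pos (Subgroup.mem_top x)]

lemma lsum_zero {H : Subgroup Γ} (h : G ⊔ H ≠ ⊤) (z : Γ → F) (c : F) : Lsum G H z c = 0 := if_neg h

lemma wsum_zero (red : integralClosure ℤ ℂ →+* F) {H : Subgroup Γ} (h : G ⊔ H ≠ ⊤) (z : Γ → F)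
    (c : F) : Wsum p red G H z c = 0 := by
  unfold Wsum
  refine finsum_eq_zero_of_forall_eq_zero fun Q => ?_
  rw [if_neg]
  rintro ⟨_, h2, h3⟩
  apply h
  rw [eq_top_iff, ← h3]
  exact sup_le_sup_left h2 G

end

/-- closure properties of a class of groups -/
structure Closed (p : ℕ) (X : ∀ (G : Type) [Group G], Prop) : Prop where
  iso : ∀ (G H : Type) [Group G] [Group H], X G → Nonempty (G ≃* H) → X H
  sub : ∀ (G : Type) [Group G], X G → ∀ H : Subgroup G, X H
  quot : ∀ (G : Type) [Group G], X G → ∀ (M : Subgroup G) [M.Normal], IsPGroup p M → X (G ⧸ M)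

/-- closure properties of a class of functions -/
structure ClosedD {F : Type} [Field F] (D : ∀ (Γ : Type) [Group Γ], (Γ → F) → Prop) : Prop where
  sub : ∀ (Γ : Type) [Group Γ] (z : Γ → F), D Γ z → ∀ H C : Subgroup Γ,
    D H (fun x : H => cut z C x)
  quot : ∀ (Γ : Type) [Group Γ] (z : Γ → F), D Γ z → ∀ (M : Subgroup Γ) [M.Normal],
    D (Γ ⧸ M) (push M z)

lemma iso_subgroupOf {Γ : Type} [Group Γ] (G H : Subgroup Γ) :
    Nonempty (H.subgroupOf G ≃* G.subgroupOf H) := by
  refine ⟨{ toFun := fun x => ⟨⟨x.1.1, Subgroup.mem_subgroupOf.mp x.2⟩,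
              Subgroup.mem_subgroupOf.mpr x.1.2⟩
            invFun := fun x => ⟨⟨x.1.1, Subgroup.mem_subgroupOf.mp x.2⟩,
              Subgroup.mem_subgroupOf.mpr x.1.2⟩
            left_inv := fun x => rfl
            right_inv := fun x => rfl
            map_mul' := fun x y => rfl }⟩

theorem induct (P : Parts) {p : ℕ} [Fact p.Prime] {F : Type} [Field F] [IsAlgClosed F] [CharP F p]
    (red : integralClosure ℤ ℂ →+* F) (X : ∀ (G : Type) [Group G], Prop) (hX : Closed p X)
    (D : ∀ (Γ : Type) [Group Γ], (Γ → F) → Prop) (hD : ClosedD D)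
    (base : ∀ (G : Type) [Group G] [Finite G], X G → ∀ z : G → F, IsClassFun z → D G z → ∀ c : F,
      Lsum (⊤ : Subgroup G) ⊤ z c = Wsum p red ⊤ ⊤ z c) :
    ∀ (n : ℕ) (Γ : Type) [Group Γ] [Finite Γ] (G : Subgroup Γ) [G.Normal], Nat.card Γ ≤ n →
      X G → IsPGroup p (Γ ⧸ G) → ∀ z : Γ → F, InZ G z → D Γ z → ∀ c : F,
      Lsum G ⊤ z c = Wsum p red G ⊤ z c := by
  intro n
  induction n with
  | zero =>
    intro Γ _ _ G _ hn
    have := Nat.card_pos (α := Γ)
    omega
  | succ n ih =>
    intro Γ _ _ G hG hn hXG hp z hz hDz c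
    by_cases hG1 : G = ⊤
    · subst hG1
      exact base Γ (hX.iso _ _ hXG ⟨Subgroup.topEquiv⟩) z (fun g x => hz.conj g x) hDz c
    by_cases hM : ∃ M : Subgroup Γ, M.Normal ∧ IsPGroup p M ∧ M ≠ ⊥
    · obtain ⟨M, hMn, hMp, hM1⟩ := hM
      obtain ⟨h1, h2⟩ := P.lq p F Γ G M z hMp hz c
      have h3 := P.nq p F red Γ G M z hMp hz c
      rw [h2, h3]
      congr 1
      have hcard : Nat.card (Γ ⧸ M) ≤ n := by
        have e1 := Subgroup.card_eq_card_quotient_mul_card_subgroup M
        have e2 : 1 < Nat.card M := (Subgroup.one_lt_card_iff_ne_bot M).mpr hM1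
        have e3 : 0 < Nat.card (Γ ⧸ M) := Nat.card_pos
        by_contra hlt
        push Not at hlt
        have : Nat.card (Γ ⧸ M) * 2 ≤ Nat.card Γ := by
          rw [e1]
          exact Nat.mul_le_mul_left _ e2
        omega
      have hnor : (G.map (QuotientGroup.mk' M)).Normal :=
        Subgroup.Normal.map hG _ (QuotientGroup.mk'_surjective M)
      have hp' : IsPGroup p ((Γ ⧸ M) ⧸ (G.map (QuotientGroup.mk' M))) := by
        intro x
        obtain ⟨y, rfl⟩ := QuotientGroup.mk_surjective x
        obtain ⟨g, rfl⟩ := QuotientGroup.mk_surjective y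
        obtain ⟨k, hk⟩ := pow_mem_of_pGroup hp g
        refine ⟨k, ?_⟩
        rw [← QuotientGroup.mk_pow, QuotientGroup.eq_one_iff, ← QuotientGroup.mk_pow]
        exact ⟨_, hk, rfl⟩
      have hX' : X (G.map (QuotientGroup.mk' M)) := by
        set f : G →* Γ ⧸ M := (QuotientGroup.mk' M).comp G.subtype with hf
        have hker : IsPGroup p f.ker := by
          have : f.ker = M.subgroupOf G := by
            ext x
            rw [MonoidHom.mem_ker, Subgroup.mem_subgroupOf, hf, MonoidHom.comp_apply,
              QuotientGroup.mk'_apply, QuotientGroup.eq_one_iff]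
            rfl
          rw [this]
          exact hMp.comap_subtype
        have h4 := hX.quot G hXG f.ker hker
        refine hX.iso _ _ h4 ⟨(QuotientGroup.quotientKerEquivRange f).trans
          (MulEquiv.subgroupCongr ?_)⟩
        rw [hf, MonoidHom.range_comp, Subgroup.range_subtype]
      exact ih (Γ ⧸ M) (G.map (QuotientGroup.mk' M)) hcard hX' hp' (push M z) h1
        (hD.quot Γ z hDz M) c
    · have : Fintype {σ : Set (Subgroup Γ) // IsPChain p σ} := Fintype.ofFinite _
      have hsum := chain_sum P red hp hG1 hz c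
      have hemp : IsPChain p (∅ : Set (Subgroup Γ)) :=
        ⟨Set.pairwise_empty _, fun P hP => absurd hP (Set.notMem_empty P),
          fun P hP => absurd hP (Set.notMem_empty P)⟩
      rw [Finset.sum_eq_single (⟨∅, hemp⟩ : {σ : Set (Subgroup Γ) // IsPChain p σ})] at hsum
      · simp only [Set.ncard_empty, pow_zero, one_mul] at hsum
        rw [chainStabilizer_empty, chainCent_empty, cut_top] at hsum
        exact sub_eq_zero.mp hsum
      · intro σ _ hσ
        have hne : σ.1.Nonempty := by
          rw [Set.nonempty_iff_ne_empty]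
          intro h
          exact hσ (Subtype.ext h)
        obtain ⟨Q, hQ⟩ := hne
        set H := chainStabilizer σ.1 with hH
        have hHtop : H ≠ ⊤ := by
          intro h
          apply hM
          refine ⟨Q, ?_, σ.2.isPGroup Q hQ, σ.2.ne_bot Q hQ⟩
          rw [← Subgroup.normalizer_eq_top_iff, eq_top_iff]
          intro x _
          rw [← conjSub_eq_iff]
          have hx : x ∈ H := by rw [h]; trivial
          exact mem_chainStabilizer.mp hx Q hQ
        by_cases hGH : G ⊔ H = ⊤
        · have hcard : Nat.card H ≤ n := by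
            have e1 : Nat.card H ≠ Nat.card Γ := by
              intro h
              exact hHtop ((Subgroup.card_eq_iff_eq_top H).mp h)
            have e2 := Subgroup.card_le_card_group H
            omega
          have hnor : (G.subgroupOf H).Normal := inferInstance
          have hp' : IsPGroup p (H ⧸ G.subgroupOf H) := by
            intro x
            obtain ⟨g, rfl⟩ := QuotientGroup.mk_surjective x
            obtain ⟨k, hk⟩ := pow_mem_of_pGroup hp (g : Γ)
            refine ⟨k, ?_⟩
            rw [← QuotientGroup.mk_pow, QuotientGroup.eq_one_iff, Subgroup.mem_subgroupOf]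
            exact hk
          have hX' : X (G.subgroupOf H) :=
            hX.iso _ _ (hX.sub G hXG (H.subgroupOf G)) (iso_subgroupOf G H)
          have hz' : InZ (G.subgroupOf H) (fun x : H => cut z (chainCent σ.1) x) := by
            constructor
            · intro g x
              exact cut_inv hz.conj g.2 x
            · intro x hx
              have : (x : Γ) ∉ G := fun h => hx (Subgroup.mem_subgroupOf.mpr h)
              change cut z (chainCent σ.1) x = 0
              unfold cut
              rw [hz.supp _ this]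
              split_ifs <;> rfl
          have h5 := ih H (G.subgroupOf H) hcard hX' hp' _ hz' (hD.sub Γ z hDz H _) c
          have h6 := P.trl F Γ G H (cut z (chainCent σ.1)) c hGH
          have h7 := P.trn p F red Γ G H (cut z (chainCent σ.1)) c hGH
            (fun h hh x => cut_inv hz.conj hh x)
          rw [h6, h7, h5, sub_self, mul_zero]
        · rw [lsum_zero hGH, wsum_zero red hGH, sub_self, mul_zero]
      · intro h
        exact absurd (Finset.mem_univ _) h

end Pool.Agent.Y63.NV
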