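import Pool.Agent.Y63.NV.Stm

/-!
# Alternating sums of numbers of invariant irreducible Brauer characters
-/

open scoped Classical

noncomputable section

namespace Pool.Agent.Y63.NV

open Pool.Agent.Y63.KR (IsPChain chainStabilizer alternatingSum conjSub)

/-- The number of irreducible characters over `F` of `G ∩ H` which are invariant under `H` and on
which every central element `z` of `F[Γ]` in `F[G]`, restricted to `G ∩ H`, acts as the scalar
`B z`. -/
def numIBrInd {F : Type} [Field F] {Γ : Type} [Group Γ] (G H : Subgroup Γ) (B : (G → F) → F) : ℕ :=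
  Nat.card {φ : ↥(G ⊓ H) → F // IsIrrTrace φ ∧ IsInvUnder H φ ∧
    ∀ z : Γ → F, InZ G z → ∀ x : ↥(G ⊓ H),
      ∑ᶠ g : ↥(G ⊓ H), z g * φ (g * x) = B (fun y : G => z y) * φ x}

/-- LSEP: from the identities for single central elements to blocks -/
def S_LSEP : Prop := ∀ (p : ℕ) [Fact p.Prime] (F : Type) [Field F] [IsAlgClosed F] [CharP F p]
  (Γ : Type) [Group Γ] [Finite Γ] (G : Subgroup Γ) [G.Normal],
    (∀ (z : Γ → F) (c : F), InZ G z →
      ∑ᶠ σ : {σ : Set (Subgroup Γ) // IsPChain p σ}, (-1) ^ σ.1.ncard *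
        Lsum G (chainStabilizer σ.1) z c = 0) →
    ∀ B : (G → F) → F,
      alternatingSum p Γ (fun H => if G ⊔ H = ⊤ then (numIBrInd G H B : ℤ) else 0) = 0

end Pool.Agent.Y63.NV
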