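import Pool.Agent.Y63.NV.Kalt
import Pool.Agent.Y63.NV.Stm9

/-!
# The alternating sum form of Navarro's conjecture for proper extensions
-/

open scoped Classical BigOperators

set_option linter.unusedSectionVars false

noncomputable section

namespace Pool.Agent.Y63.NV

open Pool.Agent.Y63.KR

section

variable {p : ℕ} [Fact p.Prime] {F : Type} [Field F] [IsAlgClosed F] [CharP F p]
  {Γ : Type} [Group Γ] [Finite Γ] {G : Subgroup Γ}

lemma lsum_cut (H : Subgroup Γ) (z : Γ → F) (c : F) : Lsum G H (cut z H) c = Lsum G H z c := by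
  unfold Lsum
  split_ifs with h
  · congr 2
    unfold Lnum
    have e : ∀ g : ↥(G ⊓ H), cut z H g = z g := fun g => if_pos g.2.2
    simp only [e]
  · rfl

/-- the weight function of the invariant irreducible traces -/
def wN (p : ℕ) (G : Subgroup Γ) (z : Γ → F) (c : F) (R J : Subgroup Γ) : ℤ :=
  (Nat.card J : ℤ) * gm p (cut (cut z J) (Subgroup.centralizer (R : Set Γ))) (SR p (G ⊓ J) J R) J c

theorem lsum_eqH [hG : G.Normal] (hp : IsPGroup p (Γ ⧸ G)) {z : Γ → F} (hz : InZ G z) (c : F)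
    (H : Subgroup Γ) :
    Lsum G H z c =
      ∑ᶠ R : Subgroup Γ, (if IsPGroup p R ∧ R ≤ H ∧ G ⊔ R = ⊤ then
        wN p G z c R (H ⊓ Subgroup.normalizer (R : Set Γ)) else 0) := by
  have : Fintype (Subgroup Γ) := Fintype.ofFinite _
  have hext : Ext p (G ⊓ H) H (cut z H) :=
    { le := inf_le_right
      norm := fun h hh n hn => ⟨hG.conj_mem n hn.1 h,
        Subgroup.mul_mem _ (Subgroup.mul_mem _ hh hn.2) (Subgroup.inv_mem _ hh)⟩
      pq := fun h hh => by
        obtain ⟨k, hk⟩ := pow_mem_of_pGroup hp h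
        exact ⟨k, hk, Subgroup.pow_mem _ hh _⟩
      inv := fun h hh x => cut_conj hz.conj hh x
      supp := fun x hx => by
        unfold cut
        split_ifs with h
        · exact hz.supp x fun hxG => hx ⟨hxG, h⟩
        · rfl }
  rw [← lsum_cut]
  unfold Lsum
  by_cases hGH : G ⊔ H = ⊤
  · rw [if_pos hGH]
    have h1 := brq' p F Γ _ _ _ hext c
    have h2 := filt' p F Γ _ _ _ hext c
    rw [h1, ← Nat.cast_mul, h2, finsum_eq_sum_of_fintype, finsum_eq_sum_of_fintype, Nat.cast_sum]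
    refine Finset.sum_congr rfl fun R _ => ?_
    by_cases hR : IsPGroup p R ∧ R ≤ H
    · have h3 := dedekind hGH hR.2
      by_cases h4 : G ⊔ R = ⊤
      · rw [if_pos ⟨hR.1, hR.2, h3.mpr h4⟩, if_pos ⟨hR.1, hR.2, h4⟩, Nat.cast_mul, cut_cut]
        unfold wN
        rw [sr_eq]
      · rw [if_neg (fun h => h4 (h3.mp h.2.2)), if_neg (fun h => h4 h.2.2), Nat.cast_zero]
    · rw [if_neg (fun h => hR ⟨h.1, h.2.1⟩), if_neg (fun h => hR ⟨h.1, h.2.1⟩), Nat.cast_zero]
  · rw [if_neg hGH, finsum_eq_sum_of_fintype]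
    symm
    refine Finset.sum_eq_zero fun R _ => ?_
    rw [if_neg]
    rintro ⟨_, h2, h3⟩
    apply hGH
    rw [eq_top_iff, ← h3]
    exact sup_le_sup_left h2 G

/-- cancellation for proper subgroups `G` -/
theorem alt_zero (hG1 : G ≠ ⊤) (w : Subgroup Γ → Subgroup Γ → ℤ) (f : Subgroup Γ → ℤ)
    (hf : ∀ H : Subgroup Γ, f H = ∑ᶠ R : Subgroup Γ, (if IsPGroup p R ∧ R ≤ H ∧ G ⊔ R = ⊤ then
      w R (H ⊓ Subgroup.normalizer (R : Set Γ)) else 0))
    [Fintype {σ : Set (Subgroup Γ) // IsPChain p σ}] :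
    ∑ σ : {σ : Set (Subgroup Γ) // IsPChain p σ}, (-1) ^ σ.1.ncard * f (chainStabilizer σ.1) =
      0 := by
  have : Fintype (Subgroup Γ) := Fintype.ofFinite _
  simp only [hf, finsum_eq_sum_of_fintype, Finset.mul_sum]
  rw [Finset.sum_comm]
  refine Finset.sum_eq_zero fun R _ => ?_
  by_cases hR : IsPGroup p R ∧ G ⊔ R = ⊤
  · have hR1 : R ≠ ⊥ := by
      rintro rfl
      exact hG1 (by simpa using hR.2)
    have h := tog_one (fun J => w R J) hR.1 hR1
    refine Eq.trans ?_ h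
    refine Finset.sum_congr rfl fun σ _ => ?_
    by_cases h1 : R ≤ chainStabilizer σ.1
    · rw [if_pos ⟨hR.1, h1, hR.2⟩, if_pos h1]
    · rw [if_neg (fun h => h1 h.2.1), if_neg h1]
  · refine Finset.sum_eq_zero fun σ _ => ?_
    rw [if_neg (fun h => hR ⟨h.1, h.2.2⟩), mul_zero]

/-- **the alternating sum vanishes**, for single central elements -/
theorem lsum_alt [hG : G.Normal] (hp : IsPGroup p (Γ ⧸ G)) (hG1 : G ≠ ⊤) {z : Γ → F}
    (hz : InZ G z) (c : F) [Fintype {σ : Set (Subgroup Γ) // IsPChain p σ}] :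
    ∑ σ : {σ : Set (Subgroup Γ) // IsPChain p σ}, (-1) ^ σ.1.ncard *
      Lsum G (chainStabilizer σ.1) z c = 0 :=
  alt_zero hG1 (wN p G z c) (fun H => Lsum G H z c) (fun H => lsum_eqH hp hz c H)

theorem wsum_altG (red : integralClosure ℤ ℂ →+* F) (hG1 : G ≠ ⊤) (z : Γ → F)
    (c : F) [Fintype {σ : Set (Subgroup Γ) // IsPChain p σ}] :
    ∑ σ : {σ : Set (Subgroup Γ) // IsPChain p σ}, (-1) ^ σ.1.ncard *
      Wsum p red G (chainStabilizer σ.1) z c = 0 :=
  alt_zero hG1 (fun R J => (Nat.card J : ℤ) * Nw p red (R.subgroupOf J) (fun x => z x) c)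
    (fun H => Wsum p red G H z c) (fun _ => rfl)

/-- the identity for `(G, Γ)` from the identities for the stabilisers of nonempty chains -/
theorem lw_of_local (red : integralClosure ℤ ℂ →+* F) [hG : G.Normal] (hp : IsPGroup p (Γ ⧸ G))
    (hG1 : G ≠ ⊤) {z : Γ → F} (hz : InZ G z) (c : F)
    (h : ∀ σ : Set (Subgroup Γ), IsPChain p σ → σ.Nonempty → G ⊔ chainStabilizer σ = ⊤ →
      Lsum G (chainStabilizer σ) z c = Wsum p red G (chainStabilizer σ) z c) :
    Lsum G ⊤ z c = Wsum p red G ⊤ z c := by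
  have : Fintype {σ : Set (Subgroup Γ) // IsPChain p σ} := Fintype.ofFinite _
  have h1 := lsum_alt hp hG1 hz c
  have h2 := wsum_altG (p := p) red hG1 z c
  have h3 : ∑ σ : {σ : Set (Subgroup Γ) // IsPChain p σ}, (-1) ^ σ.1.ncard *
      (Lsum G (chainStabilizer σ.1) z c - Wsum p red G (chainStabilizer σ.1) z c) = 0 := by
    simp only [mul_sub]
    rw [Finset.sum_sub_distrib, h1, h2, sub_zero]
  rw [Finset.sum_eq_single (⟨∅, empty_chain⟩ : {σ : Set (Subgroup Γ) // IsPChain p σ})] at h3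
  · simp only [Set.ncard_empty, pow_zero, one_mul] at h3
    rw [chainStabilizer_empty] at h3
    exact sub_eq_zero.mp h3
  · intro σ _ hσ
    have hne : σ.1.Nonempty := by
      rw [Set.nonempty_iff_ne_empty]
      intro h
      exact hσ (Subtype.ext h)
    by_cases hGH : G ⊔ chainStabilizer σ.1 = ⊤
    · rw [h σ.1 σ.2 hne hGH, sub_self, mul_zero]
    · rw [lsum_zero hGH, wsum_zero red hGH, sub_self, mul_zero]
  · intro h
    exact absurd (Finset.mem_univ _) h

end

/-- **Navarro's equality for a proper normal subgroup `G` of `p`-power index follows from the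
blockwise weight conjecture for the sections of the `p`-local subgroups of `G`.** -/
theorem local_class {p : ℕ} [Fact p.Prime] {F : Type} [Field F] [IsAlgClosed F] [CharP F p]
    (red : integralClosure ℤ ℂ →+* F) (X : ∀ (H : Type) [Group H], Prop) (hX : Closed p X)
    (h : ∀ (H : Type) [Group H] [Finite H], X H → Reduced p H →
      NavarroTheta p red (⊤ : Subgroup H))
    (Γ : Type) [Group Γ] [Finite Γ] (G : Subgroup Γ) [hG : G.Normal] (hG1 : G ≠ ⊤)
    (hp : IsPGroup p (Γ ⧸ G))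
    (hloc : ∀ P : Subgroup Γ, IsPGroup p P → P ≠ ⊥ →
      G ⊔ Subgroup.normalizer (P : Set Γ) = ⊤ → X ↥(G ⊓ Subgroup.normalizer (P : Set Γ))) :
    NavarroTheta p red G := by
  rw [theta_iff]
  refine fin' p F red Γ G hp fun z hz c => ?_
  refine lw_of_local red hp hG1 hz c fun σ hσ hne hGH => ?_
  set H := chainStabilizer σ with hH
  obtain ⟨P, hP⟩ := hne
  have hHP : H ≤ Subgroup.normalizer (P : Set Γ) := by
    intro x hx
    rw [← conjSub_eq_iff]
    exact mem_chainStabilizer.mp hx P hP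
  have hXP : X ↥(G ⊓ Subgroup.normalizer (P : Set Γ)) :=
    hloc P (hσ.isPGroup P hP) (hσ.ne_bot P hP) (by
      rw [eq_top_iff, ← hGH]
      exact sup_le_sup_left hHP G)
  have hXG : X ↥(G.subgroupOf H) := by
    have h1 : G ⊓ H ≤ G ⊓ Subgroup.normalizer (P : Set Γ) := inf_le_inf_left G hHP
    have h2 := hX.sub _ hXP ((G ⊓ H).subgroupOf (G ⊓ Subgroup.normalizer (P : Set Γ)))
    have h3 := hX.iso _ _ h2 ⟨Subgroup.subgroupOfEquivOfLe h1⟩
    have h4 := hX.sub _ (hX.iso _ _ h3 ⟨MulEquiv.subgroupCongr (inf_comm G H)⟩) ⊤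
    refine hX.iso _ _ h4 ⟨(Subgroup.topEquiv).trans ?_⟩
    exact
      { toFun := fun x => ⟨⟨x.1, x.2.1⟩, Subgroup.mem_subgroupOf.mpr x.2.2⟩
        invFun := fun x => ⟨x.1.1, x.1.2, Subgroup.mem_subgroupOf.mp x.2⟩
        left_inv := fun x => rfl
        right_inv := fun x => rfl
        map_mul' := fun x y => rfl }
  have hp' : IsPGroup p (H ⧸ G.subgroupOf H) := by
    intro x
    obtain ⟨g, rfl⟩ := QuotientGroup.mk_surjective x
    obtain ⟨k, hk⟩ := pow_mem_of_pGroup hp (g : Γ)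
    refine ⟨k, ?_⟩
    rw [← QuotientGroup.mk_pow, QuotientGroup.eq_one_iff, Subgroup.mem_subgroupOf]
    exact hk
  have hz' : InZ (G.subgroupOf H) (fun x : H => z x) :=
    ⟨fun g x => hz.conj g x, fun x hx => hz.supp _ fun h => hx (Subgroup.mem_subgroupOf.mpr h)⟩
  have key := lw_of_class red (fun H _ => XP p X H) (xp_closed p X hX) (fun H _ _ hH =>
    bawc_reduction red X hX (fun L _ _ hL hR => (theta_iff p F red L ⊤).1 (h L hL hR))
      (Nat.card H) H le_rfl hH) H (G.subgroupOf H)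
      ⟨⊤, inferInstance, hX.iso _ _ hXG ⟨Subgroup.topEquiv.symm⟩, pgroup_top p _⟩ hp' _ hz' c
  rw [parts.trl F Γ G H z c hGH, parts.trn p F red Γ G H z c hGH (fun h _ x => hz.conj h x), key]

end Pool.Agent.Y63.NV
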