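import Pool.Agent.Y63.NV.Nalt
import Pool.Agent.Y63.NV.Stm10

/-!
# Navarro's equality for proper extensions is a `p`-local statement
-/

open scoped Classical BigOperators

noncomputable section

namespace Pool.Agent.Y63.NV

open Pool.Agent.Y63.KR

/-- the equality for `(G, Γ)` follows from the equality for the stabilisers of nonempty chains -/
theorem local_pairs (hGB : S_GBASE) {p : ℕ} [Fact p.Prime] {F : Type} [Field F] [IsAlgClosed F]
    [CharP F p] (red : integralClosure ℤ ℂ →+* F) (Γ : Type) [Group Γ] [Finite Γ]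
    (G : Subgroup Γ) [hG : G.Normal] (hG1 : G ≠ ⊤) (hp : IsPGroup p (Γ ⧸ G))
    (h : ∀ σ : Set (Subgroup Γ), IsPChain p σ → σ.Nonempty → G ⊔ chainStabilizer σ = ⊤ →
      NavarroTheta p red (G.subgroupOf (chainStabilizer σ))) :
    NavarroTheta p red G := by
  rw [theta_iff]
  refine fin' p F red Γ G hp fun z hz c => ?_
  refine lw_of_local red hp hG1 hz c fun σ hσ hne hGH => ?_
  have hN := h σ hσ hne hGH
  rw [theta_iff] at hN
  have hp' : IsPGroup p (chainStabilizer σ ⧸ G.subgroupOf (chainStabilizer σ)) := by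
    intro x
    obtain ⟨g, rfl⟩ := QuotientGroup.mk_surjective x
    obtain ⟨k, hk⟩ := pow_mem_of_pGroup hp (g : Γ)
    refine ⟨k, ?_⟩
    rw [← QuotientGroup.mk_pow, QuotientGroup.eq_one_iff, Subgroup.mem_subgroupOf]
    exact hk
  have hz' : InZ (G.subgroupOf (chainStabilizer σ)) (fun x : chainStabilizer σ => z x) :=
    ⟨fun g x => hz.conj g x, fun x hx => hz.supp _ fun h => hx (Subgroup.mem_subgroupOf.mpr h)⟩
  rw [parts.trl F Γ G _ z c hGH, parts.trn p F red Γ G _ z c hGH (fun h _ x => hz.conj h x)]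
  exact hGB p F red _ _ hp' hN _ hz' c

/-- the alternating sum form for blocks -/
theorem block_alt (hLS : S_LSEP) {p : ℕ} [Fact p.Prime] {F : Type} [Field F] [IsAlgClosed F]
    [CharP F p] (Γ : Type) [Group Γ] [Finite Γ]
    (G : Subgroup Γ) [hG : G.Normal] (hG1 : G ≠ ⊤) (hp : IsPGroup p (Γ ⧸ G))
    (B : (G → F) → F) :
    alternatingSum p Γ (fun H => if G ⊔ H = ⊤ then (numIBrInd G H B : ℤ) else 0) = 0 := by
  refine hLS p F Γ G (fun z c hz => ?_) B
  have : Fintype {σ : Set (Subgroup Γ) // IsPChain p σ} := Fintype.ofFinite _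
  rw [finsum_eq_sum_of_fintype]
  exact lsum_alt hp hG1 hz c

end Pool.Agent.Y63.NV
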