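import Pool.Agent.Y63.NV.Nfin
import Pool.Agent.Y170.NV.Lsep
import Pool.Agent.Y918.NV.Winv
import Pool.Agent.Y63.NV.Gb

/-!
# The alternating sum form of Navarro's conjecture for proper extensions
-/

open scoped Classical BigOperators

noncomputable section

namespace Pool.Agent.Y63.NV

open Pool.Agent.Y63.KR

theorem navarro_alt {p : ℕ} [Fact p.Prime] {F : Type} [Field F] [IsAlgClosed F]
    [CharP F p] (red : integralClosure ℤ ℂ →+* F) (Γ : Type) [Group Γ] [Finite Γ]
    (G : Subgroup Γ) [hG : G.Normal] (hG1 : G ≠ ⊤) (hp : IsPGroup p (Γ ⧸ G)) :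
    (∀ B : (G → F) → F,
      alternatingSum p Γ (fun H => if G ⊔ H = ⊤ then (numIBrInd G H B : ℤ) else 0) = 0) ∧
    ((∀ σ : Set (Subgroup Γ), IsPChain p σ → σ.Nonempty → G ⊔ chainStabilizer σ = ⊤ →
      NavarroTheta p red (G.subgroupOf (chainStabilizer σ))) → NavarroTheta p red G) :=
  ⟨fun B => block_alt Pool.Agent.Y170.NV.lsep Γ G hG1 hp B,
    fun h => local_pairs (GB.gbase Pool.Agent.Y918.NV.winv) red Γ G hG1 hp h⟩

end Pool.Agent.Y63.NV
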