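import Mathlib
import Pool.Agent.Y63.NV.Brq77

/-! This file is a copy of a file of helper77 in Pool/Agent/Y77/NV (with the import of BRQ replaced). -/

/-!
# Normal subgroups of index `p`: the orbits on the irreducible traces
-/

open scoped Classical

noncomputable section

namespace Pool.Agent.Y63.NV.B77

open Pool.Agent.Y63.NV Pool.Agent.Y77.NV

/-- the fixed points of a permutation module -/
theorem orb {F E ι Γ : Type} [Field F] [AddCommGroup E] [Module F E] [Group Γ]
    [Finite ι] [MulAction Γ ι] (ρ : Γ → E →ₗ[F] E) (V : Submodule F E) (b : ι → E)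
    (hb : LinearIndependent F b) (hρ : ∀ γ i, ρ γ (b i) = b (γ • i))
    (hV : ∀ v, v ∈ V ↔ v ∈ Submodule.span F (Set.range b) ∧ ∀ γ, ρ γ v = v) :
    Module.finrank F V = Nat.card (Quotient (MulAction.orbitRel Γ ι)) := by
  have : Fintype ι := Fintype.ofFinite ι
  have : Fintype (Quotient (MulAction.orbitRel Γ ι)) := Fintype.ofFinite _
  let q : ι → Quotient (MulAction.orbitRel Γ ι) := Quotient.mk _
  let Φ : (Quotient (MulAction.orbitRel Γ ι) → F) →ₗ[F] E :=
    { toFun := fun a => ∑ i, a (q i) • b i
      map_add' := fun a a' => by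
        rw [← Finset.sum_add_distrib]
        exact Finset.sum_congr rfl fun i _ => add_smul _ _ _
      map_smul' := fun t a => by
        rw [RingHom.id_apply, Finset.smul_sum]
        exact Finset.sum_congr rfl fun i _ => mul_smul _ _ _ }
  have hΦ : Function.Injective Φ := by
    rw [injective_iff_map_eq_zero]
    intro a ha
    have h0 := Fintype.linearIndependent_iff.1 hb (fun i => a (q i)) ha
    funext k
    obtain ⟨i, rfl⟩ := Quotient.exists_rep k
    exact h0 i
  have hr : LinearMap.range Φ = V := by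
    ext v
    rw [LinearMap.mem_range, hV]
    constructor
    · rintro ⟨a, rfl⟩
      refine ⟨Submodule.sum_mem _ fun i _ =>
        Submodule.smul_mem _ _ (Submodule.subset_span ⟨i, rfl⟩), fun γ => ?_⟩
      change ρ γ (∑ i, a (q i) • b i) = ∑ i, a (q i) • b i
      rw [map_sum, ← Equiv.sum_comp (MulAction.toPerm γ) (fun i => a (q i) • b i)]
      refine Finset.sum_congr rfl fun i _ => ?_
      rw [map_smul, hρ]
      have h1 : q (γ • i) = q i := Quotient.sound ⟨γ, rfl⟩
      change _ = a (q (γ • i)) • b (γ • i)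
      rw [h1]
    · rintro ⟨hv, hγ⟩
      obtain ⟨a, rfl⟩ := (Submodule.mem_span_range_iff_exists_fun F).1 hv
      have ha : ∀ (γ : Γ) (i : ι), a (γ • i) = a i := by
        intro γ i
        have h1 := hγ γ
        rw [map_sum, ← Equiv.sum_comp (MulAction.toPerm γ) (fun i => a i • b i),
          ← sub_eq_zero, ← Finset.sum_sub_distrib] at h1
        have h2 := Fintype.linearIndependent_iff.1
          (hb.comp _ (MulAction.injective γ)) (fun i => a i - a (γ • i)) (by
            rw [← h1]
            refine Finset.sum_congr rfl fun j _ => ?_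
            rw [map_smul, hρ, sub_smul]
            rfl) i
        exact (sub_eq_zero.1 h2).symm
      refine ⟨fun k => a k.out, Finset.sum_congr rfl fun i _ => ?_⟩
      obtain ⟨γ, hγ'⟩ : (MulAction.orbitRel Γ ι).r (q i).out i :=
        Quotient.mk_out (s := MulAction.orbitRel Γ ι) i
      have h3 : a (q i).out = a i := by
        rw [← hγ']
        exact ha γ i
      change a (q i).out • b i = a i • b i
      rw [h3]
  rw [← hr, LinearMap.finrank_range_of_inj hΦ, Module.finrank_fintype_fun_eq_card,
    Nat.card_eq_fintype_card]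

variable {F : Type} [Field F]

theorem irr_comp' {G G' : Type} [Group G] [Group G'] (e : G ≃* G') {φ : G' → F}
    (h : IsIrrTrace φ) : IsIrrTrace (fun x => φ (e x)) := by
  obtain ⟨V, i1, i2, i3, ρ, h1, rfl⟩ := h
  let ρ' : Representation F G V := ρ.comp e.toMonoidHom
  refine ⟨V, i1, i2, i3, ρ', ?_, rfl⟩
  let o : Subrepresentation ρ' ≃o Subrepresentation ρ :=
    { toFun := fun s => ⟨s.toSubmodule, fun g v hv => by
        have h2 := s.apply_mem_toSubmodule (e.symm g) hv
        have h3 : ρ' (e.symm g) = ρ g := congrArg ρ (e.apply_symm_apply g)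
        rwa [h3] at h2⟩
      invFun := fun s => ⟨s.toSubmodule, fun g v hv => s.apply_mem_toSubmodule (e g) hv⟩
      left_inv := fun s => rfl
      right_inv := fun s => rfl
      map_rel_iff' := Iff.rfl }
  exact o.isSimpleOrder_iff.2 h1

/-- the number of irreducible traces of a group -/
theorem Lnum_top {K : Type} [Group K] (z : K → F) (c : F) :
    Lnum (⊤ : Subgroup K) ⊤ z c =
      Nat.card {φ : Irr F K // ∀ x : K, ∑ᶠ g : K, z g * φ.1 (g * x) = c * φ.1 x} := by
  refine Nat.card_congr
    { toFun := fun φ => ⟨⟨fun x => φ.1 ((Subgroup.topEquiv (G := K)).symm x),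
        irr_comp' _ φ.2.1⟩, fun x => ?_⟩
      invFun := fun φ => ⟨fun x => φ.1.1 (Subgroup.topEquiv (G := K) x), irr_comp' _ φ.1.2,
        ?_, fun x => ?_⟩
      left_inv := fun φ => rfl
      right_inv := fun φ => rfl }
  · have h := φ.2.2.2 ((Subgroup.topEquiv (G := K)).symm x)
    rw [← h, ← finsum_comp_equiv (Subgroup.topEquiv (G := K)).toEquiv]
    rfl
  · intro h _ x y hxy
    have h1 := irr_conj φ.1.2 h (x : K)
    change φ.1.1 (y : K) = φ.1.1 (x : K)
    rw [hxy, h1]
  · have h := φ.2 (Subgroup.topEquiv (G := K) x)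
    rw [← h, ← finsum_comp_equiv (Subgroup.topEquiv (G := K)).toEquiv]
    rfl

section act

variable {Γ : Type} [Group Γ]

/-- the irreducible traces of `G` on which `z` acts as `c` -/
abbrev XX (G : Subgroup Γ) (z : Γ → F) (c : F) : Type :=
  {φ : Irr F G // ∀ x : G, ∑ᶠ g : G, z g * φ.1 (g * x) = c * φ.1 x}

/-- the action of `Γ` by conjugation -/
@[reducible] def actX (G : Subgroup Γ) [G.Normal] (z : Γ → F) (c : F) (hz : InZ G z) :
    MulAction Γ (XX G z c) where
  smul γ φ := ⟨act (MulAut.conjNormal γ) φ.1, fun x => by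
    change ∑ᶠ g : G, z g * φ.1.1 ((MulAut.conjNormal γ).symm (g * x)) =
      c * φ.1.1 ((MulAut.conjNormal γ).symm x)
    rw [← φ.2 ((MulAut.conjNormal γ).symm x),
      ← finsum_comp_equiv (MulAut.conjNormal γ : G ≃* G).toEquiv]
    refine finsum_congr fun g => ?_
    change z ((MulAut.conjNormal γ g : G) : Γ) *
      φ.1.1 ((MulAut.conjNormal γ).symm (MulAut.conjNormal γ g * x)) = _
    rw [map_mul, MulEquiv.symm_apply_apply, MulAut.conjNormal_apply, hz.conj]⟩
  one_smul φ := by
    refine Subtype.ext (Subtype.ext (funext fun x => ?_))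
    change φ.1.1 ((MulAut.conjNormal (1 : Γ)).symm x) = φ.1.1 x
    rw [map_one]
    rfl
  mul_smul γ δ φ := by
    refine Subtype.ext (Subtype.ext (funext fun x => ?_))
    change φ.1.1 ((MulAut.conjNormal (γ * δ)).symm x) =
      φ.1.1 ((MulAut.conjNormal δ).symm ((MulAut.conjNormal γ).symm x))
    rw [map_mul]
    rfl

end act

end Pool.Agent.Y63.NV.B77
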