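import Pool.Agent.Y63.NV.Free
import Pool.Agent.Y657.NV.Dgn1
import Pool.Agent.Y77.NV.DGN2
import Pool.Agent.Y474.NV.Dgn
import Pool.Agent.Y564.NV.Clif
import Pool.Agent.Y487.NV.Pew
import Pool.Agent.Y44.NV.Pel

/-!
# The Alperin weight conjecture and `p`-group extensions
-/

open scoped Classical BigOperators

noncomputable section

namespace Pool.Agent.Y63.NV

open Pool.Agent.Y63.AWC (IsIrreducibleCharacter pSubgroupSetoid numDefectZero numWeights
  numRegularClasses)

theorem dgn' : S_DGN := Pool.Agent.Y474.NV.dgn red' Pool.Agent.Y657.NV.dgn1 Pool.Agent.Y77.NV.dgn2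

theorem pew' : S_PEW := Pool.Agent.Y487.NV.pew dgn' Pool.Agent.Y564.NV.clif

theorem pel' : S_PEL := Pool.Agent.Y44.NV.pel

theorem invReg_top (p : ℕ) (H : Type) [Group H] :
    invReg p (⊤ : Subgroup H) = numRegularClasses p H := by
  unfold invReg numRegularClasses
  refine Nat.card_congr (Equiv.subtypeEquivRight fun C => ?_)
  constructor
  · rintro ⟨x, hx, rfl⟩
    exact ⟨x, rfl, hx.2.1⟩
  · rintro ⟨x, rfl, hx⟩
    exact ⟨x, ⟨Subgroup.mem_top x, hx, fun h _ => ⟨h, Subgroup.mem_top h, rfl⟩⟩, rfl⟩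

theorem pgroup_top (p : ℕ) (H : Type) [Group H] : IsPGroup p (H ⧸ (⊤ : Subgroup H)) := by
  intro x
  refine ⟨0, ?_⟩
  obtain ⟨y, rfl⟩ := QuotientGroup.mk_surjective x
  rw [← QuotientGroup.mk_pow, QuotientGroup.eq_one_iff]
  trivial

theorem navarroSum_top (p : ℕ) [Fact p.Prime] (F : Type) [Field F] [IsAlgClosed F] [CharP F p]
    (H : Type) [Group H] [Finite H] :
    NavarroSum p F (⊤ : Subgroup H) ↔ numRegularClasses p H = numWeights p H := by
  unfold NavarroSum
  rw [← lnum_unit, lreg' p F H ⊤ (pgroup_top p H), invReg_top]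
  have : (∑ᶠ c : Quotient (pSubgroupSetoid p H),
      if (⊤ : Subgroup H) ⊔ c.out.1 = ⊤ then
        numDefectZero p (Subgroup.normalizer (c.out.1 : Set H) ⧸
          c.out.1.subgroupOf (Subgroup.normalizer (c.out.1 : Set H))) else 0) =
      numWeights p H := by
    unfold numWeights
    refine finsum_congr fun c => ?_
    rw [if_pos (top_sup_eq _)]
  rw [this]

theorem invReg_eq (p : ℕ) [Fact p.Prime] (F : Type) [Field F] [IsAlgClosed F] [CharP F p]
    (Γ : Type) [Group Γ] [Finite Γ] (G : Subgroup Γ) [G.Normal] (hp : IsPGroup p (Γ ⧸ G))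
    (h : NavarroSum p F G) : Nat.card Γ * invReg p G = covW p G := by
  have h1 := lreg' p F Γ G hp
  rw [lnum_unit] at h1
  rw [covW_eq, ← h1]
  congr 1

/-- extensions of index `p` -/
theorem awc_index (p : ℕ) [Fact p.Prime] (X : ∀ (H : Type) [Group H], Prop) (hX : Closed p X)
    (h : ∀ (H : Type) [Group H] [Finite H], X H → numRegularClasses p H = numWeights p H)
    (Γ : Type) [Group Γ] [Finite Γ] (G : Subgroup Γ) [G.Normal] (hXG : X G)
    (hi : Nat.card (Γ ⧸ G) = p) : numRegularClasses p Γ = numWeights p Γ := by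
  have hp : IsPGroup p (Γ ⧸ G) := IsPGroup.of_card (n := 1) (by rw [hi, pow_one])
  have h1 : NavarroSum p (AlgebraicClosure (ZMod p)) G :=
    (free_form p (AlgebraicClosure (ZMod p)) X hX).1
      (fun H _ _ hH => (navarroSum_top p _ H).2 (h H hH)) Γ G hXG hp
  have h2 := invReg_eq p _ Γ G hp h1
  have h3 := pew' p Γ G hi
  have h4 := pel' p Γ G hi
  have h5 := h G hXG
  have hpos : 0 < p * Nat.card Γ := Nat.mul_pos (Fact.out : p.Prime).pos Nat.card_pos
  refine Nat.eq_of_mul_eq_mul_left hpos ?_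
  calc p * Nat.card Γ * numRegularClasses p Γ
      = Nat.card Γ * (p * numRegularClasses p Γ) := by ring
    _ = Nat.card Γ * numWeights p G + (p - 1) * (Nat.card Γ * invReg p G) := by
        rw [h4, h5]; ring
    _ = p * Nat.card Γ * numWeights p Γ := by rw [h2, ← h3]; ring

/-- quotients by normal `p`-subgroups -/
theorem awc_quot (p : ℕ) [Fact p.Prime] (Γ : Type) [Group Γ] [Finite Γ] (M : Subgroup Γ)
    [M.Normal] (hM : IsPGroup p M) (h : numRegularClasses p (Γ ⧸ M) = numWeights p (Γ ⧸ M)) :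
    numRegularClasses p Γ = numWeights p Γ := by
  set F := AlgebraicClosure (ZMod p) with hF
  obtain ⟨red⟩ := exists_red p F
  rw [← navarroSum_top p F] at h ⊢
  rw [navarroSum_iff p F red] at h ⊢
  have hz : InZ (⊤ : Subgroup Γ) (Pi.single 1 1 : Γ → F) :=
    ⟨fun g x => Pool.Agent.Y63.NV.B532.single_conj g x, fun x hx => absurd (Subgroup.mem_top x) hx⟩
  obtain ⟨h1, h2⟩ := parts.lq p F Γ ⊤ M (Pi.single 1 1) hM hz 1
  have h3 := parts.nq p F red Γ ⊤ M (Pi.single 1 1) hM hz 1
  rw [h2, h3]
  have e1 : (⊤ : Subgroup Γ).map (QuotientGroup.mk' M) = ⊤ :=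
    Subgroup.map_top_of_surjective _ (QuotientGroup.mk'_surjective M)
  have e2 := IsUnitFun.eq (closedD_unit.quot Γ _ (isUnitFun_single (F := F) Γ) M)
  rw [e1, e2, h]

/-- `X`-by-`p`-groups -/
def XP (p : ℕ) (X : ∀ (H : Type) [Group H], Prop) (Γ : Type) [Group Γ] : Prop :=
  ∃ G : Subgroup Γ, ∃ _ : G.Normal, X G ∧ IsPGroup p (Γ ⧸ G)

theorem xp_closed (p : ℕ) [Fact p.Prime] (X : ∀ (H : Type) [Group H], Prop) (hX : Closed p X) :
    Closed p (fun Γ _ => XP p X Γ) where
  iso := by
    rintro Γ Γ' _ _ ⟨G, hG, hXG, hp⟩ ⟨e⟩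
    have hn : (G.map e.toMonoidHom).Normal := Subgroup.Normal.map hG _ e.surjective
    refine ⟨G.map e.toMonoidHom, hn, hX.iso _ _ hXG ⟨e.subgroupMap G⟩, ?_⟩
    intro x
    obtain ⟨y, rfl⟩ := QuotientGroup.mk_surjective x
    obtain ⟨k, hk⟩ := hp ((e.symm y : Γ) : Γ ⧸ G)
    refine ⟨k, ?_⟩
    rw [← QuotientGroup.mk_pow, QuotientGroup.eq_one_iff] at hk ⊢
    refine ⟨_, hk, ?_⟩
    change e (e.symm y ^ p ^ k) = y ^ p ^ k
    rw [map_pow, e.apply_symm_apply]
  sub := by
    rintro Γ _ ⟨G, hG, hXG, hp⟩ H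
    refine ⟨G.subgroupOf H, inferInstance,
      hX.iso _ _ (hX.sub G hXG (H.subgroupOf G)) (iso_subgroupOf G H), ?_⟩
    intro x
    obtain ⟨g, rfl⟩ := QuotientGroup.mk_surjective x
    obtain ⟨k, hk⟩ := hp ((g : Γ) : Γ ⧸ G)
    rw [← QuotientGroup.mk_pow, QuotientGroup.eq_one_iff] at hk
    refine ⟨k, ?_⟩
    rw [← QuotientGroup.mk_pow, QuotientGroup.eq_one_iff, Subgroup.mem_subgroupOf]
    exact hk
  quot := by
    rintro Γ _ ⟨G, hG, hXG, hp⟩ M hMn hMp
    refine ⟨G.map (QuotientGroup.mk' M),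
      Subgroup.Normal.map hG _ (QuotientGroup.mk'_surjective M), ?_, ?_⟩
    · set f : G →* Γ ⧸ M := (QuotientGroup.mk' M).comp G.subtype with hf
      have hker : IsPGroup p f.ker := by
        have : f.ker = M.subgroupOf G := by
          ext x
          rw [MonoidHom.mem_ker, Subgroup.mem_subgroupOf, hf, MonoidHom.comp_apply,
            QuotientGroup.mk'_apply, QuotientGroup.eq_one_iff]
          rfl
        rw [this]
        exact hMp.comap_subtype
      have h4 := hX.quot G hXG f.ker hker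
      refine hX.iso _ _ h4 ⟨(QuotientGroup.quotientKerEquivRange f).trans
        (MulEquiv.subgroupCongr ?_)⟩
      rw [hf, MonoidHom.range_comp, Subgroup.range_subtype]
    · intro x
      obtain ⟨y, rfl⟩ := QuotientGroup.mk_surjective x
      obtain ⟨g, rfl⟩ := QuotientGroup.mk_surjective y
      obtain ⟨k, hk⟩ := hp (g : Γ ⧸ G)
      rw [← QuotientGroup.mk_pow, QuotientGroup.eq_one_iff] at hk
      refine ⟨k, ?_⟩
      rw [← QuotientGroup.mk_pow, QuotientGroup.eq_one_iff, ← QuotientGroup.mk_pow]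
      exact ⟨_, hk, rfl⟩

/-- the groups in `X` of order less than `n` -/
theorem closed_lt (p n : ℕ) (X : ∀ (H : Type) [Group H], Prop) (hX : Closed p X) :
    Closed p (fun H _ => X H ∧ Finite H ∧ Nat.card H < n) where
  iso := by
    rintro G H _ _ ⟨h1, h2, h3⟩ ⟨e⟩
    exact ⟨hX.iso G H h1 ⟨e⟩, Finite.of_equiv G e.toEquiv, by rwa [← Nat.card_congr e.toEquiv]⟩
  sub := by
    rintro G _ ⟨h1, h2, h3⟩ H
    exact ⟨hX.sub G h1 H, inferInstance, (Subgroup.card_le_card_group H).trans_lt h3⟩
  quot := by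
    rintro G _ ⟨h1, h2, h3⟩ M _ hM
    refine ⟨hX.quot G h1 M hM, inferInstance, ?_⟩
    refine lt_of_le_of_lt ?_ h3
    exact Nat.card_le_card_of_surjective _ (QuotientGroup.mk'_surjective M)

/-- **Reduction to `p`-perfect groups.** -/
theorem reduction (p : ℕ) [Fact p.Prime] (X : ∀ (H : Type) [Group H], Prop) (hX : Closed p X) :
    (∀ (H : Type) [Group H] [Finite H], X H →
      (∀ N : Subgroup H, N.Normal → N.index ≠ p) →
      (∀ M : Subgroup H, M.Normal → IsPGroup p M → M = ⊥) →
      numRegularClasses p H = numWeights p H) ↔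
    ∀ (Γ : Type) [Group Γ] [Finite Γ] (G : Subgroup Γ) [G.Normal], X G → IsPGroup p (Γ ⧸ G) →
      numRegularClasses p Γ = numWeights p Γ := by
  constructor
  · intro h
    have key : ∀ (n : ℕ) (Γ : Type) [Group Γ] [Finite Γ], Nat.card Γ ≤ n → XP p X Γ →
        numRegularClasses p Γ = numWeights p Γ := by
      intro n
      induction n with
      | zero =>
        intro Γ _ _ hn
        have := Nat.card_pos (α := Γ)
        omega
      | succ n ih =>
        intro Γ _ _ hn hΓ
        by_cases hM : ∃ M : Subgroup Γ, M.Normal ∧ IsPGroup p M ∧ M ≠ ⊥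
        · obtain ⟨M, hMn, hMp, hM1⟩ := hM
          refine awc_quot p Γ M hMp (ih (Γ ⧸ M) ?_ ((xp_closed p X hX).quot Γ hΓ M hMp))
          have e1 := Subgroup.card_eq_card_quotient_mul_card_subgroup M
          have e2 : 1 < Nat.card M := (Subgroup.one_lt_card_iff_ne_bot M).mpr hM1
          have e3 : 0 < Nat.card (Γ ⧸ M) := Nat.card_pos
          by_contra hlt
          push Not at hlt
          have : Nat.card (Γ ⧸ M) * 2 ≤ Nat.card Γ := by
            rw [e1]
            exact Nat.mul_le_mul_left _ e2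
          omega
        by_cases hN : ∃ N : Subgroup Γ, N.Normal ∧ N.index = p
        · obtain ⟨N, hNn, hNi⟩ := hN
          have hlt : Nat.card N < Nat.card Γ := by
            have e1 := N.card_mul_index
            have e2 : 2 ≤ p := (Fact.out : p.Prime).two_le
            have e3 : 0 < Nat.card N := Nat.card_pos
            rw [hNi] at e1
            nlinarith
          refine awc_index p (fun H _ => XP p X H ∧ Finite H ∧ Nat.card H < Nat.card Γ)
            (closed_lt p (Nat.card Γ) (fun H _ => XP p X H) (xp_closed p X hX)) ?_ Γ N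
            ⟨(xp_closed p X hX).sub Γ hΓ N, inferInstance, hlt⟩ hNi
          intro H _ _ hH
          exact ih H (by have := hH.2.2; omega) hH.1
        · push Not at hM hN
          refine h Γ ?_ hN hM
          obtain ⟨G, hG, hXG, hp⟩ := hΓ
          have hG1 : G = ⊤ := by
            by_contra hne
            obtain ⟨k, hk⟩ := IsPGroup.iff_card.1 hp
            have hk0 : k ≠ 0 := by
              intro h0
              rw [h0, pow_zero] at hk
              exact hne (Subgroup.index_eq_one.1 hk)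
            obtain ⟨N', hN'n, hN'i⟩ : ∃ N' : Subgroup (Γ ⧸ G), N'.Normal ∧ N'.index = p := by
              obtain ⟨N', hN'⟩ := Sylow.exists_subgroup_card_pow_prime (G := Γ ⧸ G) p (n := k - 1)
                (by rw [hk]; exact pow_dvd_pow p (Nat.sub_le k 1))
              have hpr : p.Prime := Fact.out
              have hi : N'.index = p := by
                have e1 := N'.card_mul_index
                rw [hN', hk] at e1
                have e2 : p ^ k = p ^ (k - 1) * p := by
                  rw [← pow_succ]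
                  congr 1
                  omega
                rw [e2] at e1
                exact Nat.eq_of_mul_eq_mul_left (pow_pos hpr.pos _) e1
              refine ⟨N', Subgroup.normal_of_index_eq_minFac_card ?_, hi⟩
              rw [hi, hk, hpr.pow_minFac hk0]
            refine hN (N'.comap (QuotientGroup.mk' G)) (hN'n.comap _) ?_
            rw [Subgroup.index_comap_of_surjective _ (QuotientGroup.mk'_surjective G), hN'i]
          subst hG1
          exact hX.iso _ _ hXG ⟨Subgroup.topEquiv⟩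
    intro Γ _ _ G hG hXG hp
    exact key (Nat.card Γ) Γ le_rfl ⟨G, hG, hXG, hp⟩
  · intro h H _ _ hH _ _
    exact h H ⊤ (hX.iso _ _ hH ⟨Subgroup.topEquiv.symm⟩) (pgroup_top p H)

end Pool.Agent.Y63.NV
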