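import Pool.Agent.Y63.NV.Free2
import Pool.Agent.Y925.NV.DGN1L
import Pool.Agent.Y604.NV.DGN2L
import Pool.Agent.Y587.NV.DgnL
import Pool.Agent.Y809.NV.ClifL
import Pool.Agent.Y487.NV.PewL
import Pool.Agent.Y63.NV.Pell77
import Pool.Agent.Y63.NV.FinL286

/-!
# The blockwise weight conjecture and `p`-group extensions
-/

open scoped Classical BigOperators

noncomputable section

namespace Pool.Agent.Y63.NV

open Pool.Agent.Y63.AWC (IsIrreducibleCharacter pSubgroupSetoid numDefectZero numWeights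
  numRegularClasses)

theorem dgnL' : S_DGNL := Pool.Agent.Y587.NV.dgnL Pool.Agent.Y925.NV.dgn1L Pool.Agent.Y604.NV.dgn2L

theorem pewL' : S_PEWL := Pool.Agent.Y487.NV.pewL dgnL' Pool.Agent.Y809.NV.clifL

theorem pell' : S_PELL := Pool.Agent.Y63.NV.B77.pell

theorem finL' : S_FINL := Pool.Agent.Y63.NV.B286.finL_of Pool.Agent.Y914.NV.irr schur' wblk'

/-- the equality of the two weighted sums for all normal subgroups with `p`-power index -/
theorem lw_of_class {p : ℕ} [Fact p.Prime] {F : Type} [Field F] [IsAlgClosed F] [CharP F p]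
    (red : integralClosure ℤ ℂ →+* F) (X : ∀ (H : Type) [Group H], Prop) (hX : Closed p X)
    (h : ∀ (H : Type) [Group H] [Finite H], X H → Navarro p red (⊤ : Subgroup H))
    (Γ : Type) [Group Γ] [Finite Γ] (G : Subgroup Γ) [G.Normal] (hG : X G)
    (hp : IsPGroup p (Γ ⧸ G)) (z : Γ → F) (hz : InZ G z) (c : F) :
    Lsum G ⊤ z c = Wsum p red G ⊤ z c :=
  induct parts red X hX (fun _ _ _ => True)
      ⟨fun _ _ _ _ _ _ => trivial, fun _ _ _ _ _ _ => trivial⟩
      (fun H _ _ hH z hz _ c => base' p F red H (h H hH) z hz c)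
      (Nat.card Γ) Γ G le_rfl hG hp z hz trivial c

/-- extensions of index `p` -/
theorem bawc_index {p : ℕ} [Fact p.Prime] {F : Type} [Field F] [IsAlgClosed F] [CharP F p]
    (red : integralClosure ℤ ℂ →+* F) (X : ∀ (H : Type) [Group H], Prop) (hX : Closed p X)
    (h : ∀ (H : Type) [Group H] [Finite H], X H → Navarro p red (⊤ : Subgroup H))
    (Γ : Type) [Group Γ] [Finite Γ] (G : Subgroup Γ) [G.Normal] (hXG : X G)
    (hi : Nat.card (Γ ⧸ G) = p) : Navarro p red (⊤ : Subgroup Γ) := by
  have hp : IsPGroup p (Γ ⧸ G) := IsPGroup.of_card (n := 1) (by rw [hi, pow_one])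
  refine finL' p F red Γ G hi fun z hz c => ?_
  have h1 := pell' p F Γ G z c hi hz
  have h2 := pewL' p F red Γ G z c hi hz
  have h3 := lw_of_class red X hX h Γ G hXG hp z hz c
  have h4 : Lsum (⊤ : Subgroup G) ⊤ (fun x : G => z x) c =
      Wsum p red (⊤ : Subgroup G) ⊤ (fun x : G => z x) c :=
    base' p F red G (h G hXG) (fun x : G => z x) (fun g x => hz.conj g x) c
  have hp0 : (p : ℤ) ≠ 0 := by exact_mod_cast (Fact.out : p.Prime).ne_zero
  refine mul_left_cancel₀ hp0 ?_
  rw [h1, h2, h3, h4]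

/-- quotients by normal `p`-subgroups -/
theorem bawc_quot {p : ℕ} [Fact p.Prime] {F : Type} [Field F] [IsAlgClosed F] [CharP F p]
    (red : integralClosure ℤ ℂ →+* F) (Γ : Type) [Group Γ] [Finite Γ] (M : Subgroup Γ)
    [M.Normal] (hM : IsPGroup p M) (h : Navarro p red (⊤ : Subgroup (Γ ⧸ M))) :
    Navarro p red (⊤ : Subgroup Γ) := by
  refine fin' p F red Γ ⊤ (pgroup_top p Γ) fun z hz c => ?_
  obtain ⟨h1, h2⟩ := parts.lq p F Γ ⊤ M z hM hz c
  have h3 := parts.nq p F red Γ ⊤ M z hM hz c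
  rw [h2, h3]
  have e1 : (⊤ : Subgroup Γ).map (QuotientGroup.mk' M) = ⊤ :=
    Subgroup.map_top_of_surjective _ (QuotientGroup.mk'_surjective M)
  rw [e1]
  rw [e1] at h1
  rw [base' p F red (Γ ⧸ M) h (push M z) (fun g x => h1.conj g x) c]

/-- **Reduction of the blockwise conjecture.** -/
theorem bawc_reduction {p : ℕ} [Fact p.Prime] {F : Type} [Field F] [IsAlgClosed F] [CharP F p]
    (red : integralClosure ℤ ℂ →+* F) (X : ∀ (H : Type) [Group H], Prop) (hX : Closed p X)
    (h : ∀ (H : Type) [Group H] [Finite H], X H → Reduced p H → Navarro p red (⊤ : Subgroup H)) :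
    ∀ (n : ℕ) (Γ : Type) [Group Γ] [Finite Γ], Nat.card Γ ≤ n → XP p X Γ →
      Navarro p red (⊤ : Subgroup Γ) := by
  intro n
  induction n with
  | zero =>
    intro Γ _ _ hn
    have := Nat.card_pos (α := Γ)
    omega
  | succ n ih =>
    intro Γ _ _ hn hΓ
    by_cases hM : ∃ M : Subgroup Γ, M.Normal ∧ IsPGroup p M ∧ M ≠ ⊥
    · obtain ⟨M, hMn, hMp, hM1⟩ := hM
      refine bawc_quot red Γ M hMp (ih (Γ ⧸ M) ?_ ((xp_closed p X hX).quot Γ hΓ M hMp))
      have e1 := Subgroup.card_eq_card_quotient_mul_card_subgroup M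
      have e2 : 1 < Nat.card M := (Subgroup.one_lt_card_iff_ne_bot M).mpr hM1
      have e3 : 0 < Nat.card (Γ ⧸ M) := Nat.card_pos
      by_contra hlt
      push Not at hlt
      have : Nat.card (Γ ⧸ M) * 2 ≤ Nat.card Γ := by
        rw [e1]
        exact Nat.mul_le_mul_left _ e2
      omega
    by_cases hN : ∃ N : Subgroup Γ, N.Normal ∧ N.index = p
    · obtain ⟨N, hNn, hNi⟩ := hN
      have hlt : Nat.card N < Nat.card Γ := by
        have e1 := N.card_mul_index
        have e2 : 2 ≤ p := (Fact.out : p.Prime).two_le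
        have e3 : 0 < Nat.card N := Nat.card_pos
        rw [hNi] at e1
        nlinarith
      refine bawc_index red (fun H _ => XP p X H ∧ Finite H ∧ Nat.card H < Nat.card Γ)
        (closed_lt p (Nat.card Γ) (fun H _ => XP p X H) (xp_closed p X hX)) ?_ Γ N
        ⟨(xp_closed p X hX).sub Γ hΓ N, inferInstance, hlt⟩ hNi
      intro H _ _ hH
      exact ih H (by have := hH.2.2; omega) hH.1
    · push Not at hM hN
      refine h Γ ?_ ⟨hN, hM⟩
      obtain ⟨G, hG, hXG, hp⟩ := hΓ
      have hG1 : G = ⊤ := by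
        by_contra hne
        obtain ⟨k, hk⟩ := IsPGroup.iff_card.1 hp
        have hk0 : k ≠ 0 := by
          intro h0
          rw [h0, pow_zero] at hk
          exact hne (Subgroup.index_eq_one.1 hk)
        obtain ⟨N', hN'n, hN'i⟩ : ∃ N' : Subgroup (Γ ⧸ G), N'.Normal ∧ N'.index = p := by
          obtain ⟨N', hN'⟩ := Sylow.exists_subgroup_card_pow_prime (G := Γ ⧸ G) p (n := k - 1)
            (by rw [hk]; exact pow_dvd_pow p (Nat.sub_le k 1))
          have hpr : p.Prime := Fact.out
          have hi : N'.index = p := by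
            have e1 := N'.card_mul_index
            rw [hN', hk] at e1
            have e2 : p ^ k = p ^ (k - 1) * p := by
              rw [← pow_succ]
              congr 1
              omega
            rw [e2] at e1
            exact Nat.eq_of_mul_eq_mul_left (pow_pos hpr.pos _) e1
          refine ⟨N', Subgroup.normal_of_index_eq_minFac_card ?_, hi⟩
          rw [hi, hk, hpr.pow_minFac hk0]
        refine hN (N'.comap (QuotientGroup.mk' G)) (hN'n.comap _) ?_
        rw [Subgroup.index_comap_of_surjective _ (QuotientGroup.mk'_surjective G), hN'i]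
      subst hG1
      exact hX.iso _ _ hXG ⟨Subgroup.topEquiv⟩

/-- **Strong blockwise form.** -/
theorem block_strong {p : ℕ} [Fact p.Prime] {F : Type} [Field F] [IsAlgClosed F] [CharP F p]
    (red : integralClosure ℤ ℂ →+* F) (X : ∀ (H : Type) [Group H], Prop) (hX : Closed p X) :
    (∀ (H : Type) [Group H] [Finite H], X H → Reduced p H →
      NavarroTheta p red (⊤ : Subgroup H)) ↔
    ∀ (Γ : Type) [Group Γ] [Finite Γ] (N G : Subgroup Γ) [N.Normal] [G.Normal], N ≤ G → X N →
      IsPGroup p (Γ ⧸ N) → NavarroTheta p red G := by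
  constructor
  · intro h Γ _ _ N G _ _ hNG hN hp
    rw [theta_iff]
    refine fin' p F red Γ G (pgroup_of_le hNG hp) fun z hz c => ?_
    refine lw_of_class red (fun H _ => XP p X H) (xp_closed p X hX) ?_ Γ G
      (xp_of p X hX Γ N G hNG hN hp) (pgroup_of_le hNG hp) z hz c
    intro H _ _ hH
    exact bawc_reduction red X hX (fun L _ _ hL hR => (theta_iff p F red L ⊤).1 (h L hL hR))
      (Nat.card H) H le_rfl hH
  · intro h H _ _ hH _
    exact h H ⊤ ⊤ le_rfl (hX.iso _ _ hH ⟨Subgroup.topEquiv.symm⟩) (pgroup_top p H)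

end Pool.Agent.Y63.NV
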