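import Pool.Agent.Y63.NV.Stm

/-!
# Defect groups: the condition `Q ∩ G ≤ D` is automatic
-/

open scoped Classical

noncomputable section

namespace Pool.Agent.Y63.NV

open Pool.Agent.Y63.AWC (IsIrreducibleCharacter pSubgroupSetoid)

/-- the value of the block `B` at the class sum of `x` -/
def classValue {F G : Type} [Field F] [Group G] (B : (G → F) → F) (x : G) : F :=
  B (fun y => if IsConj x y then 1 else 0)

/-- `D` is a defect group of the block `B`: a Sylow `p`-subgroup of `C_G(x)` for a class `x^G` such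
that `λ_B` does not vanish at the class sum, with `|C_G(x)|_p` minimal among these classes. -/
def IsDefectGroup (p : ℕ) {F G : Type} [Field F] [Group G] (B : (G → F) → F)
    (D : Subgroup G) : Prop :=
  ∃ x : G, classValue B x ≠ 0 ∧
    (∀ y : G, classValue B y ≠ 0 →
      (Nat.card ↥(Subgroup.centralizer {x})).factorization p ≤
        (Nat.card ↥(Subgroup.centralizer {y})).factorization p) ∧
    D ≤ Subgroup.centralizer {x} ∧ IsPGroup p D ∧
    (Nat.card D).factorization p = (Nat.card ↥(Subgroup.centralizer {x})).factorization p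

/-- `Q ∩ G` is contained in a defect group of the block `B` of `G`. -/
def InDefect (p : ℕ) {F Γ : Type} [Field F] [Group Γ] (G : Subgroup Γ) (B : (G → F) → F)
    (Q : Subgroup Γ) : Prop :=
  ∃ D : Subgroup G, IsDefectGroup p B D ∧ Q.subgroupOf G ≤ D

/-- Navarro's equality, with the sum over the `Γ`-classes of the set `Θ_B` of the `p`-subgroups `Q`
of `Γ` with `GQ = Γ` such that `Q ∩ G` is contained in a defect group of `B`. -/
def NavarroTheta (p : ℕ) {F : Type} [Field F] (red : integralClosure ℤ ℂ →+* F) {Γ : Type}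
    [Group Γ] (G : Subgroup Γ) : Prop :=
  ∀ B : (G → F) → F, IsBlock B → IsInvBlock G B →
    numIBr G B = ∑ᶠ c : Quotient (pSubgroupSetoid p Γ),
      if G ⊔ c.out.1 = ⊤ ∧ InDefect p G B c.out.1 then numDz p red G c.out.1 B else 0

/-- WDEF -/
def S_WDEF : Prop := ∀ (p : ℕ) [Fact p.Prime] (F : Type) [Field F] [IsAlgClosed F] [CharP F p]
  (red : integralClosure ℤ ℂ →+* F) (Γ : Type) [Group Γ] [Finite Γ] (G : Subgroup Γ) [G.Normal],
    ∀ (B : (G → F) → F), IsBlock B → IsInvBlock G B → ∀ Q : Subgroup Γ, IsPGroup p Q →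
    numDz p red G Q B ≠ 0 → InDefect p G B Q

end Pool.Agent.Y63.NV
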