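import Pool.Agent.Y63.NV.Final
import Pool.Agent.Y858.NV.Wdef
import Pool.Agent.Y44.NV.Red

/-!
# Navarro's conjecture for `p`-group extensions: the condition `Q ∩ G ≤ D`
-/

open scoped Classical BigOperators

noncomputable section

namespace Pool.Agent.Y63.NV

open Pool.Agent.Y63.AWC (IsIrreducibleCharacter pSubgroupSetoid)

theorem wdef' : S_WDEF := Pool.Agent.Y858.NV.wdef wblk' cutw'

theorem red' : S_RED := Pool.Agent.Y44.NV.red

theorem theta_iff (p : ℕ) [Fact p.Prime] (F : Type) [Field F] [IsAlgClosed F] [CharP F p]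
    (red : integralClosure ℤ ℂ →+* F) (Γ : Type) [Group Γ] [Finite Γ] (G : Subgroup Γ)
    [G.Normal] : NavarroTheta p red G ↔ Navarro p red G := by
  have key : ∀ B : (G → F) → F, IsBlock B → IsInvBlock G B →
      (∑ᶠ c : Quotient (pSubgroupSetoid p Γ),
        if G ⊔ c.out.1 = ⊤ ∧ InDefect p G B c.out.1 then numDz p red G c.out.1 B else 0) =
      ∑ᶠ c : Quotient (pSubgroupSetoid p Γ),
        if G ⊔ c.out.1 = ⊤ then numDz p red G c.out.1 B else 0 := by
    intro B hB hI
    refine finsum_congr fun c => ?_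
    by_cases h1 : G ⊔ c.out.1 = ⊤
    · by_cases h2 : InDefect p G B c.out.1
      · rw [if_pos ⟨h1, h2⟩, if_pos h1]
      · rw [if_neg (fun h => h2 h.2), if_pos h1]
        by_contra h3
        exact h2 (wdef' p F red Γ G B hB hI c.out.1 c.out.2 (fun h => h3 h.symm))
    · rw [if_neg (fun h => h1 h.1), if_neg h1]
  constructor
  · intro h B hB hI
    rw [h B hB hI, key B hB hI]
  · intro h B hB hI
    rw [h B hB hI, key B hB hI]

/-- **Class form.** -/
theorem class_form (p : ℕ) [Fact p.Prime] (F : Type) [Field F] [IsAlgClosed F] [CharP F p]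
    (red : integralClosure ℤ ℂ →+* F) (X : ∀ (H : Type) [Group H], Prop) (hX : Closed p X) :
    (∀ (H : Type) [Group H] [Finite H], X H → NavarroTheta p red (⊤ : Subgroup H)) ↔
    ∀ (Γ : Type) [Group Γ] [Finite Γ] (G : Subgroup Γ) [G.Normal], X G → IsPGroup p (Γ ⧸ G) →
      NavarroTheta p red G := by
  constructor
  · intro h Γ _ _ G _ hG hp
    rw [theta_iff]
    refine fin' p F red Γ G hp fun z hz c => ?_
    exact induct parts red X hX (fun _ _ _ => True)
      ⟨fun _ _ _ _ _ _ => trivial, fun _ _ _ _ _ _ => trivial⟩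
      (fun H _ _ hH z hz _ c => base' p F red H ((theta_iff p F red H ⊤).1 (h H hH)) z hz c)
      (Nat.card Γ) Γ G le_rfl hG hp z hz trivial c
  · intro h H _ _ hH
    refine h H ⊤ (hX.iso _ _ hH ⟨Subgroup.topEquiv.symm⟩) ?_
    intro x
    refine ⟨0, ?_⟩
    obtain ⟨y, rfl⟩ := QuotientGroup.mk_surjective x
    rw [← QuotientGroup.mk_pow, QuotientGroup.eq_one_iff]
    trivial

end Pool.Agent.Y63.NV
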