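import Pool.Agent.Y63.NV.Stm
import Pool.Agent.Y63.KR.Basic

/-!
# Toggling chains by a fixed `p`-subgroup
-/

open scoped Classical BigOperators

set_option linter.unusedSectionVars false

noncomputable section

namespace Pool.Agent.Y63.NV

open Pool.Agent.Y63.KR

variable {p : ℕ} [Fact p.Prime] {Γ F : Type} [Group Γ] [Finite Γ] [Field F]

lemma le_stab_iff {R : Subgroup Γ} {σ : Set (Subgroup Γ)} :
    R ≤ chainStabilizer σ ↔ ∀ P ∈ σ, ∀ x ∈ (R : Set Γ), conjSub x P = P := by
  constructor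
  · intro h P hP x hx
    exact mem_chainStabilizer.mp (h hx) P hP
  · intro h x hx
    exact mem_chainStabilizer.mpr fun P hP => h P hP x hx

lemma stab_le_toggle {R : Subgroup Γ} (hR : IsPGroup p R) (hR1 : R ≠ ⊥)
    {σ : Set (Subgroup Γ)} (hσ : IsPChain p σ) (hRσ : R ≤ chainStabilizer σ) :
    IsPChain p (toggle R σ) ∧ chainStabilizer σ ⊓ Subgroup.normalizer (R : Set Γ) ≤
      chainStabilizer (toggle R σ) := by
  have hRn : R ≤ Subgroup.normalizer (R : Set Γ) := Subgroup.le_normalizer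
  have h := toggle_mem (U := R) (K := ((chainStabilizer σ ⊓ Subgroup.normalizer (R : Set Γ) :
    Subgroup Γ) : Set Γ)) hR hR1 (by
      rw [Subgroup.closure_eq]
      exact le_inf hRσ hRn) (fun x hx => conjSub_eq_iff.mpr hx.2) hσ
    (fun P hP x hx => mem_chainStabilizer.mp hx.1 P hP)
  refine ⟨h.1, fun x hx => mem_chainStabilizer.mpr fun P hP => h.2 P hP x hx⟩

lemma stab_toggle {R : Subgroup Γ} (hR : IsPGroup p R) (hR1 : R ≠ ⊥)
    {σ : Set (Subgroup Γ)} (hσ : IsPChain p σ) (hRσ : R ≤ chainStabilizer σ) :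
    R ≤ chainStabilizer (toggle R σ) ∧
    chainStabilizer (toggle R σ) ⊓ Subgroup.normalizer (R : Set Γ) =
      chainStabilizer σ ⊓ Subgroup.normalizer (R : Set Γ) := by
  have hRn : R ≤ Subgroup.normalizer (R : Set Γ) := Subgroup.le_normalizer
  obtain ⟨h1, h2⟩ := stab_le_toggle hR hR1 hσ hRσ
  have h3 : R ≤ chainStabilizer (toggle R σ) := (le_inf hRσ hRn).trans h2
  obtain ⟨_, h5⟩ := stab_le_toggle hR hR1 h1 h3
  rw [toggle_toggle] at h5
  exact ⟨h3, le_antisymm (le_inf h5 inf_le_right) (le_inf h2 inf_le_right)⟩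

lemma mem_chainCent {σ : Set (Subgroup Γ)} {g : Γ} :
    g ∈ chainCent σ ↔ ∀ P ∈ σ, P ≤ Subgroup.centralizer {g} := by
  unfold chainCent
  simp only [Subgroup.mem_iInf, Subgroup.mem_centralizer_iff, SetLike.le_def, SetLike.mem_coe]
  constructor
  · intro h P hP x hx y hy
    rw [Set.mem_singleton_iff.mp hy]
    exact (h P hP x hx).symm
  · intro h P hP x hx
    exact (h P hP hx g rfl).symm

lemma mem_cent {R : Subgroup Γ} {g : Γ} :
    g ∈ Subgroup.centralizer (R : Set Γ) ↔ R ≤ Subgroup.centralizer {g} := by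
  simp only [Subgroup.mem_centralizer_iff, SetLike.le_def, SetLike.mem_coe]
  constructor
  · intro h x hx y hy
    rw [Set.mem_singleton_iff.mp hy]
    exact (h x hx).symm
  · intro h x hx
    exact (h hx g rfl).symm

lemma cent_toggle_aux {R : Subgroup Γ} {σ : Set (Subgroup Γ)} (hσ : IsChain (· ≤ ·) σ) {g : Γ}
    (h1 : g ∈ chainCent σ) (h2 : g ∈ Subgroup.centralizer (R : Set Γ)) :
    g ∈ chainCent (toggle R σ) := by
  rw [mem_chainCent] at h1 ⊢
  rw [mem_cent] at h2
  have ht : toggled R σ ≤ Subgroup.centralizer {g} := by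
    refine sup_le ?_ h2
    rcases lower_cases hσ R with h | h
    · rw [h]; exact bot_le
    · exact h1 _ h.1
  intro P hP
  unfold toggle at hP
  split_ifs at hP with h
  · exact h1 P hP.1
  · rcases hP with rfl | hP
    · exact ht
    · exact h1 P hP

lemma cut_toggle {R : Subgroup Γ} {σ : Set (Subgroup Γ)} (hσ : IsChain (· ≤ ·) σ)
    (hσ' : IsChain (· ≤ ·) (toggle R σ)) (z : Γ → F) :
    cut (cut z (chainCent (toggle R σ))) (Subgroup.centralizer (R : Set Γ)) =
      cut (cut z (chainCent σ)) (Subgroup.centralizer (R : Set Γ)) := by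
  funext g
  unfold cut
  by_cases h2 : g ∈ Subgroup.centralizer (R : Set Γ)
  · rw [if_pos h2, if_pos h2]
    have : g ∈ chainCent (toggle R σ) ↔ g ∈ chainCent σ := by
      constructor
      · intro h
        have := cent_toggle_aux hσ' h h2
        rwa [toggle_toggle] at this
      · intro h
        exact cent_toggle_aux hσ h h2
    by_cases h3 : g ∈ chainCent σ
    · rw [if_pos h3, if_pos (this.mpr h3)]
    · rw [if_neg h3, if_neg (fun h => h3 (this.mp h))]
  · rw [if_neg h2, if_neg h2]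

theorem tog : S_TOG := by
  intro p _ F _ Γ _ _ G z w hG
  have : Fintype {σ : Set (Subgroup Γ) // KR.IsPChain p σ} := Fintype.ofFinite _
  have : Fintype (Subgroup Γ) := Fintype.ofFinite _
  rw [finsum_eq_sum_of_fintype]
  simp only [finsum_eq_sum_of_fintype, Finset.mul_sum]
  rw [Finset.sum_comm]
  refine Finset.sum_eq_zero fun R _ => ?_
  by_cases hRG : IsPGroup p R ∧ G ⊔ R = ⊤
  · obtain ⟨hR, hGR⟩ := hRG
    have hR1 : R ≠ ⊥ := by
      rintro rfl
      exact hG (by simpa using hGR)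
    set f : {σ : Set (Subgroup Γ) // KR.IsPChain p σ} → ℤ := fun σ => (-1) ^ σ.1.ncard *
      w R (KR.chainStabilizer σ.1 ⊓ Subgroup.normalizer (R : Set Γ))
          (cut (cut z (chainCent σ.1)) (Subgroup.centralizer (R : Set Γ))) with hf
    have h1 : ∀ σ : {σ : Set (Subgroup Γ) // KR.IsPChain p σ}, (-1) ^ σ.1.ncard *
        (if IsPGroup p R ∧ R ≤ KR.chainStabilizer σ.1 ∧ G ⊔ R = ⊤ then
        w R (KR.chainStabilizer σ.1 ⊓ Subgroup.normalizer (R : Set Γ))
          (cut (cut z (chainCent σ.1)) (Subgroup.centralizer (R : Set Γ))) else 0) =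
        if R ≤ KR.chainStabilizer σ.1 then f σ else 0 := by
      intro σ
      by_cases h : R ≤ KR.chainStabilizer σ.1
      · rw [if_pos ⟨hR, h, hGR⟩, if_pos h]
      · rw [if_neg (fun h' => h h'.2.1), if_neg h, mul_zero]
    rw [Finset.sum_congr rfl fun σ _ => h1 σ, ← Finset.sum_filter]
    refine Finset.sum_involution
      (fun σ hσ => ⟨toggle R σ.1, (stab_le_toggle hR hR1 σ.2 (Finset.mem_filter.mp hσ).2).1⟩)
      ?_ ?_ ?_ ?_
    · intro σ hσ
      have hσ1 := (Finset.mem_filter.mp hσ).2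
      have h2 := (stab_le_toggle hR hR1 σ.2 hσ1).1
      have h3 := (stab_toggle hR hR1 σ.2 hσ1).2
      have h4 := cut_toggle (R := R) σ.2.chain h2.chain z
      simp only [hf]
      rw [ncard_toggle, h3, h4]
      ring
    · intro σ hσ _ h
      have h1 : toggle R σ.1 = σ.1 := congrArg Subtype.val h
      have h2 := ncard_toggle R σ.1
      rw [h1] at h2
      have h3 : ((-1 : ℤ)) ^ σ.1.ncard ≠ 0 := pow_ne_zero _ (by norm_num)
      omega
    · intro σ hσ
      rw [Finset.mem_filter]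
      exact ⟨Finset.mem_univ _, (stab_toggle hR hR1 σ.2 (Finset.mem_filter.mp hσ).2).1⟩
    · intro σ hσ
      apply Subtype.ext
      exact toggle_toggle R σ.1
  · refine Finset.sum_eq_zero fun σ _ => ?_
    rw [if_neg (fun h => hRG ⟨h.1, h.2.2⟩), mul_zero]

end Pool.Agent.Y63.NV
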